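import Pool.Agent.Lib.MP_a3e05c_co.KL.Defs

/-!
# EULER: common definitions (interface of all blocks)

`PA hd A` is the probability that a uniformly random orientation is balanced at every vertex
of `A`.  For `A = univ` it is `EO(G) / 2 ^ |E|`.
-/

open Finset Polynomial

namespace MP_a3e05c_co.KL

variable {V E : Type} [DecidableEq V] [Fintype E] [DecidableEq E]

/-- probability that a random orientation is balanced on `A` -/
noncomputable def PA (hd : E → Bool → V) (A : Finset V) : ℝ :=
  ((Om hd A).card : ℝ) / 2 ^ Fintype.card E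

/-- the bound of the key lemma, the variance is at least `k % 2` -/
noncomputable def FM (k M : ℕ) (v : ℝ) : ℝ := FF k M (max v ((k % 2 : ℕ) : ℝ))

/-- number of edges between `v` and `A` (number of alive neighbours, if `A` is the alive set) -/
def kk (hd : E → Bool → V) (A : Finset V) (v : V) : ℕ := (btw hd A v).card

/-- `u` and `w` are joined by an edge -/
def Adj (hd : E → Bool → V) (w u : V) : Prop := ∃ e b, hd e b = w ∧ hd e (!b) = u

instance (hd : E → Bool → V) (w u : V) : Decidable (Adj hd w u) :=
  inferInstanceAs (Decidable (∃ e b, hd e b = w ∧ hd e (!b) = u))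

/-- alive neighbours of `w` -/
def nb (hd : E → Bool → V) (A : Finset V) (w : V) : Finset V := A.filter fun u => Adj hd w u

/-- all neighbours of the vertices of `C` are in `C` -/
def Closed (hd : E → Bool → V) (C : Finset V) : Prop := ∀ v ∈ C, kk hd C v = deg hd v

/-- the complete graph on `Fin n` -/
def hdK (n : ℕ) : {p : Fin n × Fin n // p.1 < p.2} → Bool → Fin n :=
  fun e b => if b then e.1.2 else e.1.1

/-- number of regular tournaments -/
def RT (n : ℕ) : ℕ := (Om (hdK n) univ).card

/-- `P(K_n) = RT(n) / 2 ^ (n choose 2)` -/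
noncomputable def PK (n : ℕ) : ℝ := (RT n : ℝ) / 2 ^ (n * (n - 1) / 2)

/-- the constant of the complete graph, `log P(K_(d+1)) / (d+1)` -/
noncomputable def AA (d : ℕ) : ℝ := Real.log (PK (d + 1)) / ((d : ℝ) + 1)

/-- `ρ(d,j) = (j-1)/((d-1)(d-j+1))` -/
noncomputable def rh (d j : ℕ) : ℝ := ((j : ℝ) - 1) / (((d : ℝ) - 1) * ((d : ℝ) - j + 1))

/-- the sub-multigraph of the edges with both ends in `C` -/
def hdR (hd : E → Bool → V) (C : Finset V) : {e : E // ∀ b, hd e b ∈ C} → Bool → {v // v ∈ C} :=
  fun e b => ⟨hd e.1 b, e.2 b⟩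

end MP_a3e05c_co.KL
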