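import Pool.Agent.Lib.MP_a3e05c_co.KL.BridgeA

/-!
# EULER: the inequality of the interface implies the inequality of S10541
-/

open Finset Polynomial

namespace MP_a3e05c_co.KL

/-- number of edges -/
theorem two_card_edges {V : Type} [Fintype V] [DecidableEq V] {E : Type} [Fintype E]
    [DecidableEq E] {hd : E → Bool → V} (hs : Simple hd) :
    2 * Fintype.card E = ∑ v, deg hd v := by
  unfold deg
  simp only [Finset.card_filter]
  rw [Finset.sum_comm]
  have h : ∀ e : E, (∑ v : V, if ∃ b, hd e b = v then 1 else 0) = 2 := by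
    intro e
    rw [← Finset.card_filter]
    have h1 : (univ.filter fun v => ∃ b, hd e b = v) = {hd e true, hd e false} := by
      ext v
      simp only [Finset.mem_filter, Finset.mem_univ, true_and, Finset.mem_insert,
        Finset.mem_singleton, Bool.exists_bool]
      constructor
      · rintro (h | h)
        · exact Or.inr h.symm
        · exact Or.inl h.symm
      · rintro (h | h)
        · exact Or.inr h.symm
        · exact Or.inl h.symm
    rw [h1, Finset.card_pair (hs.1 e)]
  rw [Finset.sum_congr rfl (fun e _ => h e), Finset.sum_const, Finset.card_univ, smul_eq_mul,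
    mul_comm]

/-- the sign of a residue: `1` on `1, ..., m`, `-1` on `m + 1, ..., 2 m`, `0` at `0` -/
private def BridgeB_g (m d : ℕ) : ℤ := if d = 0 then 0 else if d ≤ m then 1 else -1

private theorem BridgeB_g_one {m d : ℕ} (h0 : 0 < d) (h : d ≤ m) : BridgeB_g m d = 1 := by
  unfold BridgeB_g
  rw [if_neg h0.ne', if_pos h]

private theorem BridgeB_g_neg {m d : ℕ} (h : m < d) : BridgeB_g m d = -1 := by
  unfold BridgeB_g
  rw [if_neg (by omega), if_neg (by omega)]

private theorem BridgeB_sum_g (m : ℕ) :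
    ∑ d ∈ range (2 * m + 1), BridgeB_g m d = 0 := by
  have h1 : ∑ d ∈ range (m + 1), BridgeB_g m d = m := by
    rw [Finset.sum_range_succ', Finset.sum_congr rfl (g := fun _ => (1 : ℤ)) ?_]
    · simp [BridgeB_g]
    · intro d hd
      have := Finset.mem_range.1 hd
      unfold BridgeB_g
      rw [if_neg (by omega), if_pos (by omega)]
  have h2 : ∑ d ∈ range m, BridgeB_g m (m + 1 + d) = -m := by
    rw [Finset.sum_congr rfl (g := fun _ => (-1 : ℤ)) ?_]
    · simp
    · intro d hd
      unfold BridgeB_g
      rw [if_neg (by omega), if_neg (by omega)]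
  rw [show 2 * m + 1 = (m + 1) + m by ring, Finset.sum_range_add, h1, h2]
  ring

/-- the rotational orientation -/
private def BridgeB_rot (m : ℕ) :
    {p : Fin (2 * m + 1) × Fin (2 * m + 1) // p.1 < p.2} → Bool :=
  fun e => decide (e.1.2.val - e.1.1.val ≤ m)

private theorem BridgeB_bal (m : ℕ) (v : Fin (2 * m + 1)) :
    Bal (hdK (2 * m + 1)) (BridgeB_rot m) v := by
  unfold Bal
  let F : Fin (2 * m + 1) × Fin (2 * m + 1) → ℤ := fun p =>
    (if p.1 = v then (if v < p.2 then BridgeB_g m (v - p.2).val else 0) else 0) +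
      (if p.2 = v then (if p.1 < v then BridgeB_g m (v - p.1).val else 0) else 0)
  have h1 : ∀ e : {p : Fin (2 * m + 1) × Fin (2 * m + 1) // p.1 < p.2},
      sg (hdK (2 * m + 1)) (BridgeB_rot m) v e = F e.1 := by
    rintro ⟨⟨i, j⟩, hij⟩
    have hij' : i < j := hij
    have hijv : i.val < j.val := hij'
    have hj := j.isLt
    simp only [sg, hdK, BridgeB_rot, F]
    by_cases hi : i = v
    · have hjv : j ≠ v := by
        rintro rfl
        exact absurd hij' (by rw [hi]; exact lt_irrefl _)
      have hvj : v < j := hi ▸ hij'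
      have hval : (v - j).val = (2 * m + 1) + v.val - j.val :=
        Fin.coe_sub_iff_lt.2 hvj
      rw [if_pos hi, if_pos hvj, if_neg hjv, add_zero, hval]
      subst hi
      by_cases hm : j.val - i.val ≤ m
      · rw [BridgeB_g_neg (by omega)]
        simp [hm, hjv]
      · rw [BridgeB_g_one (by omega) (by omega)]
        simp [hm]
    · rw [if_neg hi, zero_add]
      by_cases hj' : j = v
      · have hiv : i < v := hj' ▸ hij'
        have hval : (v - i).val = v.val - i.val := Fin.sub_val_of_le hiv.le
        rw [if_pos hj', if_pos hiv, hval]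
        subst hj'
        by_cases hm : j.val - i.val ≤ m
        · rw [BridgeB_g_one (by omega) hm]
          simp [hm]
        · rw [BridgeB_g_neg (by omega)]
          simp [hm, hi]
      · rw [if_neg hj']
        by_cases hm : j.val - i.val ≤ m
        · simp [hm, hi, hj']
        · simp [hm, hi, hj']
  rw [Finset.sum_congr rfl (fun e _ => h1 e)]
  rw [← Finset.sum_subtype (univ.filter fun p : Fin (2 * m + 1) × Fin (2 * m + 1) => p.1 < p.2)
    (fun p => by simp) F, Finset.sum_filter]
  have h2 : ∀ p : Fin (2 * m + 1) × Fin (2 * m + 1), (if p.1 < p.2 then F p else 0) = F p := by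
    rintro ⟨i, j⟩
    by_cases hij : i < j
    · rw [if_pos hij]
    · rw [if_neg hij]
      simp only [F]
      have h3 : ¬ (i = v ∧ v < j) := by
        rintro ⟨rfl, h⟩
        exact hij h
      have h4 : ¬ (j = v ∧ i < v) := by
        rintro ⟨rfl, h⟩
        exact hij h
      by_cases hi : i = v
      · rw [if_pos hi, if_neg (fun h => h3 ⟨hi, h⟩), zero_add]
        by_cases hj : j = v
        · rw [if_pos hj, if_neg (fun h => h4 ⟨hj, h⟩)]
        · rw [if_neg hj]
      · rw [if_neg hi, zero_add]
        by_cases hj : j = v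
        · rw [if_pos hj, if_neg (fun h => h4 ⟨hj, h⟩)]
        · rw [if_neg hj]
  rw [Finset.sum_congr rfl (fun p _ => h2 p), Finset.sum_add_distrib, Fintype.sum_prod_type,
    Fintype.sum_prod_type]
  have h3 : ∑ i : Fin (2 * m + 1), ∑ j : Fin (2 * m + 1),
      (if i = v then (if v < j then BridgeB_g m (v - j).val else 0) else 0) =
      ∑ u : Fin (2 * m + 1), if v < u then BridgeB_g m (v - u).val else 0 := by
    rw [Finset.sum_comm]
    refine Finset.sum_congr rfl (fun j _ => ?_)
    rw [Finset.sum_ite_eq' univ v (fun _ => if v < j then BridgeB_g m (v - j).val else 0),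
      if_pos (Finset.mem_univ _)]
  have h4 : ∑ i : Fin (2 * m + 1), ∑ j : Fin (2 * m + 1),
      (if j = v then (if i < v then BridgeB_g m (v - i).val else 0) else 0) =
      ∑ u : Fin (2 * m + 1), if u < v then BridgeB_g m (v - u).val else 0 := by
    refine Finset.sum_congr rfl (fun i _ => ?_)
    rw [Finset.sum_ite_eq' univ v (fun _ => if i < v then BridgeB_g m (v - i).val else 0),
      if_pos (Finset.mem_univ _)]
  rw [h3, h4, ← Finset.sum_add_distrib]
  have h5 : ∀ u : Fin (2 * m + 1), (if v < u then BridgeB_g m (v - u).val else 0) +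
      (if u < v then BridgeB_g m (v - u).val else 0) = BridgeB_g m (v - u).val := by
    intro u
    rcases lt_trichotomy u v with h | h | h
    · rw [if_neg (not_lt.2 h.le), if_pos h, zero_add]
    · subst h
      simp [BridgeB_g]
    · rw [if_pos h, if_neg (not_lt.2 h.le), add_zero]
  rw [Finset.sum_congr rfl (fun u _ => h5 u)]
  have h6 := Equiv.sum_comp (Equiv.subLeft v) (fun d : Fin (2 * m + 1) => BridgeB_g m d.val)
  simp only [Equiv.subLeft_apply] at h6
  rw [h6, Fin.sum_univ_eq_sum_range (fun d => BridgeB_g m d) (2 * m + 1)]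
  exact BridgeB_sum_g m

/-- the rotational tournament -/
theorem RT_pos (m : ℕ) : 0 < RT (2 * m + 1) :=
  Finset.card_pos.2 ⟨BridgeB_rot m, mem_Om.2 fun v _ => BridgeB_bal m v⟩

private theorem BridgeB_exp_AA {d : ℕ} (hd : Even d) :
    Real.exp (AA d) = (RT (d + 1) : ℝ) ^ ((1 : ℝ) / ((d : ℝ) + 1)) / 2 ^ (d / 2) := by
  obtain ⟨m, rfl⟩ := hd
  have hR : 0 < (RT (m + m + 1) : ℝ) := by
    have := RT_pos m
    rw [two_mul] at this
    exact_mod_cast this
  have he : (m + m + 1) * (m + m + 1 - 1) / 2 = (m + m + 1) * m := by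
    rw [Nat.add_sub_cancel, show (m + m + 1) * (m + m) = 2 * ((m + m + 1) * m) by ring]
    exact Nat.mul_div_cancel_left _ (by norm_num)
  have hP : PK (m + m + 1) = (RT (m + m + 1) : ℝ) / 2 ^ ((m + m + 1) * m) := by
    unfold PK
    rw [he]
  have hP0 : 0 < PK (m + m + 1) := by
    rw [hP]
    positivity
  have hm : (m + m) / 2 = m := by omega
  have hn : (0 : ℝ) < ((m + m : ℕ) : ℝ) + 1 := by positivity
  unfold AA
  rw [hm, div_eq_mul_one_div (Real.log _), ← Real.rpow_def_of_pos hP0, hP,
    Real.div_rpow hR.le (by positivity)]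
  congr 1
  rw [← Real.rpow_natCast (2 : ℝ) ((m + m + 1) * m), ← Real.rpow_mul (by norm_num),
    ← Real.rpow_natCast (2 : ℝ) m]
  congr 1
  push_cast
  push_cast at hn
  field_simp

/-- the inequality of the interface gives the inequality of S10541 -/
theorem bound_of_PA {V : Type} [Fintype V] [DecidableEq V] (G : SimpleGraph V) [DecidableRel G.Adj]
    (hev : ∀ v, Even (G.degree v))
    (h : ∀ (E : Type) [Fintype E] [DecidableEq E] (hd : E → Bool → V), Simple hd →
      (∀ v, deg hd v = G.degree v) → PA hd univ ≤ Real.exp (∑ v, AA (deg hd v))) :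
    (EOc V G : ℝ) ≤ ∏ v : V,
      ((EOc (Fin (G.degree v + 1)) (⊤ : SimpleGraph (Fin (G.degree v + 1))) : ℝ)
        ^ ((1 : ℝ) / ((G.degree v : ℝ) + 1))) := by
  obtain ⟨E, _, _, hd, hs, hadj⟩ := exists_hd V G
  obtain ⟨hE, hdeg⟩ := EOc_eq G hs hadj
  have hP := h E hd hs hdeg
  have hpow : (0 : ℝ) < 2 ^ Fintype.card E := by positivity
  unfold PA at hP
  rw [div_le_iff₀ hpow] at hP
  rw [hE]
  refine hP.trans (le_of_eq ?_)
  have hcard : Fintype.card E = ∑ v, G.degree v / 2 := by
    have h1 := two_card_edges hs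
    have h2 : ∀ v, deg hd v = 2 * (G.degree v / 2) := by
      intro v
      rw [hdeg v]
      obtain ⟨k, hk⟩ := hev v
      omega
    rw [Finset.sum_congr rfl (fun v _ => h2 v), ← Finset.mul_sum] at h1
    omega
  rw [Real.exp_sum, hcard, ← Finset.prod_pow_eq_pow_sum, ← Finset.prod_mul_distrib]
  refine Finset.prod_congr rfl (fun v _ => ?_)
  rw [hdeg v, BridgeB_exp_AA (hev v), EOc_top]
  exact div_mul_cancel₀ _ (by positivity)

end MP_a3e05c_co.KL
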