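import Pool.Agent.Lib.MP_a3e05c_co.KL.Step

/-!
# EULER: closed sets of vertices (restriction)
-/

open Finset Polynomial

namespace MP_a3e05c_co.KL

variable {V E : Type} [Fintype V] [DecidableEq V] [Fintype E] [DecidableEq E]

omit [Fintype V] in
theorem ClosedB_edge {hd : E → Bool → V} {C : Finset V} (hC : Closed hd C) {e : E} {b : Bool}
    (h : hd e b ∈ C) (b' : Bool) : hd e b' ∈ C := by
  have h1 := hC (hd e b) h
  have hsub : btw hd C (hd e b) ⊆ univ.filter (fun e' => ∃ b'', hd e' b'' = hd e b) := by
    intro e' he'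
    simp only [btw, mem_filter, mem_univ, true_and] at he' ⊢
    obtain ⟨c, hc, _⟩ := he'
    exact ⟨c, hc⟩
  have heq := Finset.eq_of_subset_of_card_le hsub (by
    have : (univ.filter (fun e' => ∃ b'', hd e' b'' = hd e b)).card = deg hd (hd e b) := rfl
    rw [this, ← h1]
    exact le_refl _)
  have hmem : e ∈ btw hd C (hd e b) := by
    rw [heq]
    simp only [mem_filter, mem_univ, true_and]
    exact ⟨b, rfl⟩
  simp only [btw, mem_filter, mem_univ, true_and] at hmem
  obtain ⟨c, hc, hc'⟩ := hmem
  rcases Bool.eq_or_eq_not b' c with h2 | h2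
  · rw [h2, hc]
    exact h
  · rw [h2]
    exact hc'

omit [Fintype V] [Fintype E] [DecidableEq V] [DecidableEq E] in
theorem ClosedB_hdR_eq {hd : E → Bool → V} {C : Finset V} (e : {e : E // ∀ b, hd e b ∈ C})
    (b : Bool) (v : {v // v ∈ C}) : hdR hd C e b = v ↔ hd e.1 b = v.1 := by
  rw [Subtype.ext_iff]
  rfl

theorem simple_hdR {hd : E → Bool → V} (hs : Simple hd) (C : Finset V) : Simple (hdR hd C) := by
  refine ⟨?_, ?_⟩
  · intro e h
    rw [ClosedB_hdR_eq] at h
    exact hs.1 e.1 h
  · intro e f h
    have h1 := congrArg (Sym2.map Subtype.val) h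
    simp only [Sym2.map_mk] at h1
    exact Subtype.ext (hs.2 h1)

theorem deg_hdR {hd : E → Bool → V} (hs : Simple hd) {C : Finset V} (hC : Closed hd C)
    (v : {v // v ∈ C}) : deg (hdR hd C) v = deg hd v.1 := by
  unfold deg
  refine Finset.card_bij (fun e _ => e.1) ?_ ?_ ?_
  · intro e he
    simp only [mem_filter, mem_univ, true_and] at he ⊢
    obtain ⟨b, hb⟩ := he
    exact ⟨b, (ClosedB_hdR_eq e b v).1 hb⟩
  · intro e _ f _ h
    exact Subtype.ext h
  · intro e he
    simp only [mem_filter, mem_univ, true_and] at he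
    obtain ⟨b, hb⟩ := he
    have hbC : hd e b ∈ C := by
      rw [hb]
      exact v.2
    refine ⟨⟨e, ClosedB_edge hC hbC⟩, ?_, rfl⟩
    simp only [mem_filter, mem_univ, true_and]
    exact ⟨b, (ClosedB_hdR_eq _ b v).2 hb⟩

omit [Fintype V] in
theorem ClosedB_sum {hd : E → Bool → V} {C : Finset V} (hC : Closed hd C) (ω : E → Bool)
    (v : {v // v ∈ C}) :
    ∑ e, sg hd ω v.1 e = ∑ e, sg (hdR hd C) (fun e => ω e.1) v e := by
  have h1 : ∑ e, sg hd ω v.1 e = ∑ e ∈ univ.filter (fun e => ∀ b, hd e b ∈ C), sg hd ω v.1 e := by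
    symm
    refine Finset.sum_subset (filter_subset _ _) ?_
    intro e _ he
    simp only [mem_filter, mem_univ, true_and] at he
    have h2 : ∀ b, hd e b ≠ v.1 := by
      intro b hb
      refine he (ClosedB_edge hC (b := b) ?_)
      rw [hb]
      exact v.2
    unfold sg
    rw [if_neg (h2 _), if_neg (h2 _)]
  rw [h1, Finset.sum_subtype (univ.filter (fun e => ∀ b, hd e b ∈ C))
    (p := fun e => ∀ b, hd e b ∈ C) (by intro x; simp)]
  refine Finset.sum_congr rfl fun e _ => ?_
  unfold sg
  simp only [ClosedB_hdR_eq]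

/-- restriction to a closed set -/
theorem PA_restrict {hd : E → Bool → V} (hs : Simple hd) {C : Finset V} (hC : Closed hd C) :
    PA hd C = PA (hdR hd C) univ := by
  have hcard : (Om hd C).card = (Om (hdR hd C) univ).card *
      2 ^ Fintype.card {e : E // ¬ ∀ b, hd e b ∈ C} := by
    have h1 : (Om hd C).card =
        ((Om (hdR hd C) univ) ×ˢ (univ : Finset ({e : E // ¬ ∀ b, hd e b ∈ C} → Bool))).card := by
      refine Finset.card_equiv
        (Equiv.piEquivPiSubtypeProd (fun e : E => ∀ b, hd e b ∈ C) (fun _ => Bool)) ?_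
      intro ω
      rw [mem_product, mem_Om, mem_Om]
      constructor
      · intro h
        refine ⟨?_, mem_univ _⟩
        intro v _
        have h2 := h v.1 v.2
        unfold Bal at h2 ⊢
        rw [ClosedB_sum hC ω v] at h2
        exact h2
      · rintro ⟨h, _⟩ v hv
        have h2 := h ⟨v, hv⟩ (mem_univ _)
        unfold Bal at h2 ⊢
        have h3 := ClosedB_sum hC ω ⟨v, hv⟩
        rw [h3]
        exact h2
    rw [h1, card_product]
    congr 1
    rw [card_univ, Fintype.card_fun, Fintype.card_bool]
  have hE : Fintype.card E = Fintype.card {e : E // ∀ b, hd e b ∈ C} +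
      Fintype.card {e : E // ¬ ∀ b, hd e b ∈ C} := by
    rw [← Fintype.card_sum]
    exact (Fintype.card_congr (Equiv.sumCompl (fun e : E => ∀ b, hd e b ∈ C))).symm
  unfold PA
  rw [hcard, hE, pow_add]
  push_cast
  rw [mul_div_mul_right]
  positivity

/-- transport along an isomorphism of simple graphs -/
theorem ClosedB_transport {V' E' : Type} [Fintype V'] [DecidableEq V'] [Fintype E']
    [DecidableEq E'] {hd : E → Bool → V} {hd' : E' → Bool → V'} (hs : Simple hd)
    (hs' : Simple hd') (f : V ≃ V') (hf : ∀ u w, Adj hd u w ↔ Adj hd' (f u) (f w)) :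
    PA hd univ = PA hd' univ := by
  have hex : ∀ e : E, ∃ e' : E', ∃ c : Bool, ∀ b, hd' e' b = f (hd e (xor b c)) := by
    intro e
    have h1 : Adj hd (hd e true) (hd e false) := ⟨e, true, rfl, rfl⟩
    obtain ⟨e', b0, h2, h3⟩ := (hf _ _).1 h1
    refine ⟨e', !b0, ?_⟩
    intro b
    cases b <;> cases b0 <;> simp_all
  choose g φ hg using hex
  have hgs : ∀ e, s(hd' (g e) true, hd' (g e) false) = s(f (hd e true), f (hd e false)) := by
    intro e
    rw [hg e true, hg e false]
    cases φ e
    · simp
    · simp [Sym2.eq_swap]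
  have hinj : Function.Injective g := by
    intro e1 e2 h
    have h1 := hgs e1
    rw [h, hgs e2] at h1
    have h2 := congrArg (Sym2.map f.symm) h1
    simp only [Sym2.map_mk, Equiv.symm_apply_apply] at h2
    exact (hs.2 h2).symm
  have hsurj : Function.Surjective g := by
    intro e'
    have h1 : Adj hd' (hd' e' true) (hd' e' false) := ⟨e', true, rfl, rfl⟩
    have h2 : Adj hd (f.symm (hd' e' true)) (f.symm (hd' e' false)) := by
      rw [hf, Equiv.apply_symm_apply, Equiv.apply_symm_apply]
      exact h1
    obtain ⟨e, b0, h3, h4⟩ := h2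
    refine ⟨e, hs'.2 ?_⟩
    change s(hd' (g e) true, hd' (g e) false) = s(hd' e' true, hd' e' false)
    rw [hgs e]
    have h5 : f (hd e b0) = hd' e' true := by rw [h3, Equiv.apply_symm_apply]
    have h6 : f (hd e (!b0)) = hd' e' false := by rw [h4, Equiv.apply_symm_apply]
    rw [← h5, ← h6]
    cases b0
    · simp [Sym2.eq_swap]
    · simp
  let G : E ≃ E' := Equiv.ofBijective g ⟨hinj, hsurj⟩
  have hG : ∀ e, G e = g e := fun e => rfl
  let W : (E → Bool) ≃ (E' → Bool) :=
    { toFun := fun ω e' => xor (ω (G.symm e')) (φ (G.symm e'))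
      invFun := fun ω' e => xor (ω' (G e)) (φ e)
      left_inv := by
        intro ω
        funext e
        simp
      right_inv := by
        intro ω'
        funext e'
        simp }
  have hW : ∀ ω e, W ω (g e) = xor (ω e) (φ e) := by
    intro ω e
    change xor (ω (G.symm (g e))) (φ (G.symm (g e))) = _
    rw [← hG e, Equiv.symm_apply_apply]
  have hsg : ∀ ω v e, sg hd' (W ω) (f v) (g e) = sg hd ω v e := by
    intro ω v e
    have h1 : hd' (g e) (W ω (g e)) = f (hd e (ω e)) := by
      rw [hg, hW]
      simp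
    have h2 : hd' (g e) (!(W ω (g e))) = f (hd e (!(ω e))) := by
      rw [hg, hW]
      cases ω e <;> cases φ e <;> rfl
    unfold sg
    rw [h1, h2]
    simp only [EmbeddingLike.apply_eq_iff_eq]
  have hcard : (Om hd univ).card = (Om hd' univ).card := by
    refine Finset.card_equiv W ?_
    intro ω
    rw [mem_Om, mem_Om]
    have hb : ∀ v, Bal hd' (W ω) (f v) ↔ Bal hd ω v := by
      intro v
      unfold Bal
      rw [← Equiv.sum_comp G]
      simp only [hG, hsg]
    constructor
    · intro h v' _
      have h1 := (hb (f.symm v')).2 (h _ (mem_univ _))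
      rwa [Equiv.apply_symm_apply] at h1
    · intro h v _
      exact (hb v).1 (h _ (mem_univ _))
  unfold PA
  rw [hcard, Fintype.card_congr G]

theorem ClosedB_simple_hdK (n : ℕ) : Simple (hdK n) := by
  refine ⟨?_, ?_⟩
  · intro e h
    simp only [hdK, if_true] at h
    exact absurd h (ne_of_gt e.2)
  · intro e f h
    simp only [hdK, if_true] at h
    have h' : s(e.1.2, e.1.1) = s(f.1.2, f.1.1) := h
    rw [Sym2.eq_iff] at h'
    rcases h' with ⟨h1, h2⟩ | ⟨h1, h2⟩
    · exact Subtype.ext (Prod.ext h2 h1)
    · exfalso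
      have h3 := e.2
      have h4 := f.2
      rw [h1, h2] at h3
      exact lt_asymm h3 h4

theorem ClosedB_adj_hdK (n : ℕ) (i j : Fin n) : Adj (hdK n) i j ↔ i ≠ j := by
  constructor
  · rintro ⟨e, b, h1, h2⟩ h3
    have := (ClosedB_simple_hdK n).1 e
    cases b
    · exact this (by rw [h1]; exact h2.trans h3.symm)
    · exact this (by rw [h1]; exact (h2.trans h3.symm).symm)
  · intro h
    rcases lt_or_gt_of_ne h with h1 | h1
    · exact ⟨⟨(i, j), h1⟩, false, by simp [hdK], by simp [hdK]⟩
    · exact ⟨⟨(j, i), h1⟩, true, by simp [hdK], by simp [hdK]⟩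

theorem ClosedB_card_hdK (n : ℕ) :
    Fintype.card {p : Fin n × Fin n // p.1 < p.2} = n * (n - 1) / 2 := by
  rw [Fintype.card_subtype]
  have hsw : (univ.filter fun p : Fin n × Fin n => p.2 < p.1).card =
      (univ.filter fun p : Fin n × Fin n => p.1 < p.2).card := by
    refine Finset.card_equiv (Equiv.prodComm _ _) ?_
    intro p
    simp
  have hdiag : (univ.filter fun p : Fin n × Fin n => p.1 = p.2).card = n := by
    have : (univ.filter fun p : Fin n × Fin n => p.1 = p.2) =
        (univ : Finset (Fin n)).image (fun i => (i, i)) := by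
      ext ⟨a, b⟩
      simp only [mem_filter, mem_univ, true_and, mem_image, Prod.mk.injEq]
      constructor
      · intro h
        exact ⟨a, rfl, h⟩
      · rintro ⟨c, h1, h2⟩
        exact h1.symm.trans h2
    rw [this, card_image_of_injective]
    · simp
    · intro a b h
      exact (Prod.mk.inj h).1
  have h1 := Finset.card_filter_add_card_filter_not (s := (univ : Finset (Fin n × Fin n)))
    (fun p : Fin n × Fin n => p.1 < p.2)
  have h2 := Finset.card_filter_add_card_filter_not
    (s := (univ.filter fun p : Fin n × Fin n => ¬ p.1 < p.2))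
    (fun p : Fin n × Fin n => p.1 = p.2)
  rw [Finset.filter_filter, Finset.filter_filter] at h2
  have h3 : (univ.filter fun p : Fin n × Fin n => ¬ p.1 < p.2 ∧ p.1 = p.2) =
      (univ.filter fun p : Fin n × Fin n => p.1 = p.2) := by
    ext p
    simp only [mem_filter, mem_univ, true_and]
    constructor
    · exact fun h => h.2
    · exact fun h => ⟨by rw [h]; exact lt_irrefl _, h⟩
  have h4 : (univ.filter fun p : Fin n × Fin n => ¬ p.1 < p.2 ∧ ¬ p.1 = p.2) =
      (univ.filter fun p : Fin n × Fin n => p.2 < p.1) := by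
    ext p
    simp only [mem_filter, mem_univ, true_and]
    constructor
    · intro h
      exact lt_of_le_of_ne (not_lt.1 h.1) (fun h' => h.2 h'.symm)
    · intro h
      exact ⟨not_lt.2 h.le, ne_of_gt h⟩
  rw [h3, h4, hdiag, hsw] at h2
  rw [card_univ, Fintype.card_prod, Fintype.card_fin] at h1
  have h5 : (univ.filter fun p : Fin n × Fin n => p.1 < p.2).card * 2 = n * (n - 1) := by
    have h6 : n * n = n * (n - 1) + n := by
      rcases n with _ | m
      · simp
      · simp only [Nat.add_sub_cancel]
        ring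
    omega
  omega

/-- a closed clique -/
theorem PA_clique {hd : E → Bool → V} (hs : Simple hd) {C : Finset V} (hC : Closed hd C)
    (h : ∀ v ∈ C, deg hd v + 1 = C.card) : PA hd C = PK C.card := by
  rw [PA_restrict hs hC]
  have hsR := simple_hdR hs C
  have hcardV : Fintype.card {v // v ∈ C} = C.card := Fintype.card_coe C
  let f : {v // v ∈ C} ≃ Fin C.card := Fintype.equivFinOfCardEq hcardV
  have hadj : ∀ v u : {v // v ∈ C}, Adj (hdR hd C) v u ↔ v ≠ u := by
    intro v u
    constructor
    · intro h1
      exact (Adj.ne hsR h1).symm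
    · intro hne
      have hk : kk (hdR hd C) univ v = deg (hdR hd C) v := by
        unfold kk btw deg
        simp only [mem_univ, and_true]
      have hnb : (nb (hdR hd C) univ v).card + 1 = Fintype.card {v // v ∈ C} := by
        rw [card_nb hsR, hk, deg_hdR hs hC, h v.1 v.2, hcardV]
      have hsub : nb (hdR hd C) univ v ⊆ univ.erase v := by
        intro w hw
        simp only [nb, mem_filter, mem_univ, true_and] at hw
        rw [mem_erase]
        exact ⟨Adj.ne hsR hw, mem_univ _⟩
      have heq := Finset.eq_of_subset_of_card_le hsub (by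
        rw [card_erase_of_mem (mem_univ _), card_univ]
        omega)
      have hmem : u ∈ nb (hdR hd C) univ v := by
        rw [heq, mem_erase]
        exact ⟨hne.symm, mem_univ _⟩
      simp only [nb, mem_filter, mem_univ, true_and] at hmem
      exact hmem
  rw [ClosedB_transport hsR (ClosedB_simple_hdK C.card) f (by
    intro u w
    rw [hadj, ClosedB_adj_hdK]
    exact not_congr f.apply_eq_iff_eq.symm)]
  unfold PA PK RT
  rw [ClosedB_card_hdK]

end MP_a3e05c_co.KL
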