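import Pool.Agent.Lib.MP_a3e05c_co.KL.Key
import Pool.Agent.Lib.MP_a3e05c_co.KL.PDefs

/-!
# EULER: deletion of one vertex
-/

open Finset Polynomial

namespace MP_a3e05c_co.KL

variable {V E : Type} [Fintype V] [DecidableEq V] [Fintype E] [DecidableEq E]

theorem PA_nonneg (hd : E → Bool → V) (A : Finset V) : 0 ≤ PA hd A := by
  unfold PA
  positivity

theorem PA_empty (hd : E → Bool → V) : PA hd ∅ = 1 := by
  have h1 : Om hd (∅ : Finset V) = univ := by
    ext ω
    rw [mem_Om]
    exact ⟨fun _ => mem_univ _, fun _ v hv => absurd hv (notMem_empty v)⟩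
  unfold PA
  rw [h1, card_univ, Fintype.card_fun, Fintype.card_bool]
  push_cast
  exact div_self (by positivity)

theorem PA_mono {hd : E → Bool → V} {A B : Finset V} (h : A ⊆ B) : PA hd B ≤ PA hd A := by
  have h1 : Om hd B ⊆ Om hd A := by
    intro ω hω
    rw [mem_Om] at hω ⊢
    exact fun v hv => hω v (h hv)
  unfold PA
  refine div_le_div_of_nonneg_right ?_ (by positivity)
  exact_mod_cast card_le_card h1

theorem kk_le_deg {hd : E → Bool → V} (hs : Simple hd) (A : Finset V) (v : V) :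
    kk hd A v ≤ deg hd v := by
  unfold kk deg btw
  refine card_le_card fun e he => ?_
  rw [mem_filter] at he ⊢
  obtain ⟨h1, b, h2, -⟩ := he
  exact ⟨h1, b, h2⟩

theorem kk_mono {hd : E → Bool → V} {A B : Finset V} (h : A ⊆ B) (v : V) :
    kk hd A v ≤ kk hd B v := by
  unfold kk btw
  refine card_le_card fun e he => ?_
  rw [mem_filter] at he ⊢
  obtain ⟨h1, b, h2, h3⟩ := he
  exact ⟨h1, b, h2, h h3⟩

omit [Fintype V] [DecidableEq V] [Fintype E] [DecidableEq E] in
private theorem Step_sym {hd : E → Bool → V} {e : E} {b : Bool} {u w : V} (h1 : hd e b = u)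
    (h2 : hd e (!b) = w) : s(hd e true, hd e false) = s(u, w) := by
  cases b
  · rw [← h1, ← h2]
    exact Sym2.eq_swap
  · rw [← h1, ← h2]
    rfl

omit [Fintype V] [DecidableEq V] [Fintype E] [DecidableEq E] in
private theorem Step_loop {hd : E → Bool → V} (hl : NoLoop hd) {e : E} {b : Bool} {u : V}
    (h1 : hd e b = u) (h2 : hd e (!b) = u) : False := by
  have h := hl e
  cases b
  · exact h (h2.trans h1.symm)
  · exact h (h1.trans h2.symm)

/-- the end of `e` different from `w` -/
private def Step_oth (hd : E → Bool → V) (w : V) (e : E) : V :=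
  if hd e true = w then hd e false else hd e true

omit [Fintype V] [Fintype E] [DecidableEq E] in
private theorem Step_oth_eq {hd : E → Bool → V} (hl : NoLoop hd) {e : E} {b : Bool} {w : V}
    (h1 : hd e b = w) : Step_oth hd w e = hd e (!b) := by
  unfold Step_oth
  cases b
  · rw [if_neg]
    · rfl
    · intro h
      exact hl e (h.trans h1.symm)
  · rw [if_pos h1]
    rfl

/-- number of alive neighbours -/
theorem card_nb {hd : E → Bool → V} (hs : Simple hd) (A : Finset V) (w : V) :
    (nb hd A w).card = kk hd A w := by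
  symm
  unfold kk
  refine card_bij (fun e _ => Step_oth hd w e) ?_ ?_ ?_
  · intro e he
    rw [btw, mem_filter] at he
    obtain ⟨-, b, h1, h2⟩ := he
    rw [Step_oth_eq hs.1 h1]
    exact mem_filter.2 ⟨h2, e, b, h1, rfl⟩
  · intro e he e' he' h
    rw [btw, mem_filter] at he he'
    obtain ⟨-, b, h1, h2⟩ := he
    obtain ⟨-, b', h1', h2'⟩ := he'
    have h3 : Step_oth hd w e = Step_oth hd w e' := h
    rw [Step_oth_eq hs.1 h1, Step_oth_eq hs.1 h1'] at h3
    apply hs.2
    show s(hd e true, hd e false) = s(hd e' true, hd e' false)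
    rw [Step_sym h1 rfl, Step_sym h1' rfl, h3]
  · intro u hu
    obtain ⟨h1, e, b, h2, h3⟩ := mem_filter.1 hu
    refine ⟨e, ?_, ?_⟩
    · rw [btw, mem_filter]
      exact ⟨mem_univ _, b, h2, by rw [h3]; exact h1⟩
    · rw [Step_oth_eq hs.1 h2, h3]

theorem Adj.symm {hd : E → Bool → V} {u w : V} (h : Adj hd w u) : Adj hd u w := by
  obtain ⟨e, b, h1, h2⟩ := h
  exact ⟨e, !b, h2, by rw [Bool.not_not]; exact h1⟩

theorem Adj.ne {hd : E → Bool → V} (hs : Simple hd) {u w : V} (h : Adj hd w u) : u ≠ w := by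
  obtain ⟨e, b, h1, h2⟩ := h
  rintro rfl
  exact Step_loop hs.1 h1 h2

/-- deletion of `w`: the number of alive neighbours of `u` drops by one if `u ~ w` -/
theorem kk_erase {hd : E → Bool → V} (hs : Simple hd) {A : Finset V} {w : V} (hw : w ∈ A) (u : V) :
    kk hd A u = kk hd (A.erase w) u + if Adj hd w u then 1 else 0 := by
  by_cases h : Adj hd w u
  · rw [if_pos h]
    obtain ⟨e₀, b₀, h1, h2⟩ := h
    have he₀ : ∀ e : E, (∃ b, hd e b = u ∧ hd e (!b) = w) ↔ e = e₀ := by
      intro e
      constructor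
      · rintro ⟨b, h3, h4⟩
        apply hs.2
        show s(hd e true, hd e false) = s(hd e₀ true, hd e₀ false)
        rw [Step_sym h3 h4, Step_sym h1 h2]
        exact Sym2.eq_swap
      · rintro rfl
        exact ⟨!b₀, h2, by rw [Bool.not_not]; exact h1⟩
    have hnot : e₀ ∉ btw hd (A.erase w) u := by
      intro h3
      rw [btw, mem_filter] at h3
      obtain ⟨-, b, h4, h5⟩ := h3
      obtain ⟨b', h6, h7⟩ := (he₀ e₀).2 rfl
      have h8 := Step_oth_eq hs.1 h4
      rw [Step_oth_eq hs.1 h6, h7] at h8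
      rw [← h8] at h5
      exact notMem_erase w A h5
    have heq : btw hd A u = insert e₀ (btw hd (A.erase w) u) := by
      ext e
      rw [mem_insert, btw, btw, mem_filter, mem_filter, ← he₀ e]
      constructor
      · rintro ⟨-, b, h3, h4⟩
        by_cases h5 : hd e (!b) = w
        · exact Or.inl ⟨b, h3, h5⟩
        · exact Or.inr ⟨mem_univ _, b, h3, mem_erase.2 ⟨h5, h4⟩⟩
      · rintro (⟨b, h3, h4⟩ | ⟨-, b, h3, h4⟩)
        · exact ⟨mem_univ _, b, h3, by rw [h4]; exact hw⟩
        · exact ⟨mem_univ _, b, h3, mem_of_mem_erase h4⟩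
    unfold kk
    rw [heq, card_insert_of_notMem hnot]
  · rw [if_neg h, add_zero]
    unfold kk
    congr 1
    ext e
    rw [btw, btw, mem_filter, mem_filter]
    constructor
    · rintro ⟨-, b, h3, h4⟩
      refine ⟨mem_univ _, b, h3, mem_erase.2 ⟨fun h5 => h ?_, h4⟩⟩
      exact ⟨e, !b, h5, by rw [Bool.not_not]; exact h3⟩
    · rintro ⟨-, b, h3, h4⟩
      exact ⟨mem_univ _, b, h3, mem_of_mem_erase h4⟩

/-- **One step.** -/
theorem PA_step {hd : E → Bool → V} (hs : Simple hd) (hev : ∀ v, Even (deg hd v)) {A : Finset V}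
    {w : V} (hw : w ∈ A) :
    PA hd A ≤ FF (kk hd A w) (deg hd w - kk hd A w)
      ((kk hd A w : ℝ) - ∑ u ∈ nb hd A w, rh (deg hd u) (kk hd A u)) * PA hd (A.erase w) := by
  have hnadj : ¬ Adj hd w w := fun h => Adj.ne hs h rfl
  have hb : btw hd (A.erase w) w = btw hd A w := by
    ext e
    rw [btw, btw, mem_filter, mem_filter]
    constructor
    · rintro ⟨-, b, h3, h4⟩
      exact ⟨mem_univ _, b, h3, mem_of_mem_erase h4⟩
    · rintro ⟨-, b, h3, h4⟩
      refine ⟨mem_univ _, b, h3, mem_erase.2 ⟨fun h5 => Step_loop hs.1 h3 h5, h4⟩⟩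
  have hkk : (btw hd (A.erase w) w).card = kk hd A w := by
    rw [hb]
    rfl
  have hfr : (frees hd (A.erase w) w).card = deg hd w - kk hd A w := by
    have h := deg_eq hs.1 (A.erase w) w
    rw [hkk] at h
    omega
  have hset : (A.erase w).filter (fun u => ∃ e b, hd e b = w ∧ hd e (!b) = u) = nb hd A w := by
    ext u
    rw [nb, mem_filter, mem_filter, mem_erase]
    constructor
    · rintro ⟨⟨h1, h2⟩, h3⟩
      exact ⟨h2, h3⟩
    · rintro ⟨h1, h2⟩
      exact ⟨⟨Adj.ne hs h2, h1⟩, h2⟩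
  have hkey := key hs (notMem_erase w A) hev
  rw [insert_erase hw, hkk, hfr, hset] at hkey
  have hsum : ∑ u ∈ nb hd A w, rho (deg hd u) (btw hd A u).card =
      ∑ u ∈ nb hd A w, rh (deg hd u) (kk hd A u) := rfl
  rw [hsum] at hkey
  unfold PA
  rw [← mul_div_assoc]
  exact div_le_div_of_nonneg_right hkey (by positivity)

end MP_a3e05c_co.KL
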