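import Pool.Agent.Lib.MP_a3e05c_co.KL.FFG
import Pool.Agent.Lib.MP_a3e05c_co.KL.Step
import Pool.Agent.Lib.MP_a3e05c_co.KL.ClosedB
import Pool.Agent.Lib.MP_a3e05c_co.KL.BridgeB
import Pool.Agent.Lib.MP_a3e05c_co.NCS.Chain

/-!
# EULER: the explicit chain bound for the complete graph
-/

open Finset

namespace MP_a3e05c_co.KL

theorem CliqueUp_nb (n : ℕ) (A : Finset (Fin n)) (w : Fin n) : nb (hdK n) A w = A.erase w := by
  unfold nb
  ext u
  rw [mem_filter, mem_erase, ClosedB_adj_hdK]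
  constructor
  · rintro ⟨h1, h2⟩
    exact ⟨h2.symm, h1⟩
  · rintro ⟨h1, h2⟩
    exact ⟨h2, h1.symm⟩

theorem CliqueUp_kk (n : ℕ) (A : Finset (Fin n)) {w : Fin n} (hw : w ∈ A) :
    kk (hdK n) A w = A.card - 1 := by
  rw [← card_nb (ClosedB_simple_hdK n), CliqueUp_nb, card_erase_of_mem hw]

theorem CliqueUp_deg (n : ℕ) (w : Fin n) : deg (hdK n) w = n - 1 := by
  have h1 := CliqueUp_kk n univ (mem_univ w)
  rw [card_univ, Fintype.card_fin] at h1
  rw [← h1]
  unfold deg kk btw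
  congr 1
  ext e
  simp

/-- the factor of the deletion of a vertex with `j` alive neighbours -/
noncomputable def CliqueUp_f (d j : ℕ) : ℝ :=
  bb (d / 2) * (1 / Real.sqrt (1 - (j * rh d j) / ((d : ℝ) - 1)))

theorem CliqueUp_y {d j : ℕ} (hd : 4 ≤ d) (hj : j < d) :
    0 ≤ (j : ℝ) * rh d j ∧ (j : ℝ) * rh d j < (d : ℝ) - 1 := by
  have h1 : (4 : ℝ) ≤ d := by exact_mod_cast hd
  have h2 : (j : ℝ) + 1 ≤ d := by exact_mod_cast hj
  have h3 : (0 : ℝ) ≤ j := Nat.cast_nonneg j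
  have h4 : 0 < ((d : ℝ) - 1) * ((d : ℝ) - j + 1) := by
    apply mul_pos <;> linarith
  unfold rh
  rw [mul_div_assoc']
  constructor
  · apply div_nonneg _ h4.le
    rcases Nat.eq_zero_or_pos j with h5 | h5
    · rw [h5]
      simp
    · have : (1 : ℝ) ≤ j := by exact_mod_cast h5
      apply mul_nonneg h3
      linarith
  · rw [div_lt_iff₀ h4]
    have h5 : (j : ℝ) * (j - 1) ≤ ((d : ℝ) - 1) * ((d : ℝ) - 1) := by nlinarith
    have h6 : ((d : ℝ) - 1) * (((d : ℝ) - 1) * 2) ≤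
        ((d : ℝ) - 1) * (((d : ℝ) - 1) * ((d : ℝ) - j + 1)) := by
      apply mul_le_mul_of_nonneg_left _ (by linarith)
      apply mul_le_mul_of_nonneg_left _ (by linarith)
      linarith
    have h7 : 0 < ((d : ℝ) - 1) * ((d : ℝ) - 1) := by
      apply mul_pos <;> linarith
    linarith

theorem CliqueUp_f_pos {d j : ℕ} (hd : 4 ≤ d) (hj : j < d) : 0 < CliqueUp_f d j := by
  have h1 : (4 : ℝ) ≤ d := by exact_mod_cast hd
  obtain ⟨-, h2⟩ := CliqueUp_y hd hj
  unfold CliqueUp_f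
  have h3 : (j : ℝ) * rh d j / ((d : ℝ) - 1) < 1 := by
    rw [div_lt_one (by linarith)]
    exact h2
  have h4 : 0 < Real.sqrt (1 - (j : ℝ) * rh d j / ((d : ℝ) - 1)) := Real.sqrt_pos.2 (by linarith)
  have := bb_pos (d / 2)
  positivity

/-- the chain -/
theorem CliqueUp_chain {d : ℕ} (hde : Even d) (hd : 4 ≤ d) (k : ℕ) (hk : k ≤ d) :
    ∀ A : Finset (Fin (d + 1)), A.card = k →
      PA (hdK (d + 1)) A ≤ ∏ j ∈ range k, CliqueUp_f d j := by
  induction k with
  | zero =>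
    intro A hA
    rw [card_eq_zero] at hA
    rw [hA, PA_empty]
    simp
  | succ k ih =>
    intro A hA
    have hne : A.Nonempty := by
      rw [← card_pos, hA]
      omega
    obtain ⟨w, hw⟩ := hne
    have hdeg : ∀ v, deg (hdK (d + 1)) v = d := fun v => by
      rw [CliqueUp_deg]
      omega
    have hkk : ∀ v ∈ A, kk (hdK (d + 1)) A v = k := fun v hv => by
      rw [CliqueUp_kk _ _ hv, hA]
      omega
    have h1 := PA_step (ClosedB_simple_hdK (d + 1)) (fun v => by rw [hdeg]; exact hde) hw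
    rw [hkk w hw, hdeg w, CliqueUp_nb] at h1
    have h2 : ∑ u ∈ A.erase w, rh (deg (hdK (d + 1)) u) (kk (hdK (d + 1)) A u) = k * rh d k := by
      rw [sum_congr rfl fun u hu => by rw [hdeg u, hkk u (mem_of_mem_erase hu)], sum_const,
        card_erase_of_mem hw, hA, nsmul_eq_mul]
      simp
    rw [h2] at h1
    obtain ⟨h3, h4⟩ := CliqueUp_y hd (show k < d by omega)
    have h5 := FF_le_G hde (show k < d by omega) h3 h4
    have h6 := ih (by omega) (A.erase w) (by rw [card_erase_of_mem hw, hA]; omega)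
    have h7 : 0 ≤ PA (hdK (d + 1)) (A.erase w) := PA_nonneg _ _
    rw [prod_range_succ]
    calc PA (hdK (d + 1)) A ≤ FF k (d - k) (k - k * rh d k) * PA (hdK (d + 1)) (A.erase w) := h1
      _ ≤ CliqueUp_f d k * PA (hdK (d + 1)) (A.erase w) := mul_le_mul_of_nonneg_right h5 h7
      _ ≤ CliqueUp_f d k * ∏ j ∈ range k, CliqueUp_f d j :=
        mul_le_mul_of_nonneg_left h6 (CliqueUp_f_pos hd (by omega)).le
      _ = _ := mul_comm _ _

theorem PA_univ_hdK (n : ℕ) : PA (hdK n) univ = PK n := by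
  unfold PA PK RT
  rw [ClosedB_card_hdK]

theorem PK_le_prod {d : ℕ} (hde : Even d) (hd : 4 ≤ d) :
    PK (d + 1) ≤ ∏ j ∈ range d, CliqueUp_f d j := by
  rw [← PA_univ_hdK]
  have h1 := CliqueUp_chain hde hd d le_rfl (univ.erase (0 : Fin (d + 1))) (by
    rw [card_erase_of_mem (mem_univ _), card_univ, Fintype.card_fin]
    omega)
  exact (PA_mono (erase_subset _ _)).trans h1

theorem CliqueUp_log_f {d j : ℕ} (hd : 4 ≤ d) (hj : j < d) : Real.log (CliqueUp_f d j) =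
    Real.log (NCS.cb (d / 2)) +
      1 / 2 * -Real.log (1 - (j : ℝ) * (j - 1) / (((d : ℝ) - 1) ^ 2 * (d - j + 1))) := by
  have h1 : (4 : ℝ) ≤ d := by exact_mod_cast hd
  have hj' : (j : ℝ) + 1 ≤ d := by exact_mod_cast hj
  obtain ⟨-, h2⟩ := CliqueUp_y hd hj
  have h3 : (j : ℝ) * rh d j / ((d : ℝ) - 1) < 1 := by
    rw [div_lt_one (by linarith)]
    exact h2
  have h4 : 0 < 1 - (j : ℝ) * rh d j / ((d : ℝ) - 1) := by linarith
  have h5 : 0 < Real.sqrt (1 - (j : ℝ) * rh d j / ((d : ℝ) - 1)) := Real.sqrt_pos.2 h4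
  have h6 : (j : ℝ) * rh d j / ((d : ℝ) - 1) =
      (j : ℝ) * (j - 1) / (((d : ℝ) - 1) ^ 2 * (d - j + 1)) := by
    unfold rh
    have h7 : (d : ℝ) - 1 ≠ 0 := by linarith
    have h8 : (d : ℝ) - j + 1 ≠ 0 := by linarith
    field_simp
  unfold CliqueUp_f
  rw [Real.log_mul (bb_pos _).ne' (by positivity), one_div, Real.log_inv, Real.log_sqrt h4.le, h6]
  have h7 : bb (d / 2) = NCS.cb (d / 2) := rfl
  rw [h7]
  ring

/-- **The explicit chain bound.** -/
theorem log_prod_eq_Ud {d : ℕ} (hd : 4 ≤ d) :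
    Real.log (∏ j ∈ range d, CliqueUp_f d j) = NCS.Ud d := by
  rw [Real.log_prod fun j hj => (CliqueUp_f_pos hd (mem_range.1 hj)).ne']
  rw [sum_congr rfl fun j hj => CliqueUp_log_f hd (mem_range.1 hj), sum_add_distrib, sum_const,
    card_range, nsmul_eq_mul, ← mul_sum]
  unfold NCS.Ud
  congr 2
  rw [range_eq_Ico, sum_eq_sum_Ico_succ_bot (by omega), sum_eq_sum_Ico_succ_bot (by omega)]
  simp

theorem PK_pos {d : ℕ} (hde : Even d) : 0 < PK (d + 1) := by
  obtain ⟨m, hm⟩ := hde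
  have h := RT_pos m
  have h1 : 2 * m + 1 = d + 1 := by omega
  rw [h1] at h
  unfold PK
  have : (0 : ℝ) < RT (d + 1) := by exact_mod_cast h
  positivity

/-- **The explicit chain bound for `log P(K_(d+1))`.** -/
theorem PK_le_Ud {d : ℕ} (hde : Even d) (hd : 4 ≤ d) : Real.log (PK (d + 1)) ≤ NCS.Ud d := by
  rw [← log_prod_eq_Ud hd]
  exact Real.log_le_log (PK_pos hde) (PK_le_prod hde hd)

/-- the chain bound in closed form -/
theorem PK_le_main {d : ℕ} (hde : Even d) (hd : 20 ≤ d) : Real.log (PK (d + 1)) ≤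
    NCS.mainR (d + 1) + (Real.log (d + 1) / 2 + 1 / 20) / (d + 1) :=
  (PK_le_Ud hde (by omega)).trans (NCS.Ud_le d hde hd)

end MP_a3e05c_co.KL
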