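import Pool.Agent.Lib.MP_a3e05c_co.KL.Defs

/-!
# EULER, key lemma: the AM-GM step
-/

open Finset

namespace MP_a3e05c_co.KL

/-- `bb n = (1/π) ∫_0^π sin^(2n)` -/
theorem bb_eq_integral (n : ℕ) :
    bb n = (1 / Real.pi) * ∫ x in (0 : ℝ)..Real.pi, Real.sin x ^ (2 * n) := by
  rw [integral_sin_pow_even, ← mul_assoc, one_div, inv_mul_cancel₀ Real.pi_ne_zero, one_mul]
  induction n with
  | zero => simp [bb]
  | succ n ih =>
    rw [Finset.prod_range_succ, ← ih]
    unfold bb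
    have h := Nat.succ_mul_centralBinom_succ n
    have h' : ((n : ℝ) + 1) * (Nat.centralBinom (n + 1) : ℝ) =
        2 * (2 * n + 1) * Nat.centralBinom n := by exact_mod_cast h
    have h1 : (n : ℝ) + 1 ≠ 0 := by positivity
    have h2 : (2 * (n : ℝ) + 2) ≠ 0 := by positivity
    rw [div_mul_div_comm, div_eq_div_iff (by positivity) (by positivity), pow_succ]
    linear_combination (2 * (4 : ℝ) ^ n) * h'

private theorem AmGm_cont (n : ℕ) : Continuous fun x : ℝ => Real.sin x ^ (2 * n) :=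
  Real.continuous_sin.pow _

theorem pb_eq_integral {K : ℕ} (s : Fin K → ℝ) (n : ℕ) :
    PB s n = (1 / Real.pi) * ∫ x in (0 : ℝ)..Real.pi,
      Real.sin x ^ (2 * n) * ∏ i, (1 - s i * Real.cos x ^ 2) := by
  have h1 : ∀ x : ℝ, Real.sin x ^ (2 * n) * ∏ i, (1 - s i * Real.cos x ^ 2) =
      ∑ T : Finset (Fin K), ((∏ i ∈ T, s i) * (∏ i ∈ Tᶜ, (1 - s i))) *
        Real.sin x ^ (2 * (n + T.card)) := by
    intro x
    have h2 : ∀ i, 1 - s i * Real.cos x ^ 2 = s i * Real.sin x ^ 2 + (1 - s i) := by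
      intro i
      rw [Real.cos_sq']
      ring
    rw [Finset.prod_congr rfl fun i _ => h2 i, Fintype.prod_add, Finset.mul_sum]
    refine Finset.sum_congr rfl fun T _ => ?_
    rw [Finset.prod_mul_distrib, Finset.prod_const]
    ring
  rw [intervalIntegral.integral_congr fun x _ => h1 x, intervalIntegral.integral_finset_sum]
  · unfold PB
    rw [Finset.mul_sum]
    refine Finset.sum_congr rfl fun T _ => ?_
    rw [intervalIntegral.integral_const_mul, bb_eq_integral]
    ring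
  · intro T _
    exact ((AmGm_cont _).const_mul _).intervalIntegrable _ _

theorem bn_eq_integral (K : ℕ) (σ : ℝ) (n : ℕ) :
    BN K σ n = (1 / Real.pi) * ∫ x in (0 : ℝ)..Real.pi,
      Real.sin x ^ (2 * n) * (1 - σ * Real.cos x ^ 2) ^ K := by
  have h1 : ∀ x : ℝ, Real.sin x ^ (2 * n) * (1 - σ * Real.cos x ^ 2) ^ K =
      ∑ m ∈ range (K + 1), ((K.choose m : ℝ) * (1 - σ) ^ (K - m) * σ ^ m) *
        Real.sin x ^ (2 * (n + m)) := by
    intro x
    have h2 : 1 - σ * Real.cos x ^ 2 = σ * Real.sin x ^ 2 + (1 - σ) := by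
      rw [Real.cos_sq']
      ring
    rw [h2, add_pow, Finset.mul_sum]
    refine Finset.sum_congr rfl fun m _ => ?_
    ring
  rw [intervalIntegral.integral_congr fun x _ => h1 x, intervalIntegral.integral_finset_sum]
  · unfold BN
    rw [Finset.mul_sum]
    refine Finset.sum_congr rfl fun m _ => ?_
    rw [intervalIntegral.integral_const_mul, bb_eq_integral]
    ring
  · intro m _
    exact ((AmGm_cont _).const_mul _).intervalIntegrable _ _

private theorem AmGm_point {K : ℕ} (s : Fin K → ℝ) (hs : ∀ i, 0 ≤ s i ∧ s i ≤ 1) (σ : ℝ)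
    (hσ : K * σ ≤ ∑ i, s i) {c : ℝ} (hc0 : 0 ≤ c) (hc1 : c ≤ 1) :
    ∏ i, (1 - s i * c) ≤ (1 - σ * c) ^ K := by
  rcases Nat.eq_zero_or_pos K with rfl | hK
  · simp
  have hK' : (0 : ℝ) < K := by exact_mod_cast hK
  have hz : ∀ i, 0 ≤ 1 - s i * c := by
    intro i
    have := mul_le_one₀ (hs i).2 hc0 hc1
    linarith
  have h1 := Real.geom_mean_le_arith_mean_weighted univ (fun _ : Fin K => ((K : ℝ))⁻¹)
    (fun i => 1 - s i * c) (fun _ _ => by positivity)
    (by rw [Finset.sum_const, Finset.card_univ, Fintype.card_fin, nsmul_eq_mul,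
      mul_inv_cancel₀ hK'.ne']) (fun i _ => hz i)
  have h2 : ∏ i, (1 - s i * c) = (∏ i, (1 - s i * c) ^ ((K : ℝ))⁻¹) ^ K := by
    rw [← Finset.prod_pow]
    refine Finset.prod_congr rfl fun i _ => ?_
    rw [Real.rpow_inv_natCast_pow (hz i) hK.ne']
  have h3 : ∑ i, ((K : ℝ))⁻¹ * (1 - s i * c) ≤ 1 - σ * c := by
    rw [← Finset.mul_sum, Finset.sum_sub_distrib, ← Finset.sum_mul, Finset.sum_const,
      Finset.card_univ, Fintype.card_fin, nsmul_eq_mul, mul_one, inv_mul_le_iff₀ hK']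
    nlinarith [mul_le_mul_of_nonneg_right hσ hc0]
  rw [h2]
  refine pow_le_pow_left₀ (Finset.prod_nonneg fun i _ => Real.rpow_nonneg (hz i) _) ?_ K
  exact h1.trans h3

private theorem AmGm_sin (x : ℝ) (n : ℕ) : 0 ≤ Real.sin x ^ (2 * n) := by
  rw [pow_mul]
  positivity

private theorem AmGm_contBN (K : ℕ) (σ : ℝ) (n : ℕ) :
    Continuous fun x : ℝ => Real.sin x ^ (2 * n) * (1 - σ * Real.cos x ^ 2) ^ K :=
  (AmGm_cont n).mul ((continuous_const.sub (continuous_const.mul (Real.continuous_cos.pow 2))).pow K)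

/-- AM-GM under the integral, and monotonicity in `σ` -/
theorem pb_le_bn {K : ℕ} (s : Fin K → ℝ) (hs : ∀ i, 0 ≤ s i ∧ s i ≤ 1) (n : ℕ) (σ : ℝ)
    (hσ : K * σ ≤ ∑ i, s i) : PB s n ≤ BN K σ n := by
  rw [pb_eq_integral, bn_eq_integral]
  refine mul_le_mul_of_nonneg_left ?_ (by positivity)
  refine intervalIntegral.integral_mono_on Real.pi_pos.le ?_ ?_ fun x _ => ?_
  · refine Continuous.intervalIntegrable ?_ _ _
    exact (AmGm_cont n).mul (continuous_finset_prod _ fun i _ =>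
      continuous_const.sub (continuous_const.mul (Real.continuous_cos.pow 2)))
  · exact (AmGm_contBN K σ n).intervalIntegrable _ _
  · exact mul_le_mul_of_nonneg_left
      (AmGm_point s hs σ hσ (sq_nonneg _) (Real.cos_sq_le_one x)) (AmGm_sin x n)

private theorem AmGm_sigma_le {k : ℕ} {v : ℝ} (h : v ≤ k) :
    (v - (k % 2 : ℕ)) / (2 * (k / 2 : ℕ)) ≤ 1 := by
  have h1 : ((k % 2 : ℕ) : ℝ) + 2 * ((k / 2 : ℕ) : ℝ) = k := by
    exact_mod_cast Nat.mod_add_div k 2
  rcases Nat.eq_zero_or_pos (k / 2) with h0 | h0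
  · rw [h0]
    simp
  · have h2 : (0 : ℝ) < ((k / 2 : ℕ) : ℝ) := by exact_mod_cast h0
    rw [div_le_one (by positivity)]
    linarith

/-- `FF` is antitone in the variance on `v ≤ k` -/
theorem FF_antitone {k M : ℕ} {v v' : ℝ} (h : v ≤ v') (h' : v' ≤ k) : FF k M v' ≤ FF k M v := by
  unfold FF
  rw [bn_eq_integral, bn_eq_integral]
  refine mul_le_mul_of_nonneg_left ?_ (by positivity)
  have h1 : (v - (k % 2 : ℕ)) / (2 * (k / 2 : ℕ)) ≤ (v' - (k % 2 : ℕ)) / (2 * (k / 2 : ℕ)) :=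
    div_le_div_of_nonneg_right (by linarith) (by positivity)
  have h2 := AmGm_sigma_le h'
  refine intervalIntegral.integral_mono_on Real.pi_pos.le
    ((AmGm_contBN _ _ _).intervalIntegrable _ _) ((AmGm_contBN _ _ _).intervalIntegrable _ _)
    fun x _ => ?_
  refine mul_le_mul_of_nonneg_left (pow_le_pow_left₀ ?_ ?_ _) (AmGm_sin x _)
  · have h3 := mul_le_mul_of_nonneg_right h2 (sq_nonneg (Real.cos x))
    have h4 := Real.cos_sq_le_one x
    linarith
  · have h3 := mul_le_mul_of_nonneg_right h1 (sq_nonneg (Real.cos x))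
    linarith

theorem FF_nonneg {k M : ℕ} {v : ℝ} (h : v ≤ k) : 0 ≤ FF k M v := by
  unfold FF
  rw [bn_eq_integral]
  refine mul_nonneg (by positivity) (intervalIntegral.integral_nonneg Real.pi_pos.le fun x _ => ?_)
  refine mul_nonneg (AmGm_sin x _) (pow_nonneg ?_ _)
  have h3 := mul_le_mul_of_nonneg_right (AmGm_sigma_le h) (sq_nonneg (Real.cos x))
  have h4 := Real.cos_sq_le_one x
  linarith

end MP_a3e05c_co.KL
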