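import Pool.Agent.Lib.MP_a3e05c_co.KL.Step

/-!
# EULER: closed sets of vertices (unions of components)
-/

open Finset Polynomial

namespace MP_a3e05c_co.KL

variable {V E : Type} [Fintype V] [DecidableEq V] [Fintype E] [DecidableEq E]

private theorem ClosedA_both {hd : E → Bool → V} {C : Finset V} (hC : Closed hd C) {e : E}
    {b : Bool} (h : hd e b ∈ C) : ∀ b', hd e b' ∈ C := by
  have h1 := hC _ h
  unfold kk deg at h1
  have hsub : btw hd C (hd e b) ⊆ univ.filter fun e' => ∃ b', hd e' b' = hd e b := by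
    intro e' he'
    rw [btw, mem_filter] at he'
    obtain ⟨-, b', h2, -⟩ := he'
    rw [mem_filter]
    exact ⟨mem_univ _, b', h2⟩
  have heq := Finset.eq_of_subset_of_card_le hsub h1.ge
  have hmem : e ∈ btw hd C (hd e b) := by
    rw [heq, mem_filter]
    exact ⟨mem_univ _, b, rfl⟩
  rw [btw, mem_filter] at hmem
  obtain ⟨-, b', h2, h3⟩ := hmem
  intro c
  by_cases hc : c = b'
  · rw [hc, h2]
    exact h
  · have : c = !b' := by cases c <;> cases b' <;> simp_all
    rw [this]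
    exact h3

/-- take `ω₁` on the edges inside `C` and `ω₂` elsewhere -/
private def ClosedA_mix (hd : E → Bool → V) (C : Finset V) (ω₁ ω₂ : E → Bool) : E → Bool :=
  fun e => if hd e true ∈ C then ω₁ e else ω₂ e

private theorem ClosedA_sg_in {hd : E → Bool → V} {C : Finset V} (hC : Closed hd C)
    (ω₁ ω₂ : E → Bool) {v : V} (hv : v ∈ C) (e : E) :
    sg hd (ClosedA_mix hd C ω₁ ω₂) v e = sg hd ω₁ v e := by
  by_cases hp : hd e true ∈ C
  · have : ClosedA_mix hd C ω₁ ω₂ e = ω₁ e := by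
      unfold ClosedA_mix
      rw [if_pos hp]
    unfold sg
    rw [this]
  · have hn : ∀ b, hd e b ≠ v := by
      intro b hb
      exact hp (ClosedA_both hC (b := b) (by rw [hb]; exact hv) true)
    unfold sg
    rw [if_neg (hn _), if_neg (hn _), if_neg (hn _), if_neg (hn _)]

private theorem ClosedA_sg_out {hd : E → Bool → V} {C : Finset V} (hC : Closed hd C)
    (ω₁ ω₂ : E → Bool) {v : V} (hv : v ∉ C) (e : E) :
    sg hd (ClosedA_mix hd C ω₁ ω₂) v e = sg hd ω₂ v e := by
  by_cases hp : hd e true ∈ C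
  · have hn : ∀ b, hd e b ≠ v := by
      intro b hb
      exact hv (hb ▸ ClosedA_both hC hp b)
    unfold sg
    rw [if_neg (hn _), if_neg (hn _), if_neg (hn _), if_neg (hn _)]
  · have : ClosedA_mix hd C ω₁ ω₂ e = ω₂ e := by
      unfold ClosedA_mix
      rw [if_neg hp]
    unfold sg
    rw [this]

private theorem ClosedA_bal_in {hd : E → Bool → V} {C : Finset V} (hC : Closed hd C)
    (ω₁ ω₂ : E → Bool) {v : V} (hv : v ∈ C) :
    Bal hd (ClosedA_mix hd C ω₁ ω₂) v ↔ Bal hd ω₁ v := by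
  unfold Bal
  rw [Finset.sum_congr rfl (fun e _ => ClosedA_sg_in hC ω₁ ω₂ hv e)]

private theorem ClosedA_bal_out {hd : E → Bool → V} {C : Finset V} (hC : Closed hd C)
    (ω₁ ω₂ : E → Bool) {v : V} (hv : v ∉ C) :
    Bal hd (ClosedA_mix hd C ω₁ ω₂) v ↔ Bal hd ω₂ v := by
  unfold Bal
  rw [Finset.sum_congr rfl (fun e _ => ClosedA_sg_out hC ω₁ ω₂ hv e)]

private theorem ClosedA_mix_mix (hd : E → Bool → V) (C : Finset V) (ω₁ ω₂ : E → Bool) :
    ClosedA_mix hd C (ClosedA_mix hd C ω₁ ω₂) (ClosedA_mix hd C ω₂ ω₁) = ω₁ := by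
  funext e
  unfold ClosedA_mix
  split_ifs <;> rfl

private theorem ClosedA_mem {hd : E → Bool → V} {A C : Finset V} (hCA : C ⊆ A)
    (hC : Closed hd C) (ω₁ ω₂ : E → Bool) :
    ClosedA_mix hd C ω₁ ω₂ ∈ Om hd A ↔ ω₁ ∈ Om hd C ∧ ω₂ ∈ Om hd (A \ C) := by
  rw [mem_Om, mem_Om, mem_Om]
  constructor
  · intro h
    refine ⟨fun v hv => ?_, fun v hv => ?_⟩
    · exact (ClosedA_bal_in hC ω₁ ω₂ hv).1 (h v (hCA hv))
    · rw [mem_sdiff] at hv
      exact (ClosedA_bal_out hC ω₁ ω₂ hv.2).1 (h v hv.1)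
  · rintro ⟨h1, h2⟩ v hv
    by_cases hvC : v ∈ C
    · exact (ClosedA_bal_in hC ω₁ ω₂ hvC).2 (h1 v hvC)
    · exact (ClosedA_bal_out hC ω₁ ω₂ hvC).2 (h2 v (mem_sdiff.2 ⟨hv, hvC⟩))

private theorem ClosedA_card {hd : E → Bool → V} {A C : Finset V} (hCA : C ⊆ A)
    (hC : Closed hd C) :
    (Om hd A).card * 2 ^ Fintype.card E = (Om hd C).card * (Om hd (A \ C)).card := by
  have h2 : (2 : ℕ) ^ Fintype.card E = (univ : Finset (E → Bool)).card := by
    rw [card_univ, Fintype.card_fun, Fintype.card_bool]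
  rw [h2, ← card_product, ← card_product]
  symm
  apply Finset.card_nbij' (fun x => (ClosedA_mix hd C x.1 x.2, ClosedA_mix hd C x.2 x.1))
    (fun x => (ClosedA_mix hd C x.1 x.2, ClosedA_mix hd C x.2 x.1))
  · rintro ⟨ω₁, ω₂⟩ hx
    rw [mem_coe, mem_product] at hx ⊢
    exact ⟨(ClosedA_mem hCA hC ω₁ ω₂).2 hx, mem_univ _⟩
  · rintro ⟨ω₁, ω₂⟩ hx
    rw [mem_coe, mem_product] at hx ⊢
    refine (ClosedA_mem hCA hC _ _).1 ?_
    rw [ClosedA_mix_mix]
    exact hx.1
  · rintro ⟨ω₁, ω₂⟩ _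
    change (ClosedA_mix hd C (ClosedA_mix hd C ω₁ ω₂) (ClosedA_mix hd C ω₂ ω₁),
      ClosedA_mix hd C (ClosedA_mix hd C ω₂ ω₁) (ClosedA_mix hd C ω₁ ω₂)) = (ω₁, ω₂)
    rw [ClosedA_mix_mix, ClosedA_mix_mix]
  · rintro ⟨ω₁, ω₂⟩ _
    change (ClosedA_mix hd C (ClosedA_mix hd C ω₁ ω₂) (ClosedA_mix hd C ω₂ ω₁),
      ClosedA_mix hd C (ClosedA_mix hd C ω₂ ω₁) (ClosedA_mix hd C ω₁ ω₂)) = (ω₁, ω₂)
    rw [ClosedA_mix_mix, ClosedA_mix_mix]

/-- A closed subset splits off. -/
theorem PA_split {hd : E → Bool → V} (hs : Simple hd) {A C : Finset V} (hCA : C ⊆ A)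
    (hC : Closed hd C) : PA hd A = PA hd (A \ C) * PA hd C := by
  have h := ClosedA_card hCA hC
  have h' : ((Om hd A).card : ℝ) * 2 ^ Fintype.card E =
      (Om hd C).card * (Om hd (A \ C)).card := by exact_mod_cast h
  unfold PA
  have h2 : (0 : ℝ) < 2 ^ Fintype.card E := by positivity
  rw [div_mul_div_comm, div_eq_div_iff h2.ne' (by positivity)]
  calc ((Om hd A).card : ℝ) * (2 ^ Fintype.card E * 2 ^ Fintype.card E)
      = ((Om hd A).card : ℝ) * 2 ^ Fintype.card E * 2 ^ Fintype.card E := by ring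
    _ = _ := by rw [h']; ring

private theorem ClosedA_sum_sg {hd : E → Bool → V} (hs : Simple hd) {C : Finset V}
    (hC : Closed hd C) (ω : E → Bool) (e : E) : ∑ v ∈ C, sg hd ω v e = 0 := by
  by_cases hp : hd e true ∈ C
  · have hb := ClosedA_both hC hp
    have hne : hd e (ω e) ≠ hd e (!ω e) := by
      have := hs.1 e
      cases h : ω e
      · exact fun h2 => this h2.symm
      · exact this
    have e1 : ∀ v, sg hd ω v e =
        (if hd e (ω e) = v then (1 : ℤ) else 0) - (if hd e (!ω e) = v then 1 else 0) := by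
      intro v
      unfold sg
      by_cases h1 : hd e (ω e) = v
      · have h2 : hd e (!ω e) ≠ v := fun h3 => hne (h1.trans h3.symm)
        rw [if_pos h1, if_pos h1, if_neg h2]
        norm_num
      · rw [if_neg h1, if_neg h1]
        split_ifs <;> norm_num
    rw [Finset.sum_congr rfl (fun v _ => e1 v), Finset.sum_sub_distrib, Finset.sum_ite_eq,
      Finset.sum_ite_eq, if_pos (hb _), if_pos (hb _)]
    norm_num
  · apply Finset.sum_eq_zero
    intro v hv
    have hn : ∀ b, hd e b ≠ v := by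
      intro b hb
      exact hp (ClosedA_both hC (b := b) (by rw [hb]; exact hv) true)
    unfold sg
    rw [if_neg (hn _), if_neg (hn _)]

/-- the last vertex of a closed set is automatically balanced -/
theorem PA_closed_erase {hd : E → Bool → V} (hs : Simple hd) {C : Finset V} (hC : Closed hd C)
    {w : V} (hw : w ∈ C) : PA hd C = PA hd (C.erase w) := by
  have h : Om hd C = Om hd (C.erase w) := by
    ext ω
    rw [mem_Om, mem_Om]
    constructor
    · intro h v hv
      exact h v (mem_of_mem_erase hv)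
    · intro h v hv
      by_cases hvw : v = w
      · subst hvw
        have h1 : ∑ u ∈ C, ∑ e, sg hd ω u e = 0 := by
          rw [Finset.sum_comm]
          exact Finset.sum_eq_zero (fun e _ => ClosedA_sum_sg hs hC ω e)
        rw [← Finset.add_sum_erase _ _ hw] at h1
        have h2 : ∑ u ∈ C.erase v, ∑ e, sg hd ω u e = 0 :=
          Finset.sum_eq_zero (fun u hu => h u hu)
        rw [h2, add_zero] at h1
        exact h1
      · exact h v (mem_erase.2 ⟨hvw, hv⟩)
  unfold PA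
  rw [h]

end MP_a3e05c_co.KL
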