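import Pool.Agent.Lib.MP_a3e05c_co.KL.Root

/-!
# EULER, key lemma: the free edges at a vertex
-/

open Finset Polynomial

namespace MP_a3e05c_co.KL

variable {V E : Type} [Fintype V] [DecidableEq V] [Fintype E] [DecidableEq E]

theorem deg_eq {hd : E → Bool → V} (hl : NoLoop hd) (A : Finset V) (w : V) :
    deg hd w = (btw hd A w).card + (frees hd A w).card := by
  unfold deg btw frees
  rw [← Finset.card_union_of_disjoint]
  · congr 1
    ext e
    simp only [mem_filter, mem_univ, true_and, mem_union]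
    constructor
    · rintro ⟨b, hb⟩
      by_cases h : hd e (!b) ∈ A
      · exact Or.inl ⟨b, hb, h⟩
      · exact Or.inr ⟨b, hb, h⟩
    · rintro (⟨b, hb, _⟩ | ⟨b, hb, _⟩) <;> exact ⟨b, hb⟩
  · rw [Finset.disjoint_filter]
    rintro e - ⟨b, hb, hA⟩ ⟨b', hb', hA'⟩
    have hne := hl e
    cases b <;> cases b' <;> simp_all

theorem free_ends {hd : E → Bool → V} {A : Finset V} {w : V} (hw : w ∉ A) {e : E}
    (he : e ∈ frees hd A w) : ∀ b, hd e b ∉ A := by
  unfold frees at he
  obtain ⟨b, hb, hA⟩ := (mem_filter.mp he).2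
  intro b'
  cases b <;> cases b' <;> simp_all

theorem free_mem_Om {hd : E → Bool → V} {A : Finset V} {e : E} (he : ∀ b, hd e b ∉ A)
    {ω : E → Bool} (c : Bool) (h : ω ∈ Om hd A) : Function.update ω e c ∈ Om hd A := by
  rw [mem_Om] at h ⊢
  intro v hv
  have h1 := h v hv
  unfold Bal at h1 ⊢
  rw [← h1]
  refine Finset.sum_congr rfl fun e' _ => ?_
  unfold sg
  by_cases h2 : e' = e
  · subst h2
    have h3 : ∀ b, hd e' b ≠ v := fun b hb => he b (hb ▸ hv)
    rw [if_neg (h3 _), if_neg (h3 _), if_neg (h3 _), if_neg (h3 _)]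
  · rw [Function.update_of_ne h2]

/-- averaging over an edge that does not touch `A` -/
theorem sum_free_edge {hd : E → Bool → V} {A : Finset V} {e : E} (he : ∀ b, hd e b ∉ A)
    (Φ : (E → Bool) → ℝ[X]) (hΦ : ∀ ω b, Φ (Function.update ω e b) = Φ ω) (g : Bool → ℝ[X]) :
    ∑ ω ∈ Om hd A, Φ ω * g (ω e) = ∑ ω ∈ Om hd A, Φ ω * (C (1 / 2) * (g true + g false)) := by
  have hflip : ∑ ω ∈ Om hd A, Φ ω * g (ω e) = ∑ ω ∈ Om hd A, Φ ω * g (!ω e) := by
    refine Finset.sum_bij' (fun ω _ => Function.update ω e (!ω e))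
      (fun ω _ => Function.update ω e (!ω e)) ?_ ?_ ?_ ?_ ?_
    · intro ω hω; exact free_mem_Om he _ hω
    · intro ω hω; exact free_mem_Om he _ hω
    · intro ω _
      simp
    · intro ω _
      simp
    · intro ω _
      rw [hΦ, Function.update_self, Bool.not_not]
  have h2 : ∑ ω ∈ Om hd A, Φ ω * g (ω e) + ∑ ω ∈ Om hd A, Φ ω * g (ω e) =
      ∑ ω ∈ Om hd A, Φ ω * (g true + g false) := by
    calc ∑ ω ∈ Om hd A, Φ ω * g (ω e) + ∑ ω ∈ Om hd A, Φ ω * g (ω e)
        = ∑ ω ∈ Om hd A, Φ ω * g (ω e) + ∑ ω ∈ Om hd A, Φ ω * g (!ω e) :=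
          congrArg (fun t => ∑ ω ∈ Om hd A, Φ ω * g (ω e) + t) hflip
      _ = ∑ ω ∈ Om hd A, (Φ ω * g (ω e) + Φ ω * g (!ω e)) := Finset.sum_add_distrib.symm
      _ = _ := by
        refine Finset.sum_congr rfl fun ω _ => ?_
        cases ω e
        · simp only [Bool.not_false]; ring
        · simp only [Bool.not_true]; ring
  have h3 : (C (1 / 2 : ℝ) + C (1 / 2 : ℝ) : ℝ[X]) = 1 := by
    rw [← C_add, ← C_1]; norm_num
  have h4 : ∑ ω ∈ Om hd A, Φ ω * (C (1 / 2) * (g true + g false)) =
      C (1 / 2) * ∑ ω ∈ Om hd A, Φ ω * (g true + g false) := by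
    rw [Finset.mul_sum]
    exact Finset.sum_congr rfl fun ω _ => by ring
  rw [h4, ← h2, mul_add, ← add_mul, h3, one_mul]

theorem free_jw {hd : E → Bool → V} {A : Finset V} {w : V} {e : E} (he : ∀ b, hd e b ∉ A)
    (ω : E → Bool) (c : Bool) : jw hd A w (Function.update ω e c) = jw hd A w ω := by
  unfold jw
  congr 1
  ext e'
  simp only [mem_filter, mem_univ, true_and]
  by_cases h : e' = e
  · subst h
    constructor
    · rintro ⟨_, h2⟩; exact absurd h2 (he _)
    · rintro ⟨_, h2⟩; exact absurd h2 (he _)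
  · rw [Function.update_of_ne h]

theorem free_prod {hd : E → Bool → V} {A : Finset V} {w : V} (g : E → Bool → ℝ[X])
    (T : Finset E) (hT : ∀ e ∈ T, ∀ b, hd e b ∉ A) :
    ∑ ω ∈ Om hd A, (X : ℝ[X]) ^ jw hd A w ω * ∏ e ∈ T, g e (ω e) =
      ff hd A w * ∏ e ∈ T, (C (1 / 2) * (g e true + g e false)) := by
  induction T using Finset.induction_on with
  | empty =>
    simp only [Finset.prod_empty, mul_one]
    rfl
  | insert e T heT ih =>
    have ih' := ih fun e' he' => hT e' (Finset.mem_insert_of_mem he')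
    have he := hT e (Finset.mem_insert_self e T)
    have h1 : ∀ ω : E → Bool, (X : ℝ[X]) ^ jw hd A w ω * ∏ e' ∈ insert e T, g e' (ω e') =
        ((X : ℝ[X]) ^ jw hd A w ω * ∏ e' ∈ T, g e' (ω e')) * g e (ω e) := by
      intro ω
      rw [Finset.prod_insert heT]
      ring
    rw [Finset.sum_congr rfl fun ω _ => h1 ω]
    rw [sum_free_edge he (fun ω => (X : ℝ[X]) ^ jw hd A w ω * ∏ e' ∈ T, g e' (ω e')) ?_ (g e)]
    · rw [← Finset.sum_mul, ih', Finset.prod_insert heT]
      ring
    · intro ω b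
      show (X : ℝ[X]) ^ jw hd A w (Function.update ω e b) *
          ∏ e' ∈ T, g e' (Function.update ω e b e') = _
      rw [free_jw he]
      congr 1
      refine Finset.prod_congr rfl fun e' he' => ?_
      rw [Function.update_of_ne]
      rintro rfl
      exact heT he'

theorem free_indeg {hd : E → Bool → V} (hl : NoLoop hd) {A : Finset V} {w : V} (hw : w ∉ A)
    (ω : E → Bool) :
    indeg hd ω w = jw hd A w ω + ((frees hd A w).filter fun e => hd e (ω e) = w).card := by
  unfold indeg jw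
  rw [← Finset.card_union_of_disjoint]
  · congr 1
    ext e
    simp only [mem_filter, mem_univ, true_and, mem_union, frees]
    constructor
    · intro h
      by_cases h2 : hd e (!ω e) ∈ A
      · exact Or.inl ⟨h, h2⟩
      · exact Or.inr ⟨⟨ω e, h, h2⟩, h⟩
    · rintro (⟨h, _⟩ | ⟨_, h⟩) <;> exact h
  · rw [Finset.disjoint_left]
    intro e h1 h2
    have h3 := (mem_filter.mp h1).2.2
    have h4 := free_ends hw (mem_filter.mp h2).1
    exact h4 _ h3

theorem free_pow {hd : E → Bool → V} (hl : NoLoop hd) {A : Finset V} {w : V} (hw : w ∉ A)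
    (ω : E → Bool) :
    (X : ℝ[X]) ^ indeg hd ω w =
      X ^ jw hd A w ω * ∏ e ∈ frees hd A w, (if hd e (ω e) = w then X else 1) := by
  rw [free_indeg hl hw, pow_add, Finset.prod_ite, Finset.prod_const, Finset.prod_const_one, mul_one]

theorem free_one {hd : E → Bool → V} (hl : NoLoop hd) {A : Finset V} {w : V} {e : E}
    (he : e ∈ frees hd A w) :
    ((if hd e true = w then X else 1) + (if hd e false = w then X else 1) : ℝ[X]) = 1 + X := by
  unfold frees at he
  obtain ⟨b, hb, hA⟩ := (mem_filter.mp he).2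
  have hne := hl e
  cases b
  · rw [if_pos hb, if_neg (fun h => hne (h.trans hb.symm))]
  · rw [if_pos hb, if_neg (fun h => hne (hb.trans h.symm)), add_comm]

theorem sum_indeg {hd : E → Bool → V} (hl : NoLoop hd) {A : Finset V} {w : V} (hw : w ∉ A) :
    ∑ ω ∈ Om hd A, (X : ℝ[X]) ^ indeg hd ω w =
      ff hd A w * (C (1 / 2) * (1 + X)) ^ (frees hd A w).card := by
  rw [Finset.sum_congr rfl fun ω _ => free_pow hl hw ω]
  rw [free_prod (w := w) (fun e b => if hd e b = w then X else 1) (frees hd A w)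
    (fun e he => free_ends hw he)]
  congr 1
  rw [Finset.prod_congr rfl (fun e he => by rw [free_one hl he]), Finset.prod_const]

theorem free_sg {hd : E → Bool → V} {A : Finset V} {w : V} {e : E}
    (he : e ∈ frees hd A w) (ω : E → Bool) :
    C ((sg hd ω w e : ℤ) : ℝ) * (if hd e (ω e) = w then X else 1) =
      if hd e (ω e) = w then X else (-1 : ℝ[X]) := by
  unfold frees at he
  obtain ⟨b, hb, hA⟩ := (mem_filter.mp he).2
  unfold sg
  by_cases h : hd e (ω e) = w
  · rw [if_pos h, if_pos h, if_pos h]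
    simp
  · have h2 : hd e (!ω e) = w := by
      have h3 : b ≠ ω e := by
        rintro rfl
        exact h hb
      have h4 : b = !ω e := by
        revert h3
        cases b <;> cases ω e <;> simp
      rw [← h4]
      exact hb
    rw [if_neg h, if_pos h2, if_neg h, if_neg h]
    simp

theorem free_sgn {hd : E → Bool → V} (hl : NoLoop hd) {A : Finset V} {w : V} {e : E}
    (he : e ∈ frees hd A w) :
    ((if hd e true = w then X else -1) + (if hd e false = w then X else -1) : ℝ[X]) = X - 1 := by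
  unfold frees at he
  obtain ⟨b, hb, hA⟩ := (mem_filter.mp he).2
  have hne := hl e
  cases b
  · rw [if_pos hb, if_neg (fun h => hne (h.trans hb.symm))]
    ring
  · rw [if_pos hb, if_neg (fun h => hne (hb.trans h.symm))]
    ring

theorem sum_indeg_two {hd : E → Bool → V} (hl : NoLoop hd) {A : Finset V} {w : V} (hw : w ∉ A)
    {e e' : E} (he : e ∈ frees hd A w) (he' : e' ∈ frees hd A w) (hne : e ≠ e') :
    ∑ ω ∈ Om hd A, C (((sg hd ω w e * sg hd ω w e' : ℤ)) : ℝ) * X ^ indeg hd ω w =
      ff hd A w * (C (1 / 2) * (X - 1)) ^ 2 *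
        (C (1 / 2) * (1 + X)) ^ ((frees hd A w).card - 2) := by
  set F := frees hd A w with hF
  have heF' : e' ∈ F.erase e := Finset.mem_erase.mpr ⟨hne.symm, he'⟩
  have hsplit : ∀ f : E → ℝ[X], ∏ x ∈ F, f x = f e * (f e' * ∏ x ∈ (F.erase e).erase e', f x) := by
    intro f
    rw [← Finset.mul_prod_erase F f he, ← Finset.mul_prod_erase (F.erase e) f heF']
  let g : E → Bool → ℝ[X] := fun x b =>
    if x = e ∨ x = e' then (if hd x b = w then X else -1) else (if hd x b = w then X else 1)
  have hmem : ∀ x ∈ (F.erase e).erase e', ¬ (x = e ∨ x = e') := by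
    intro x hx h
    rw [Finset.mem_erase, Finset.mem_erase] at hx
    rcases h with h | h
    · exact hx.2.1 h
    · exact hx.1 h
  have h1 : ∀ ω : E → Bool, C (((sg hd ω w e * sg hd ω w e' : ℤ)) : ℝ) * X ^ indeg hd ω w =
      (X : ℝ[X]) ^ jw hd A w ω * ∏ x ∈ F, g x (ω x) := by
    intro ω
    rw [free_pow hl hw, hsplit, hsplit]
    have h2 : ∏ x ∈ (F.erase e).erase e', g x (ω x) =
        ∏ x ∈ (F.erase e).erase e', (if hd x (ω x) = w then X else 1) := by
      refine Finset.prod_congr rfl fun x hx => ?_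
      simp only [g, if_neg (hmem x hx)]
    have h3 : g e (ω e) = if hd e (ω e) = w then X else (-1 : ℝ[X]) := by
      simp only [g, true_or, if_true]
    have h4 : g e' (ω e') = if hd e' (ω e') = w then X else (-1 : ℝ[X]) := by
      simp only [g, or_true, if_true]
    rw [h2, h3, h4, ← free_sg he ω, ← free_sg he' ω]
    push_cast
    rw [C_mul]
    ring
  rw [Finset.sum_congr rfl fun ω _ => h1 ω]
  rw [free_prod (w := w) g F (fun e he => free_ends hw he), mul_assoc]
  congr 1
  rw [hsplit]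
  have h2 : ∏ x ∈ (F.erase e).erase e', (C (1 / 2) * (g x true + g x false)) =
      (C (1 / 2) * (1 + X)) ^ (F.card - 2) := by
    have h5 : ∀ x ∈ (F.erase e).erase e', (C (1 / 2) * (g x true + g x false) : ℝ[X]) =
        C (1 / 2) * (1 + X) := by
      intro x hx
      have hxF : x ∈ F := Finset.mem_of_mem_erase (Finset.mem_of_mem_erase hx)
      have h6 := free_one hl hxF
      simp only [g, if_neg (hmem x hx)]
      rw [h6]
    rw [Finset.prod_congr rfl h5, Finset.prod_const, Finset.card_erase_of_mem heF',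
      Finset.card_erase_of_mem he]
    rfl
  have h3 : (g e true + g e false : ℝ[X]) = X - 1 := by
    simp only [g, true_or, if_true]
    exact free_sgn hl he
  have h4 : (g e' true + g e' false : ℝ[X]) = X - 1 := by
    simp only [g, or_true, if_true]
    exact free_sgn hl he'
  rw [h2, h3, h4]
  ring

/-- passing from `A` to `A ∪ {w}` is the extraction of a coefficient -/
theorem sum_insert {hd : E → Bool → V} (hl : NoLoop hd) {A : Finset V} {w : V}
    (hev : Even (deg hd w)) (φ : (E → Bool) → ℝ) :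
    ∑ ω ∈ Om hd (insert w A), φ ω =
      (∑ ω ∈ Om hd A, C (φ ω) * X ^ indeg hd ω w).coeff (deg hd w / 2) := by
  have h1 : Om hd (insert w A) = (Om hd A).filter fun ω => Bal hd ω w := by
    ext ω
    rw [mem_filter, mem_Om, mem_Om]
    constructor
    · intro h
      exact ⟨fun v hv => h v (Finset.mem_insert_of_mem hv), h w (Finset.mem_insert_self w A)⟩
    · rintro ⟨h, h2⟩ v hv
      rcases Finset.mem_insert.mp hv with rfl | hv
      · exact h2
      · exact h v hv
  rw [h1, Finset.sum_filter, Polynomial.finsetSum_coeff]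
  refine Finset.sum_congr rfl fun ω _ => ?_
  rw [Polynomial.coeff_C_mul, Polynomial.coeff_X_pow]
  have h2 : Bal hd ω w ↔ deg hd w / 2 = indeg hd ω w := by
    rw [bal_iff hl]
    obtain ⟨m, hm⟩ := hev
    omega
  by_cases h3 : Bal hd ω w
  · rw [if_pos h3, if_pos (h2.mp h3), mul_one]
  · rw [if_neg h3, if_neg (fun h => h3 (h2.mpr h)), mul_zero]

end MP_a3e05c_co.KL
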