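import Pool.Agent.Lib.MP_a3e05c_co.KL.PDefs

/-!
# EULER, regular graphs: the scalar conditions on the potential
-/

open Finset

namespace MP_a3e05c_co.KL

/-- The scalar conditions used in the proof for `d`-regular graphs: `φ k` is the potential of a
vertex with `k` alive neighbours. -/
structure Pot (d : ℕ) (φ : ℕ → ℝ) : Prop where
  sharp : φ d = AA d
  /-- deletion of a non-full vertex with `k` alive neighbours of types `j i ≤ k` or full -/
  step : ∀ k < d, ∀ j : Fin k → ℕ, (∀ i, 1 ≤ j i ∧ (j i ≤ k ∨ j i = d)) →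
    FM k (d - k) ((k : ℝ) - ∑ i, rh d (j i)) ≤
      Real.exp (φ k + ∑ i, (φ (j i) - φ (j i - 1)))
  /-- first two deletions in a closed component: `w`, then a neighbour `w₂` of `w` with `m ≥ 2`
  neighbours outside `N[w]` -/
  second : ∀ m, 2 ≤ m → m + 1 ≤ d →
    FM (d - 1) 1 (((d : ℝ) - 1) - (((d : ℝ) - 1 - m) * rh d (d - 1) + m)) ≤
      Real.exp (2 * φ d + ((d : ℝ) - 1 - m) * (φ d - φ (d - 2)) + 2 * m * (φ d - φ (d - 1)))

/-- the bound for the one exceptional graph `K_(d+2)` minus a perfect matching -/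
def Cocktail (d : ℕ) : Prop :=
  ∀ (V E : Type) [Fintype V] [DecidableEq V] [Fintype E] [DecidableEq E] (hd : E → Bool → V),
    Simple hd → (∀ v, deg hd v = d) → Fintype.card V = d + 2 →
    PA hd univ ≤ Real.exp (((d : ℝ) + 2) * AA d)

end MP_a3e05c_co.KL
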