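import Pool.Agent.Lib.MP_a3e05c_co.KL.AmGm
import Pool.Agent.Lib.MP_a3e05c_co.KL.PDefs

/-!
# EULER: the explicit upper bound for `FF`

`FF k (d - k) (k - y) ≤ bb (d / 2) * (1 - y / (d - 1)) ^ (-1/2)` for even `d` and `k < d`.
-/

open Finset

namespace MP_a3e05c_co.KL

theorem bb_pos (n : ℕ) : 0 < bb n := by
  unfold bb
  have := Nat.centralBinom_pos n
  positivity

theorem bb_succ (n : ℕ) : bb (n + 1) * (2 * n + 2) = bb n * (2 * n + 1) := by
  unfold bb
  have h := Nat.succ_mul_centralBinom_succ n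
  have h' : ((n : ℝ) + 1) * (Nat.centralBinom (n + 1) : ℝ) =
      2 * (2 * n + 1) * Nat.centralBinom n := by exact_mod_cast h
  rw [pow_succ]
  field_simp
  linarith

/-- `(1/π) ∫_0^π cos^(2 i) sin^(2 m)` -/
noncomputable def FFG_J (i m : ℕ) : ℝ :=
  (1 / Real.pi) * ∫ x in (0 : ℝ)..Real.pi, Real.cos x ^ (2 * i) * Real.sin x ^ (2 * m)

theorem FFG_J_cont (i m : ℕ) :
    Continuous fun x : ℝ => Real.cos x ^ (2 * i) * Real.sin x ^ (2 * m) :=
  (Real.continuous_cos.pow _).mul (Real.continuous_sin.pow _)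

theorem FFG_J_succ (i m : ℕ) : FFG_J (i + 1) m = FFG_J i m - FFG_J i (m + 1) := by
  unfold FFG_J
  rw [← mul_sub, ← intervalIntegral.integral_sub ((FFG_J_cont i m).intervalIntegrable _ _)
    ((FFG_J_cont i (m + 1)).intervalIntegrable _ _)]
  congr 1
  apply intervalIntegral.integral_congr
  intro x _
  have h : Real.cos x ^ 2 = 1 - Real.sin x ^ 2 := Real.cos_sq' x
  have h1 : Real.cos x ^ (2 * (i + 1)) = Real.cos x ^ (2 * i) * Real.cos x ^ 2 := by ring
  have h2 : Real.sin x ^ (2 * (m + 1)) = Real.sin x ^ (2 * m) * Real.sin x ^ 2 := by ring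
  simp only [h1, h2, h]
  ring

theorem FFG_J_eq (i : ℕ) : ∀ m : ℕ, FFG_J i m * ((i + m).choose i : ℝ) = bb i * bb m := by
  induction i with
  | zero =>
    intro m
    have h := bb_eq_integral m
    unfold FFG_J
    simp only [mul_zero, pow_zero, one_mul, zero_add, Nat.choose_zero_right, Nat.cast_one, mul_one]
    rw [← h]
    simp [bb]
  | succ i ih =>
    intro m
    have h1 := ih m
    have h2 := ih (m + 1)
    have c1 : ((i + (m + 1)).choose i : ℝ) * (m + 1) = ((i + m).choose i : ℝ) * (i + m + 1) := by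
      have h3 := Nat.add_one_mul_choose_eq (i + m) m
      have h4 : (i + (m + 1)).choose i = (i + m + 1).choose (m + 1) := by
        exact Nat.choose_symm_of_eq_add (n := i + (m + 1)) (a := i) (b := m + 1) rfl
      have h5 : (i + m).choose i = (i + m).choose m := Nat.choose_symm_add
      rw [h4, h5]
      have h6 : ((i : ℝ) + m + 1) * ((i + m).choose m : ℝ) =
        ((i + m + 1).choose (m + 1) : ℝ) * ((m : ℝ) + 1) := by exact_mod_cast h3
      linarith
    have c2 : ((i + 1 + m).choose (i + 1) : ℝ) * (i + 1) = ((i + m).choose i : ℝ) * (i + m + 1) := by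
      have h3 := Nat.add_one_mul_choose_eq (i + m) i
      have h6 : ((i : ℝ) + m + 1) * ((i + m).choose i : ℝ) =
        ((i + m + 1).choose (i + 1) : ℝ) * ((i : ℝ) + 1) := by exact_mod_cast h3
      have h7 : i + 1 + m = i + m + 1 := by omega
      rw [h7]
      linarith
    have hpos : (0 : ℝ) < ((i + m).choose i : ℝ) := by
      exact_mod_cast Nat.choose_pos (by omega)
    have hpos1 : (0 : ℝ) < ((i + (m + 1)).choose i : ℝ) := by
      exact_mod_cast Nat.choose_pos (by omega)
    have hb1 := bb_succ m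
    have hb2 := bb_succ i
    rw [FFG_J_succ]
    have hm1 : (0 : ℝ) < (m : ℝ) + 1 := by positivity
    have hi1 : (0 : ℝ) < (i : ℝ) + 1 := by positivity
    have e1 : FFG_J i m = bb i * bb m / ((i + m).choose i : ℝ) := by
      rw [eq_div_iff hpos.ne', h1]
    have e2 : FFG_J i (m + 1) = bb i * bb (m + 1) / ((i + (m + 1)).choose i : ℝ) := by
      rw [eq_div_iff hpos1.ne', h2]
    have e3 : ((i + (m + 1)).choose i : ℝ) = ((i + m).choose i : ℝ) * (i + m + 1) / (m + 1) := by
      rw [eq_div_iff hm1.ne', c1]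
    have e4 : ((i + 1 + m).choose (i + 1) : ℝ) = ((i + m).choose i : ℝ) * (i + m + 1) / (i + 1) := by
      rw [eq_div_iff hi1.ne', c2]
    have e5 : bb (m + 1) = bb m * (2 * m + 1) / (2 * m + 2) := by
      rw [eq_div_iff (by positivity), hb1]
    have e6 : bb (i + 1) = bb i * (2 * i + 1) / (2 * i + 2) := by
      rw [eq_div_iff (by positivity), hb2]
    rw [e1, e2, e3, e4, e5, e6]
    field_simp
    ring

theorem FFG_bn (K n₀ : ℕ) (p : ℝ) : BN K (1 - p) n₀ =
    ∑ i ∈ range (K + 1), (K.choose i : ℝ) * p ^ i * FFG_J i (n₀ + (K - i)) := by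
  rw [bn_eq_integral]
  have h1 : ∀ x : ℝ, Real.sin x ^ (2 * n₀) * (1 - (1 - p) * Real.cos x ^ 2) ^ K =
      ∑ i ∈ range (K + 1), ((K.choose i : ℝ) * p ^ i) *
        (Real.cos x ^ (2 * i) * Real.sin x ^ (2 * (n₀ + (K - i)))) := by
    intro x
    have h2 : 1 - (1 - p) * Real.cos x ^ 2 = p * Real.cos x ^ 2 + Real.sin x ^ 2 := by
      rw [Real.sin_sq]
      ring
    rw [h2, add_pow, Finset.mul_sum]
    refine Finset.sum_congr rfl fun i _ => ?_
    rw [mul_pow, ← pow_mul, ← pow_mul]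
    ring
  rw [intervalIntegral.integral_congr fun x _ => h1 x, intervalIntegral.integral_finsetSum]
  · rw [Finset.mul_sum]
    refine Finset.sum_congr rfl fun i _ => ?_
    rw [intervalIntegral.integral_const_mul]
    unfold FFG_J
    ring
  · intro i _
    exact ((FFG_J_cont i _).const_mul _).intervalIntegrable _ _

/-- comparison of the coefficients -/
theorem FFG_term (K N : ℕ) (h : K < N) (i : ℕ) (hi : i ≤ K) :
    (K.choose i : ℝ) * bb (N - i) * (2 * (N : ℝ) - 1) ^ i ≤
      bb N * (N.choose i : ℝ) * (2 * (K : ℝ)) ^ i := by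
  induction i with
  | zero => simp
  | succ i ih =>
    have ih' := ih (by omega)
    have hiK : (i : ℝ) + 1 ≤ K := by exact_mod_cast hi
    have hKN : (K : ℝ) + 1 ≤ N := by exact_mod_cast h
    have hi0 : (0 : ℝ) ≤ i := Nat.cast_nonneg i
    have c1 : (K.choose (i + 1) : ℝ) = (K.choose i : ℝ) * (K - i) / (i + 1) := by
      rw [eq_div_iff (by positivity)]
      have h1 := Nat.choose_succ_right_eq K i
      have h2 : ((K.choose (i + 1) : ℕ) : ℝ) * ((i : ℝ) + 1) = (K.choose i : ℝ) * ((K - i : ℕ) : ℝ) := by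
        exact_mod_cast h1
      rw [Nat.cast_sub (by omega)] at h2
      exact h2
    have c2 : (N.choose (i + 1) : ℝ) = (N.choose i : ℝ) * (N - i) / (i + 1) := by
      rw [eq_div_iff (by positivity)]
      have h1 := Nat.choose_succ_right_eq N i
      have h2 : ((N.choose (i + 1) : ℕ) : ℝ) * ((i : ℝ) + 1) = (N.choose i : ℝ) * ((N - i : ℕ) : ℝ) := by
        exact_mod_cast h1
      rw [Nat.cast_sub (by omega)] at h2
      exact h2
    have c3 : bb (N - (i + 1)) = bb (N - i) * (2 * (N - i)) / (2 * (N - i) - 1) := by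
      have h1 := bb_succ (N - (i + 1))
      have h2 : N - (i + 1) + 1 = N - i := by omega
      rw [h2, Nat.cast_sub (by omega)] at h1
      push_cast at h1
      rw [eq_div_iff (by linarith)]
      linarith
    have hd0 : (0 : ℝ) < 2 * (N - i) - 1 := by linarith
    have hKi : (0 : ℝ) ≤ (K : ℝ) - i := by linarith
    have hNi : (0 : ℝ) < (N : ℝ) - i := by linarith
    have hr : ((K : ℝ) - i) * (2 * N - 1) ≤ K * (2 * (N - i) - 1) := by nlinarith
    have hr' : ((K : ℝ) - i) * (2 * N - 1) / (2 * (N - i) - 1) ≤ K := by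
      rw [div_le_iff₀ hd0]
      exact hr
    rw [c1, c2, c3]
    have e1 : (K.choose i : ℝ) * (K - i) / (i + 1) * (bb (N - i) * (2 * (N - i)) /
        (2 * (N - i) - 1)) * (2 * (N : ℝ) - 1) ^ (i + 1) =
        ((K.choose i : ℝ) * bb (N - i) * (2 * (N : ℝ) - 1) ^ i) *
          (((K : ℝ) - i) * (2 * N - 1) / (2 * (N - i) - 1)) * (2 * (N - i) / (i + 1)) := by
      field_simp
      ring
    have e2 : bb N * ((N.choose i : ℝ) * (N - i) / (i + 1)) * (2 * (K : ℝ)) ^ (i + 1) =
        (bb N * (N.choose i : ℝ) * (2 * (K : ℝ)) ^ i) * K * (2 * (N - i) / (i + 1)) := by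
      field_simp
      ring
    rw [e1, e2]
    apply mul_le_mul_of_nonneg_right _ (by positivity)
    apply mul_le_mul ih' hr'
    · apply div_nonneg _ hd0.le
      apply mul_nonneg hKi
      linarith
    · have := bb_pos N
      positivity

/-- the partial sums of the series of `(1 - x) ^ (-1/2)` -/
theorem FFG_series (K : ℕ) (x : ℝ) (h0 : 0 ≤ x) (h1 : x < 1) :
    (∑ i ∈ range (K + 1), bb i * x ^ i) ^ 2 * (1 - x) ≤ 1 := by
  set f : ℝ → ℝ := fun x => ∑ i ∈ range (K + 1), bb i * x ^ i with hf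
  set f' : ℝ → ℝ := fun x => ∑ i ∈ range K, bb (i + 1) * ((i : ℝ) + 1) * x ^ i with hf'
  have hder : ∀ x, HasDerivAt f (f' x) x := by
    intro x
    have h : HasDerivAt f (∑ i ∈ range (K + 1), bb i * (i * x ^ (i - 1))) x := by
      rw [hf]
      apply HasDerivAt.fun_sum
      intro i _
      exact (hasDerivAt_pow i x).const_mul (bb i)
    have h2 : ∑ i ∈ range (K + 1), bb i * (i * x ^ (i - 1)) = f' x := by
      rw [sum_range_succ', hf']
      simp only [Nat.cast_zero, zero_mul, mul_zero, add_zero]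
      apply sum_congr rfl
      intro i _
      push_cast
      ring
    rwa [h2] at h
  have hf0 : ∀ x, 0 ≤ x → 0 ≤ f x := by
    intro x hx
    rw [hf]
    apply sum_nonneg
    intro i _
    have := bb_pos i
    positivity
  -- the differential inequality
  have hode : ∀ x, 0 ≤ x → 2 * (1 - x) * f' x ≤ f x := by
    intro x hx
    have e1 : 2 * f' x = ∑ i ∈ range K, bb i * (2 * i + 1) * x ^ i := by
      rw [hf', mul_sum]
      apply sum_congr rfl
      intro i _
      have := bb_succ i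
      calc 2 * (bb (i + 1) * ((i : ℝ) + 1) * x ^ i) = (bb (i + 1) * (2 * i + 2)) * x ^ i := by ring
        _ = _ := by rw [this]
    have e2 : x * f' x = ∑ i ∈ range (K + 1), bb i * i * x ^ i := by
      rw [sum_range_succ', hf', mul_sum]
      simp only [Nat.cast_zero, mul_zero, zero_mul, add_zero]
      apply sum_congr rfl
      intro i _
      push_cast
      ring
    have e3 : ∑ i ∈ range (K + 1), bb i * i * x ^ i =
        ∑ i ∈ range K, bb i * i * x ^ i + bb K * K * x ^ K := sum_range_succ _ _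
    have e4 : f x = ∑ i ∈ range K, bb i * x ^ i + bb K * x ^ K := by
      rw [hf]
      exact sum_range_succ _ _
    have e5 : ∑ i ∈ range K, bb i * (2 * i + 1) * x ^ i =
        2 * ∑ i ∈ range K, bb i * i * x ^ i + ∑ i ∈ range K, bb i * x ^ i := by
      rw [mul_sum, ← sum_add_distrib]
      apply sum_congr rfl
      intro i _
      ring
    have h2 : 0 ≤ bb K * K * x ^ K := by
      have := bb_pos K
      positivity
    have h3 : 0 ≤ bb K * x ^ K := by
      have := bb_pos K
      positivity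
    have e6 : 2 * (1 - x) * f' x = 2 * f' x - 2 * (x * f' x) := by ring
    rw [e6, e1, e2, e3, e4, e5]
    linarith
  set g : ℝ → ℝ := fun x => f x ^ 2 * (1 - x) with hg
  have hgd : ∀ x, HasDerivAt g (2 * f x * f' x * (1 - x) - f x ^ 2) x := by
    intro x
    have h2 := ((hder x).pow 2).mul ((hasDerivAt_const x (1 : ℝ)).sub (hasDerivAt_id x))
    have h3 : HasDerivAt g ((2 : ℕ) * f x ^ (2 - 1) * f' x * (1 - x) + f x ^ 2 * (0 - 1)) x := by
      exact h2
    have h4 : (2 : ℕ) * f x ^ (2 - 1) * f' x * (1 - x) + f x ^ 2 * (0 - 1) =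
        2 * f x * f' x * (1 - x) - f x ^ 2 := by
      push_cast
      ring
    rwa [h4] at h3
  have hanti : AntitoneOn g (Set.Icc 0 x) := by
    apply antitoneOn_of_deriv_nonpos (convex_Icc 0 x)
    · exact fun y _ => (hgd y).continuousAt.continuousWithinAt
    · exact fun y _ => (hgd y).differentiableAt.differentiableWithinAt
    · intro y hy
      rw [interior_Icc] at hy
      rw [(hgd y).deriv]
      have h2 := hode y hy.1.le
      have h3 := hf0 y hy.1.le
      nlinarith
  have h2 := hanti (Set.left_mem_Icc.2 h0) (Set.right_mem_Icc.2 h0) h0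
  have h3 : g 0 = 1 := by
    have h4 : f 0 = 1 := by
      have h5 : f 0 = ∑ i ∈ range (K + 1), bb i * (0 : ℝ) ^ i := rfl
      rw [h5, sum_range_succ']
      simp [bb]
    rw [hg]
    simp [h4]
  rw [h3] at h2
  exact h2

/-- **The explicit bound.** -/
theorem FF_le_G {d k : ℕ} (hd : Even d) (hk : k < d) {y : ℝ} (hy : 0 ≤ y) (hyd : y < (d : ℝ) - 1) :
    FF k (d - k) (k - y) ≤ bb (d / 2) * (1 / Real.sqrt (1 - y / ((d : ℝ) - 1))) := by
  obtain ⟨N, hN⟩ := hd
  have hdN : d / 2 = N := by omega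
  set K := k / 2 with hK
  have hKN : K < N := by omega
  have hkK : (k : ℝ) - ((k % 2 : ℕ) : ℝ) = 2 * (K : ℝ) := by
    have h1 : k % 2 + 2 * (k / 2) = k := Nat.mod_add_div k 2
    have h2 : (k : ℝ) = ((k % 2 : ℕ) : ℝ) + 2 * ((k / 2 : ℕ) : ℝ) := by
      exact_mod_cast h1.symm
    rw [h2]
    ring
  have hn₀ : (d - k + k % 2) / 2 = N - K := by omega
  have hd1 : (d : ℝ) = 2 * N := by
    rw [hN]
    push_cast
    ring
  have hNpos : (1 : ℝ) ≤ N := by
    have : 1 ≤ N := by omega
    exact_mod_cast this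
  set x : ℝ := y / ((d : ℝ) - 1) with hx
  have hd0 : (0 : ℝ) < (d : ℝ) - 1 := by linarith
  have hx0 : 0 ≤ x := by
    rw [hx]
    exact div_nonneg hy hd0.le
  have hx1 : x < 1 := by
    rw [hx, div_lt_one hd0]
    exact hyd
  have hser := FFG_series K x hx0 hx1
  have hS0 : 0 ≤ ∑ i ∈ range (K + 1), bb i * x ^ i := by
    apply sum_nonneg
    intro i _
    have := bb_pos i
    positivity
  have hS : ∑ i ∈ range (K + 1), bb i * x ^ i ≤ 1 / Real.sqrt (1 - x) := by
    have h1 : 0 < 1 - x := by linarith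
    have h2 : 0 < Real.sqrt (1 - x) := Real.sqrt_pos.2 h1
    rw [le_div_iff₀ h2]
    have h3 : (∑ i ∈ range (K + 1), bb i * x ^ i) * Real.sqrt (1 - x) ≤ Real.sqrt 1 := by
      apply Real.le_sqrt_of_sq_le
      rw [mul_pow, Real.sq_sqrt h1.le]
      exact hser
    rwa [Real.sqrt_one] at h3
  rw [hdN]
  refine le_trans ?_ (mul_le_mul_of_nonneg_left hS (bb_pos N).le)
  unfold FF
  rw [← hK, hn₀]
  rcases Nat.eq_zero_or_pos K with h0 | h0
  · rw [h0]
    unfold BN
    simp [bb]
  have hK0 : (0 : ℝ) < K := by exact_mod_cast h0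
  have e1 : ((k : ℝ) - y - ((k % 2 : ℕ) : ℝ)) / (2 * (K : ℝ)) = 1 - y / (2 * K) := by
    have : (k : ℝ) - y - ((k % 2 : ℕ) : ℝ) = 2 * K - y := by linarith
    rw [this]
    field_simp
  rw [e1, FFG_bn, mul_sum]
  apply sum_le_sum
  intro i hi
  rw [mem_range] at hi
  have hiK : i ≤ K := by omega
  have e2 : N - K + (K - i) = N - i := by omega
  rw [e2]
  have h1 := FFG_J_eq i (N - i)
  have e3 : i + (N - i) = N := by omega
  rw [e3] at h1
  have hc : (0 : ℝ) < (N.choose i : ℝ) := by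
    exact_mod_cast Nat.choose_pos (by omega)
  have e4 : FFG_J i (N - i) = bb i * bb (N - i) / (N.choose i : ℝ) := by
    rw [eq_div_iff hc.ne', h1]
  have h2 := FFG_term K N hKN i hiK
  have hi0 := bb_pos i
  have e5 : x = y / (2 * (N : ℝ) - 1) := by rw [hx, hd1]
  have hN1 : (0 : ℝ) < 2 * (N : ℝ) - 1 := by linarith
  rw [e4, e5, div_pow, div_pow]
  have h3 : (K.choose i : ℝ) * bb (N - i) / ((2 * (K : ℝ)) ^ i * (N.choose i : ℝ)) ≤
      bb N / (2 * (N : ℝ) - 1) ^ i := by
    rw [div_le_div_iff₀ (by positivity) (by positivity)]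
    calc (K.choose i : ℝ) * bb (N - i) * (2 * (N : ℝ) - 1) ^ i ≤
        bb N * (N.choose i : ℝ) * (2 * (K : ℝ)) ^ i := h2
      _ = _ := by ring
  have h4 : 0 ≤ bb i * y ^ i := by positivity
  calc (K.choose i : ℝ) * (y ^ i / (2 * (K : ℝ)) ^ i) * (bb i * bb (N - i) / (N.choose i : ℝ)) =
      (K.choose i : ℝ) * bb (N - i) / ((2 * (K : ℝ)) ^ i * (N.choose i : ℝ)) * (bb i * y ^ i) := by
        field_simp
    _ ≤ bb N / (2 * (N : ℝ) - 1) ^ i * (bb i * y ^ i) := mul_le_mul_of_nonneg_right h3 h4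
    _ = _ := by ring

theorem sqrt_G_mono {c y y' : ℝ} (hc : 0 < c) (h : y' ≤ y) (hy : y < c) :
    1 / Real.sqrt (1 - y' / c) ≤ 1 / Real.sqrt (1 - y / c) := by
  apply one_div_le_one_div_of_le
  · apply Real.sqrt_pos.2
    have : y / c < 1 := (div_lt_one hc).2 hy
    linarith
  · apply Real.sqrt_le_sqrt
    have := div_le_div_of_nonneg_right h hc.le
    linarith

/-- **The explicit bound for `FM`.** -/
theorem FM_le_G {d k : ℕ} (hd : Even d) (hk : k < d) {y : ℝ} (hy : 0 ≤ y) (hyd : y < (d : ℝ) - 1) :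
    FM k (d - k) (k - y) ≤ bb (d / 2) * (1 / Real.sqrt (1 - y / ((d : ℝ) - 1))) := by
  have hk2 : ((k % 2 : ℕ) : ℝ) ≤ k := by exact_mod_cast Nat.mod_le k 2
  have hd2 : (2 : ℝ) ≤ d := by
    obtain ⟨N, hN⟩ := hd
    have : 2 ≤ d := by omega
    exact_mod_cast this
  unfold FM
  have h1 : max ((k : ℝ) - y) ((k % 2 : ℕ) : ℝ) = k - min y (k - ((k % 2 : ℕ) : ℝ)) := by
    rcases le_total ((k : ℝ) - y) ((k % 2 : ℕ) : ℝ) with h | h
    · rw [max_eq_right h, min_eq_right (by linarith)]
      ring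
    · rw [max_eq_left h, min_eq_left (by linarith)]
  rw [h1]
  have h2 : min y ((k : ℝ) - ((k % 2 : ℕ) : ℝ)) ≤ y := min_le_left _ _
  have h3 : 0 ≤ min y ((k : ℝ) - ((k % 2 : ℕ) : ℝ)) := le_min hy (by linarith)
  refine (FF_le_G hd hk h3 (by linarith)).trans ?_
  apply mul_le_mul_of_nonneg_left _ (bb_pos _).le
  exact sqrt_G_mono (by linarith) h2 hyd

end MP_a3e05c_co.KL
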