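import Pool.Agent.Lib.MP_a3e05c_co.KL.QSa

/-!
# EULER, key lemma: homogeneous stable polynomials are quantitatively stable
-/

open MvPolynomial

namespace MP_a3e05c_co.KL

variable {σ : Type} [Fintype σ] [DecidableEq σ]

/-- the monomial `∏ (x_j + y_j s)^(d_j)` as a polynomial in `s` -/
noncomputable def QSc_m (x y : σ → ℂ) (d : σ →₀ ℕ) : Polynomial ℂ :=
  ∏ j, (Polynomial.C (x j) + Polynomial.C (y j) * Polynomial.X) ^ d j

omit [DecidableEq σ] in
theorem QSc_m_coeff (x y : σ → ℂ) (d : σ →₀ ℕ) :
    (QSc_m x y d).natDegree ≤ ∑ j, d j ∧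
      (QSc_m x y d).coeff (∑ j, d j) = ∏ j, y j ^ d j := by
  classical
  unfold QSc_m
  have h1 : ∀ j, (Polynomial.C (x j) + Polynomial.C (y j) * Polynomial.X :
      Polynomial ℂ).natDegree ≤ 1 := by
    intro j
    refine (Polynomial.natDegree_add_le _ _).trans ?_
    rw [Polynomial.natDegree_C]
    exact max_le (Nat.zero_le _) ((Polynomial.natDegree_C_mul_le _ _).trans
      Polynomial.natDegree_X_le)
  have h2 : ∀ j, ((Polynomial.C (x j) + Polynomial.C (y j) * Polynomial.X :
      Polynomial ℂ) ^ d j).natDegree ≤ d j := by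
    intro j
    refine Polynomial.natDegree_pow_le.trans ?_
    calc _ ≤ d j * 1 := Nat.mul_le_mul_left _ (h1 j)
      _ = d j := mul_one _
  have h3 : ∀ j, ((Polynomial.C (x j) + Polynomial.C (y j) * Polynomial.X :
      Polynomial ℂ) ^ d j).coeff (d j) = y j ^ d j := by
    intro j
    have h4 := Polynomial.coeff_pow_of_natDegree_le (m := d j) (h1 j)
    rw [mul_one] at h4
    rw [h4]
    simp
  induction (Finset.univ : Finset σ) using Finset.induction_on with
  | empty => simp
  | insert a s ha ih =>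
    rw [Finset.prod_insert ha, Finset.sum_insert ha, Finset.prod_insert ha]
    constructor
    · exact Polynomial.natDegree_mul_le.trans (add_le_add (h2 a) ih.1)
    · rw [Polynomial.coeff_mul_add_eq_of_natDegree_le (h2 a) ih.1, h3, ih.2]

/-- the polynomial `R(x + s y)` -/
noncomputable def QSc_g (R : MvPolynomial σ ℝ) (x y : σ → ℂ) : Polynomial ℂ :=
  ∑ d ∈ R.support, Polynomial.C ((R.coeff d : ℝ) : ℂ) * QSc_m x y d

omit [DecidableEq σ] in
theorem QSc_g_eval (R : MvPolynomial σ ℝ) (x y : σ → ℂ) (s : ℂ) :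
    (QSc_g R x y).eval s = aeval (fun j => x j + y j * s) R := by
  rw [aeval_def, eval₂_eq']
  unfold QSc_g QSc_m
  rw [Polynomial.eval_finsetSum]
  refine Finset.sum_congr rfl fun d _ => ?_
  rw [Polynomial.eval_mul, Polynomial.eval_C, Polynomial.eval_prod]
  congr 1
  refine Finset.prod_congr rfl fun j _ => ?_
  simp

omit [DecidableEq σ] in
theorem QSc_g_coeff {R : MvPolynomial σ ℝ} {D : ℕ} (hh : R.IsHomogeneous D) (x : σ → ℂ)
    (y : σ → ℝ) : (QSc_g R x fun j => (y j : ℂ)).natDegree ≤ D ∧
      (QSc_g R x fun j => (y j : ℂ)).coeff D = ((eval y R : ℝ) : ℂ) := by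
  have hd : ∀ d ∈ R.support, ∑ j, d j = D := by
    intro d hd
    have h1 := hh (mem_support_iff.1 hd)
    rw [← h1, ← Finsupp.degree_eq_sum]
    exact DFunLike.congr_fun Finsupp.degree_eq_weight_one d
  unfold QSc_g
  constructor
  · refine Polynomial.natDegree_sum_le_of_forall_le _ _ fun d h => ?_
    refine (Polynomial.natDegree_C_mul_le _ _).trans ?_
    rw [← hd d h]
    exact (QSc_m_coeff x _ d).1
  · rw [Polynomial.finsetSum_coeff, eval_eq']
    push_cast
    refine Finset.sum_congr rfl fun d h => ?_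
    rw [Polynomial.coeff_C_mul, ← hd d h, (QSc_m_coeff x _ d).2]

omit [Fintype σ] [DecidableEq σ] in
theorem QSc_conj (R : MvPolynomial σ ℝ) (z : σ → ℂ) :
    aeval (fun j => (starRingEnd ℂ) (z j)) R = (starRingEnd ℂ) (aeval z R) := by
  have h := MvPolynomial.comp_aeval_apply (R := ℝ) z (Complex.conjAe : ℂ →ₐ[ℝ] ℂ) R
  exact h.symm

omit [DecidableEq σ] in
/-- the open case -/
theorem QSc_open {R : MvPolynomial σ ℝ} {D : ℕ} (hh : R.IsHomogeneous D) (hn : NN R)
    (h0 : R ≠ 0) (hne : ∀ z : σ → ℂ, (∀ j, 0 < (z j).im) → aeval z R ≠ 0) (z : σ → ℂ)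
    (hz : ∀ j, 0 < (z j).im) : eval (fun i => (z i).im) R ≤ ‖aeval z R‖ := by
  set y : σ → ℝ := fun i => (z i).im with hy
  set x : σ → ℂ := fun i => ((z i).re : ℂ) with hx
  set g := QSc_g R x fun j => (y j : ℂ) with hg
  obtain ⟨hdeg, hco⟩ := QSc_g_coeff hh x y
  have hpos : 0 < eval y R := hn.eval_pos h0 hz
  have hco' : g.coeff D ≠ 0 := by
    rw [hg, hco]
    exact Complex.ofReal_ne_zero.2 hpos.ne'
  have hnat : g.natDegree = D := le_antisymm hdeg (Polynomial.le_natDegree_of_ne_zero hco')
  have hlead : g.leadingCoeff = ((eval y R : ℝ) : ℂ) := by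
    rw [Polynomial.leadingCoeff, hnat, hg, hco]
  have hroot : ∀ r, g.eval r = 0 → r.im = 0 := by
    have hup : ∀ r, g.eval r = 0 → ¬ 0 < r.im := by
      intro r hr hr'
      rw [hg, QSc_g_eval] at hr
      refine hne _ (fun j => ?_) hr
      have : (x j + (y j : ℂ) * r).im = y j * r.im := by
        rw [hx]
        simp
      rw [this]
      exact mul_pos (hz j) hr'
    intro r hr
    by_contra hr0
    rcases lt_or_gt_of_ne hr0 with h | h
    · refine hup ((starRingEnd ℂ) r) ?_ ?_
      · rw [hg, QSc_g_eval] at hr ⊢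
        have h1 : (fun j => x j + (y j : ℂ) * (starRingEnd ℂ) r) =
            fun j => (starRingEnd ℂ) (x j + (y j : ℂ) * r) := by
          funext j
          rw [map_add, map_mul, Complex.conj_ofReal, hx]
          simp
        rw [h1, QSc_conj, hr, map_zero]
      · rw [Complex.conj_im]
        linarith
    · exact hup r hr h
  have hsp : g = Polynomial.C g.leadingCoeff *
      (g.roots.map fun a => Polynomial.X - Polynomial.C a).prod :=
    (IsAlgClosed.splits g).eq_prod_roots
  have hz' : aeval z R = g.eval Complex.I := by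
    rw [hg, QSc_g_eval]
    congr 1
    have : (fun j => x j + (y j : ℂ) * Complex.I) = z := by
      funext j
      rw [hx, hy]
      exact Complex.re_add_im (z j)
    rw [this]
  rw [hz', hsp, Polynomial.eval_mul, Polynomial.eval_C, norm_mul, hlead, Complex.norm_real,
    Real.norm_of_nonneg hpos.le]
  refine le_mul_of_one_le_right hpos.le ?_
  rw [Polynomial.eval_multiset_prod, Multiset.map_map]
  have hall : ∀ a ∈ g.roots, (1 : ℝ) ≤ ‖(Polynomial.X - Polynomial.C a).eval Complex.I‖ := by
    intro a ha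
    have ha0 := hroot a (Polynomial.isRoot_of_mem_roots ha)
    rw [Polynomial.eval_sub, Polynomial.eval_X, Polynomial.eval_C]
    have h1 := Complex.abs_im_le_norm (Complex.I - a)
    rw [Complex.sub_im, Complex.I_im, ha0, sub_zero, abs_one] at h1
    exact h1
  have hfin : ∀ s : Multiset ℂ,
      (∀ a ∈ s, (1 : ℝ) ≤ ‖(Polynomial.X - Polynomial.C a).eval Complex.I‖) →
      1 ≤ ‖(s.map (Polynomial.eval Complex.I ∘
        fun a => Polynomial.X - Polynomial.C a)).prod‖ := by
    intro s
    induction s using Multiset.induction_on with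
    | empty =>
      intro _
      simp
    | cons a s ih =>
      intro h
      rw [Multiset.map_cons, Multiset.prod_cons, norm_mul]
      have h1 := h a (Multiset.mem_cons_self a s)
      have h2 := ih fun b hb => h b (Multiset.mem_cons_of_mem hb)
      exact one_le_mul_of_one_le_of_one_le h1 h2
  exact hfin _ hall

/-- For real `x` and `y > 0` the polynomial `s ↦ R(x + s y)` has degree `D`, leading coefficient
`R(y) > 0` and only real roots, so `|R(x + i y)| ≥ R(y)`; the closed case by continuity. -/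
theorem qs_of_ne_zero {R : MvPolynomial σ ℝ} {D : ℕ} (hh : R.IsHomogeneous D) (hn : NN R)
    (hne : R ≠ 0 → ∀ z : σ → ℂ, (∀ j, 0 < (z j).im) → aeval z R ≠ 0) : QS R := by
  by_cases h0 : R = 0
  · intro z _
    rw [h0]
    simp
  · intro z hz
    have hA : Continuous fun ε : ℝ => eval (fun i => (z i).im + ε) R := by
      simp only [eval_eq']
      fun_prop
    have hB : Continuous fun ε : ℝ => ‖aeval (fun i => z i + ε * Complex.I) R‖ := by
      simp only [aeval_def, eval₂_eq']
      fun_prop
    have hA' := (hA.tendsto 0).mono_left (nhdsWithin_le_nhds (s := Set.Ioi (0 : ℝ)))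
    have hB' := (hB.tendsto 0).mono_left (nhdsWithin_le_nhds (s := Set.Ioi (0 : ℝ)))
    have hle : ∀ᶠ ε in nhdsWithin (0 : ℝ) (Set.Ioi 0), eval (fun i => (z i).im + ε) R ≤
        ‖aeval (fun i => z i + ε * Complex.I) R‖ := by
      filter_upwards [self_mem_nhdsWithin] with ε hε
      have h1 : ∀ i, (z i + ε * Complex.I).im = (z i).im + ε := by
        intro i
        simp
      have h2 := QSc_open hh hn h0 (hne h0) (fun i => z i + ε * Complex.I) (fun i => by
        rw [h1]
        have := hz i
        have h3 : 0 < ε := hε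
        linarith)
      simpa only [h1] using h2
    have h3 := le_of_tendsto_of_tendsto hA' hB' hle
    simpa using h3

end MP_a3e05c_co.KL
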