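import Pool.Agent.Lib.MP_a3e05c_co.KL.QSb
import Pool.Agent.Lib.MP_a3e05c_co.KL.QSc

/-!
# EULER, key lemma: extraction of coefficients preserves quantitative stability
-/

open MvPolynomial

namespace MP_a3e05c_co.KL

variable {σ : Type} [Fintype σ] [DecidableEq σ]

theorem qs_pderiv {Q : MvPolynomial σ ℝ} {D : ℕ} (hh : Q.IsHomogeneous D) (hn : NN Q)
    (hq : QS Q) (i : σ) : QS (pderiv i Q) :=
  qs_of_ne_zero hh.pderiv (hn.pderiv i) fun h0 z hz => pderiv_ne_zero_of_qs hn hq i h0 z hz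

/-- `n!` times the coefficient of `X i ^ n` -/
noncomputable def dr (i : σ) (n : ℕ) (Q : MvPolynomial σ ℝ) : MvPolynomial σ ℝ :=
  aeval (fun j => if j = i then (0 : MvPolynomial σ ℝ) else X j) ((pderiv i)^[n] Q)

omit [Fintype σ] [DecidableEq σ] in
private theorem QSd_iter (i : σ) (n : ℕ) (d : σ →₀ ℕ) (a : ℝ) :
    (pderiv i)^[n] (monomial d a) =
      monomial (d - Finsupp.single i n) (a * ((d i).descFactorial n : ℝ)) := by
  induction n with
  | zero => simp
  | succ n ih =>
    rw [Function.iterate_succ_apply', ih, pderiv_monomial]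
    congr 1
    · rw [tsub_tsub, ← Finsupp.single_add]
    · rw [Nat.descFactorial_succ]
      push_cast
      simp only [Pi.sub_apply, Finsupp.single_eq_same]
      ring

theorem dr_monomial (i : σ) (n : ℕ) (d : σ →₀ ℕ) (a : ℝ) :
    dr i n (monomial d a) = if d i = n then monomial (d.erase i) (a * (n.factorial : ℝ)) else 0 := by
  unfold dr
  rw [QSd_iter, aeval_monomial, Finsupp.prod_fintype _ _ (fun _ => pow_zero _)]
  rcases lt_trichotomy (d i) n with h | h | h
  · rw [if_neg h.ne, Nat.descFactorial_of_lt h]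
    simp
  · rw [if_pos h]
    subst h
    rw [Nat.descFactorial_self]
    rw [monomial_eq, Finsupp.prod_fintype _ _ (fun _ => pow_zero _)]
    congr 1
    refine Finset.prod_congr rfl fun j _ => ?_
    by_cases hj : j = i
    · subst hj
      simp
    · rw [if_neg hj, Finsupp.erase_ne hj]
      congr 1
      simp [Finsupp.single_eq_of_ne hj]
  · rw [if_neg h.ne']
    have : ∏ j, (if j = i then (0 : MvPolynomial σ ℝ) else X j) ^ (d - Finsupp.single i n) j = 0 := by
      apply Finset.prod_eq_zero (Finset.mem_univ i)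
      rw [if_pos rfl]
      apply zero_pow
      simp only [Finsupp.coe_tsub, Pi.sub_apply, Finsupp.single_eq_same]
      omega
    rw [this, mul_zero]

omit [Fintype σ] [DecidableEq σ] in
private theorem QSd_iter_sum {ι : Type} (s : Finset ι) (P : ι → MvPolynomial σ ℝ) (i : σ) (n : ℕ) :
    (pderiv i)^[n] (∑ k ∈ s, P k) = ∑ k ∈ s, (pderiv i)^[n] (P k) := by
  induction n with
  | zero => rfl
  | succ n ih =>
    rw [Function.iterate_succ_apply', ih, map_sum]
    exact Finset.sum_congr rfl fun k _ => (Function.iterate_succ_apply' _ _ _).symm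

theorem dr_sum {ι : Type} (s : Finset ι) (P : ι → MvPolynomial σ ℝ) (i : σ) (n : ℕ) :
    dr i n (∑ k ∈ s, P k) = ∑ k ∈ s, dr i n (P k) := by
  unfold dr
  rw [QSd_iter_sum, map_sum]

private theorem QSd_iter_all {Q : MvPolynomial σ ℝ} {D : ℕ} (hh : Q.IsHomogeneous D) (hn : NN Q)
    (hq : QS Q) (i : σ) (n : ℕ) : (∃ D', ((pderiv i)^[n] Q).IsHomogeneous D') ∧
      NN ((pderiv i)^[n] Q) ∧ QS ((pderiv i)^[n] Q) := by
  induction n with
  | zero => exact ⟨⟨D, hh⟩, hn, hq⟩
  | succ n ih =>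
    obtain ⟨⟨D', h1⟩, h2, h3⟩ := ih
    rw [Function.iterate_succ_apply']
    exact ⟨⟨_, h1.pderiv⟩, h2.pderiv i, qs_pderiv h1 h2 h3 i⟩

theorem qs_dr {Q : MvPolynomial σ ℝ} {D : ℕ} (hh : Q.IsHomogeneous D) (hn : NN Q) (hq : QS Q)
    (i : σ) (n : ℕ) : QS (dr i n Q) := by
  obtain ⟨-, -, h⟩ := QSd_iter_all hh hn hq i n
  intro z hz
  have h1 := h (fun j => if j = i then 0 else z j) (by
    intro j
    by_cases hj : j = i
    · simp [hj]
    · simp only [if_neg hj]
      exact hz j)
  have h2 : eval (fun j => (z j).im) (dr i n Q) =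
      eval (fun j => (if j = i then (0 : ℂ) else z j).im) ((pderiv i)^[n] Q) := by
    unfold dr
    rw [← coe_aeval_eq_eval, ← coe_aeval_eq_eval]
    simp only [RingHom.coe_coe]
    rw [← AlgHom.comp_apply, comp_aeval]
    congr 1
    congr 1
    funext j
    by_cases hj : j = i
    · simp [hj]
    · simp [hj]
  have h3 : aeval z (dr i n Q) =
      aeval (fun j => if j = i then (0 : ℂ) else z j) ((pderiv i)^[n] Q) := by
    unfold dr
    rw [← AlgHom.comp_apply, comp_aeval]
    congr 1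
    congr 1
    funext j
    by_cases hj : j = i
    · simp [hj]
    · simp [hj]
  rw [h2, h3]
  exact h1

omit [Fintype σ] [DecidableEq σ] in
private theorem QSd_scale {Q : MvPolynomial σ ℝ} {a : ℝ} (ha : 0 < a) (h : QS (C a * Q)) :
    QS Q := by
  intro z hz
  have h1 := h z hz
  rw [map_mul, map_mul, eval_C, norm_mul] at h1
  have h2 : ‖aeval z (C a : MvPolynomial σ ℝ)‖ = a := by
    rw [aeval_C]
    simp [abs_of_pos ha]
  rw [h2] at h1
  exact le_of_mul_le_mul_left h1 ha

/-- the exponents outside `A` -/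
private noncomputable def QSd_e (A : Finset σ) (c : σ → ℕ) : σ →₀ ℕ :=
  Finsupp.equivFunOnFinite.symm fun v => if v ∈ A then 0 else c v

private theorem QSd_e_apply (A : Finset σ) (c : σ → ℕ) (v : σ) :
    QSd_e A c v = if v ∈ A then 0 else c v := rfl

private noncomputable def QSd_Q {ι : Type} [Fintype ι] (c : ι → σ → ℕ) (m : σ → ℕ)
    (A : Finset σ) : MvPolynomial σ ℝ :=
  ∑ k ∈ Finset.univ.filter (fun k => ∀ v ∈ A, c k v = m v), monomial (QSd_e A (c k)) 1

private theorem QSd_prod {R : Type} [CommMonoid R] (A : Finset σ) (c : σ → ℕ) (y : σ → R) :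
    (QSd_e A c).prod (fun v n => y v ^ n) = ∏ v ∈ Aᶜ, y v ^ c v := by
  rw [Finsupp.prod_fintype _ _ (fun _ => pow_zero _)]
  rw [← Finset.prod_subset (Finset.subset_univ Aᶜ)]
  · refine Finset.prod_congr rfl fun v hv => ?_
    rw [QSd_e_apply, if_neg (Finset.mem_compl.1 hv)]
  · intro v _ hv
    rw [QSd_e_apply, if_pos (by simpa using hv), pow_zero]

private theorem QSd_eval {ι : Type} [Fintype ι] (c : ι → σ → ℕ) (m : σ → ℕ) (A : Finset σ)
    (y : σ → ℝ) : eval y (QSd_Q c m A) =
      ∑ k ∈ Finset.univ.filter (fun k => ∀ v ∈ A, c k v = m v), ∏ v ∈ Aᶜ, y v ^ c k v := by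
  unfold QSd_Q
  rw [map_sum]
  refine Finset.sum_congr rfl fun k _ => ?_
  rw [eval_monomial, one_mul, QSd_prod]

private theorem QSd_aeval {ι : Type} [Fintype ι] (c : ι → σ → ℕ) (m : σ → ℕ) (A : Finset σ)
    (z : σ → ℂ) : aeval z (QSd_Q c m A) =
      ∑ k ∈ Finset.univ.filter (fun k => ∀ v ∈ A, c k v = m v), ∏ v ∈ Aᶜ, z v ^ c k v := by
  unfold QSd_Q
  rw [map_sum]
  refine Finset.sum_congr rfl fun k _ => ?_
  rw [aeval_monomial, map_one, one_mul, QSd_prod]

private theorem QSd_NN {ι : Type} [Fintype ι] (c : ι → σ → ℕ) (m : σ → ℕ) (A : Finset σ) :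
    NN (QSd_Q c m A) := by
  intro d
  unfold QSd_Q
  rw [coeff_sum]
  refine Finset.sum_nonneg fun k _ => ?_
  rw [coeff_monomial]
  split_ifs <;> norm_num

private theorem QSd_hom {ι : Type} [Fintype ι] (c : ι → σ → ℕ) (D : ℕ)
    (hD : ∀ k, ∑ v, c k v = D) (m : σ → ℕ) (A : Finset σ) :
    (QSd_Q c m A).IsHomogeneous (D - ∑ v ∈ A, m v) := by
  unfold QSd_Q
  apply IsHomogeneous.sum
  intro k hk
  apply isHomogeneous_monomial
  rw [Finset.mem_filter] at hk
  have h1 := hD k
  rw [← Finset.sum_add_sum_compl A] at h1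
  have h2 : ∑ v ∈ A, c k v = ∑ v ∈ A, m v := Finset.sum_congr rfl hk.2
  have h3 : (QSd_e A (c k)).degree = ∑ v ∈ Aᶜ, c k v := by
    rw [Finsupp.degree_eq_sum]
    rw [← Finset.sum_subset (Finset.subset_univ Aᶜ)]
    · refine Finset.sum_congr rfl fun v hv => ?_
      rw [QSd_e_apply, if_neg (Finset.mem_compl.1 hv)]
    · intro v _ hv
      rw [QSd_e_apply, if_pos (by simpa using hv)]
  rw [h3]
  omega

private theorem QSd_step {ι : Type} [Fintype ι] (c : ι → σ → ℕ) (m : σ → ℕ) (A : Finset σ) (i : σ)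
    (hi : i ∉ A) : dr i (m i) (QSd_Q c m A) =
      C (((m i).factorial : ℝ)) * QSd_Q c m (insert i A) := by
  unfold QSd_Q
  rw [dr_sum, Finset.mul_sum]
  have h1 : Finset.univ.filter (fun k => ∀ v ∈ insert i A, c k v = m v) =
      (Finset.univ.filter (fun k => ∀ v ∈ A, c k v = m v)).filter (fun k => c k i = m i) := by
    ext k
    simp only [Finset.mem_filter, Finset.mem_univ, true_and, Finset.mem_insert, forall_eq_or_imp]
    exact and_comm
  conv_rhs => rw [h1, Finset.sum_filter]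
  refine Finset.sum_congr rfl fun k _ => ?_
  rw [dr_monomial, QSd_e_apply, if_neg hi]
  by_cases h : c k i = m i
  · rw [if_pos h, if_pos h, C_mul_monomial, one_mul, mul_one]
    have he : (QSd_e A (c k)).erase i = QSd_e (insert i A) (c k) := by
      ext v
      by_cases hv : v = i
      · subst hv
        simp [QSd_e_apply]
      · rw [Finsupp.erase_ne hv, QSd_e_apply, QSd_e_apply]
        simp [hv]
    rw [he]
  · rw [if_neg h, if_neg h]

/-- **Extraction of coefficients.**  If the sum of the monomials `∏ z_v ^ c k v` (all of the same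
degree `D`) is quantitatively stable, then so is the sum over those `k` with `c k v = m v` for
`v ∈ A`, with the variables of `A` removed. -/
theorem qs_family {ι : Type} [Fintype ι] (c : ι → σ → ℕ) (D : ℕ) (hD : ∀ k, ∑ v, c k v = D)
    (hq : ∀ z : σ → ℂ, (∀ v, 0 ≤ (z v).im) →
      ∑ k, ∏ v, (z v).im ^ c k v ≤ ‖∑ k, ∏ v, z v ^ c k v‖)
    (A : Finset σ) (m : σ → ℕ) (z : σ → ℂ) (hz : ∀ v, 0 ≤ (z v).im) :
    ∑ k ∈ Finset.univ.filter (fun k => ∀ v ∈ A, c k v = m v), ∏ v ∈ Aᶜ, (z v).im ^ c k v ≤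
      ‖∑ k ∈ Finset.univ.filter (fun k => ∀ v ∈ A, c k v = m v), ∏ v ∈ Aᶜ, z v ^ c k v‖ := by
  have key : QS (QSd_Q c m A) := by
    induction A using Finset.induction_on with
    | empty =>
      intro z hz
      rw [QSd_eval, QSd_aeval]
      simpa using hq z hz
    | insert i A hi ih =>
      have h1 := qs_dr (QSd_hom c D hD m A) (QSd_NN c m A) ih i (m i)
      rw [QSd_step c m A i hi] at h1
      exact QSd_scale (by exact_mod_cast Nat.factorial_pos (m i)) h1
  have h := key z hz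
  rw [QSd_eval, QSd_aeval] at h
  exact h

end MP_a3e05c_co.KL
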