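import Pool.Agent.Lib.MP_a3e05c_co.KL.PDefs

/-!
# EULER: the potential

`s` stands for `d - 1`.
-/

open Finset

namespace MP_a3e05c_co.KL

/-- `i ρ_i / s` -/
noncomputable def xx (s : ℝ) (i : ℕ) : ℝ := (i : ℝ) * ((i : ℝ) - 1) / (s ^ 2 * (s + 2 - i))

/-- `ρ_j` for the degree `s + 1` -/
noncomputable def rr (s : ℝ) (j : ℕ) : ℝ := ((j : ℝ) - 1) / (s * (s + 2 - j))

/-- `G_s(y)` -/
noncomputable def GG (s y : ℝ) : ℝ := -(1 / 2) * Real.log (1 - y / s)

/-- `G_s(i ρ_i)` -/
noncomputable def gg (s : ℝ) (i : ℕ) : ℝ := -(1 / 2) * Real.log (1 - xx s i)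

/-- the potential in the explicit form, without the constant `log bb (d / 2)` -/
noncomputable def pp (s : ℝ) (k : ℕ) : ℝ := (∑ i ∈ range (k + 1), gg s i) / ((k : ℝ) + 1)

/-- increments of `pp` -/
noncomputable def hp (s : ℝ) (k : ℕ) : ℝ := pp s k - pp s (k - 1)

/-- upper bound for `log F` in the explicit form (for all `d` and all `j < d`) -/
noncomputable def ffp (d j : ℕ) : ℝ := Real.log (bb (d / 2)) + gg ((d : ℝ) - 1) j

/-- **The potential** of a vertex of degree `d` with `k` alive neighbours. -/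
noncomputable def phi (d k : ℕ) : ℝ :=
  if k < d then (∑ j ∈ range (k + 1), ffp d j) / ((k : ℝ) + 1) else AA d

theorem phi_full (d : ℕ) : phi d d = AA d := by
  unfold phi
  rw [if_neg (lt_irrefl d)]

theorem rh_eq_rr (d j : ℕ) : rh d j = rr ((d : ℝ) - 1) j := by
  unfold rh rr
  congr 2
  ring

theorem GG_eq_gg {s : ℝ} (hs : s ≠ 0) (i : ℕ) : GG s (i * rr s i) = gg s i := by
  unfold GG gg xx rr
  congr 3
  by_cases h : s + 2 - (i : ℝ) = 0
  · rw [h]
    simp
  · field_simp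

end MP_a3e05c_co.KL
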