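import Pool.Agent.Lib.MP_a3e05c_co.KL.Step

/-!
# EULER: from the common interface to the frozen statement S10541
-/

open Finset Polynomial

namespace MP_a3e05c_co.KL

/-- the number of Eulerian orientations, in the form of S10541 -/
def EOc (V : Type) [Fintype V] [DecidableEq V] (G : SimpleGraph V) [DecidableRel G.Adj] : ℕ :=
  ((Finset.univ : Finset (V → V → Bool)).filter (fun o =>
    (∀ u w : V, o u w = true → G.Adj u w) ∧
    (∀ u w : V, G.Adj u w → (o u w = true ↔ o w u = false)) ∧
    (∀ x : V, (Finset.univ.filter (fun w => o x w = true)).card =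
              (Finset.univ.filter (fun w => o w x = true)).card))).card

/-- every simple graph is given by some simple `hd` -/
theorem exists_hd (V : Type) [Fintype V] [DecidableEq V] (G : SimpleGraph V) [DecidableRel G.Adj] :
    ∃ (E : Type) (_ : Fintype E) (_ : DecidableEq E) (hd : E → Bool → V), Simple hd ∧
      (∀ u w, Adj hd u w ↔ G.Adj u w) := by
  let r : V → ℕ := fun v => (Fintype.equivFin V v : ℕ)
  have hr : Function.Injective r := fun a b h => (Fintype.equivFin V).injective (Fin.ext h)
  let hd : {p : V × V // G.Adj p.1 p.2 ∧ r p.1 < r p.2} → Bool → V :=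
    fun e b => if b then e.1.2 else e.1.1
  have ht : ∀ e, hd e true = e.1.2 := fun e => rfl
  have hf : ∀ e, hd e false = e.1.1 := fun e => rfl
  refine ⟨{p : V × V // G.Adj p.1 p.2 ∧ r p.1 < r p.2}, inferInstance, inferInstance, hd,
    ⟨?_, ?_⟩, ?_⟩
  · intro e
    rw [ht, hf]
    exact fun h => G.ne_of_adj e.2.1 h.symm
  · intro e e' h
    simp only [ht, hf] at h
    rw [Sym2.eq_iff] at h
    rcases h with ⟨h1, h2⟩ | ⟨h1, h2⟩
    · exact Subtype.ext (Prod.ext h2 h1)
    · exfalso
      have h3 := e.2.2
      have h4 := e'.2.2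
      rw [h1, h2] at h3
      omega
  · intro u w
    constructor
    · rintro ⟨e, b, h1, h2⟩
      cases b
      · rw [hf] at h1
        rw [Bool.not_false, ht] at h2
        rw [← h1, ← h2]
        exact e.2.1
      · rw [ht] at h1
        rw [Bool.not_true, hf] at h2
        rw [← h1, ← h2]
        exact e.2.1.symm
    · intro h
      rcases lt_trichotomy (r u) (r w) with h1 | h1 | h1
      · exact ⟨⟨(u, w), h, h1⟩, false, rfl, rfl⟩
      · exact absurd (hr h1) (G.ne_of_adj h)
      · exact ⟨⟨(w, u), h.symm, h1⟩, true, rfl, rfl⟩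

section Bij

variable {V : Type} [Fintype V] [DecidableEq V] {E : Type} [Fintype E] [DecidableEq E]

omit [Fintype V] [DecidableEq V] [Fintype E] [DecidableEq E] in
/-- an edge is determined by its ordered ends -/
private theorem BridgeA_uniq {hd : E → Bool → V} (hs : Simple hd) {e e' : E} {b b' : Bool}
    (h1 : hd e b = hd e' b') (h2 : hd e (!b) = hd e' (!b')) : e = e' ∧ b = b' := by
  have he : e = e' := by
    apply hs.2
    show s(hd e true, hd e false) = s(hd e' true, hd e' false)
    rw [Sym2.eq_iff]
    cases b <;> cases b'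
    · exact Or.inl ⟨h2, h1⟩
    · exact Or.inr ⟨h2, h1⟩
    · exact Or.inr ⟨h1, h2⟩
    · exact Or.inl ⟨h1, h2⟩
  subst he
  refine ⟨rfl, ?_⟩
  have hl := hs.1 e
  cases b <;> cases b'
  · rfl
  · exact absurd h1.symm hl
  · exact absurd h1 hl
  · rfl

/-- the orientation as a function on pairs: `true` on (tail, head) -/
private def BridgeA_F (hd : E → Bool → V) (ω : E → Bool) : V → V → Bool :=
  fun u w => decide (∃ e, hd e (ω e) = w ∧ hd e (!ω e) = u)

omit [Fintype V] [DecidableEq E] in
private theorem BridgeA_F_iff (hd : E → Bool → V) (ω : E → Bool) (u w : V) :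
    BridgeA_F hd ω u w = true ↔ ∃ e, hd e (ω e) = w ∧ hd e (!ω e) = u := by
  unfold BridgeA_F
  exact decide_eq_true_iff

/-- the orientation of the edges given by a function on pairs -/
private def BridgeA_G (hd : E → Bool → V) (o : V → V → Bool) : E → Bool :=
  fun e => o (hd e false) (hd e true)

omit [Fintype V] [DecidableEq E] in
private theorem BridgeA_GF {hd : E → Bool → V} (hs : Simple hd) (ω : E → Bool) :
    BridgeA_G hd (BridgeA_F hd ω) = ω := by
  funext e
  unfold BridgeA_G
  rw [Bool.eq_iff_iff, BridgeA_F_iff]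
  constructor
  · rintro ⟨e', h1, h2⟩
    have h := BridgeA_uniq hs (b := ω e') (b' := true) h1 h2
    rw [← h.1, h.2]
  · intro h
    exact ⟨e, by rw [h], by rw [h]; rfl⟩

omit [DecidableEq E] in
private theorem BridgeA_outdeg {hd : E → Bool → V} (hs : Simple hd) (ω : E → Bool) (x : V) :
    (univ.filter fun w => BridgeA_F hd ω x w = true).card =
      (univ.filter fun e => hd e (!ω e) = x).card := by
  symm
  apply Finset.card_bij (fun e _ => hd e (ω e))
  · intro e he
    rw [mem_filter] at he ⊢
    refine ⟨mem_univ _, ?_⟩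
    rw [BridgeA_F_iff]
    exact ⟨e, rfl, he.2⟩
  · intro e he e' he' h
    rw [mem_filter] at he he'
    exact (BridgeA_uniq hs (b := ω e) (b' := ω e') h (he.2.trans he'.2.symm)).1
  · intro w hw
    rw [mem_filter, BridgeA_F_iff] at hw
    obtain ⟨_, e, h1, h2⟩ := hw
    exact ⟨e, by rw [mem_filter]; exact ⟨mem_univ _, h2⟩, h1⟩

omit [DecidableEq E] in
private theorem BridgeA_indeg {hd : E → Bool → V} (hs : Simple hd) (ω : E → Bool) (x : V) :
    (univ.filter fun w => BridgeA_F hd ω w x = true).card = indeg hd ω x := by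
  unfold indeg
  symm
  apply Finset.card_bij (fun e _ => hd e (!ω e))
  · intro e he
    rw [mem_filter] at he ⊢
    refine ⟨mem_univ _, ?_⟩
    rw [BridgeA_F_iff]
    exact ⟨e, he.2, rfl⟩
  · intro e he e' he' h
    rw [mem_filter] at he he'
    exact (BridgeA_uniq hs (b := ω e) (b' := ω e') (he.2.trans he'.2.symm) h).1
  · intro w hw
    rw [mem_filter, BridgeA_F_iff] at hw
    obtain ⟨_, e, h1, h2⟩ := hw
    exact ⟨e, by rw [mem_filter]; exact ⟨mem_univ _, h1⟩, h2⟩

omit [Fintype V] in
private theorem BridgeA_deg {hd : E → Bool → V} (hl : NoLoop hd) (ω : E → Bool) (x : V) :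
    deg hd x = indeg hd ω x + (univ.filter fun e => hd e (!ω e) = x).card := by
  unfold deg indeg
  rw [← Finset.card_union_of_disjoint]
  · congr 1
    ext e
    rw [mem_union, mem_filter, mem_filter, mem_filter]
    constructor
    · rintro ⟨_, b, hb⟩
      by_cases h : b = ω e
      · left
        exact ⟨mem_univ _, h ▸ hb⟩
      · right
        have h2 : b = !ω e := by
          cases b <;> cases hω : ω e <;> simp_all
        exact ⟨mem_univ _, h2 ▸ hb⟩
    · rintro (⟨_, h⟩ | ⟨_, h⟩)
      · exact ⟨mem_univ _, _, h⟩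
      · exact ⟨mem_univ _, _, h⟩
  · rw [Finset.disjoint_left]
    intro e he he'
    rw [mem_filter] at he he'
    have h := he.2.trans he'.2.symm
    have h1 := hl e
    cases hω : ω e
    · rw [hω] at h
      exact h1 h.symm
    · rw [hω] at h
      exact h1 h

omit [Fintype V] [DecidableEq E] in
private theorem BridgeA_FG {G : SimpleGraph V} {hd : E → Bool → V}
    (h : ∀ u w, Adj hd u w ↔ G.Adj u w) {o : V → V → Bool}
    (h1 : ∀ u w : V, o u w = true → G.Adj u w)
    (h2 : ∀ u w : V, G.Adj u w → (o u w = true ↔ o w u = false)) :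
    BridgeA_F hd (BridgeA_G hd o) = o := by
  funext u w
  rw [Bool.eq_iff_iff, BridgeA_F_iff]
  constructor
  · rintro ⟨e, h4, h5⟩
    unfold BridgeA_G at h4 h5
    cases h6 : o (hd e false) (hd e true)
    · rw [h6] at h4 h5
      rw [Bool.not_false] at h5
      have h7 : G.Adj u w := (h u w).1 ⟨e, true, h5, h4⟩
      rw [h2 u w h7, ← h4, ← h5]
      exact h6
    · rw [h6] at h4 h5
      rw [Bool.not_true] at h5
      rw [← h4, ← h5]
      exact h6
  · intro h4
    have h5 := h1 u w h4
    obtain ⟨e, b, h6, h7⟩ := (h u w).2 h5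
    refine ⟨e, ?_⟩
    cases b
    · rw [Bool.not_false] at h7
      have h8 : BridgeA_G hd o e = true := by
        unfold BridgeA_G
        rw [h6, h7]
        exact h4
      rw [h8]
      exact ⟨h7, h6⟩
    · rw [Bool.not_true] at h7
      have h8 : BridgeA_G hd o e = false := by
        unfold BridgeA_G
        rw [h6, h7]
        exact (h2 u w h5).1 h4
      rw [h8]
      exact ⟨h7, h6⟩

end Bij

/-- two descriptions of the number of Eulerian orientations -/
theorem EOc_eq {V : Type} [Fintype V] [DecidableEq V] {E : Type} [Fintype E] [DecidableEq E]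
    (G : SimpleGraph V) [DecidableRel G.Adj] {hd : E → Bool → V} (hs : Simple hd)
    (h : ∀ u w, Adj hd u w ↔ G.Adj u w) :
    EOc V G = (Om hd univ).card ∧ ∀ v, deg hd v = G.degree v := by
  constructor
  · unfold EOc
    apply Finset.card_nbij' (BridgeA_G hd) (BridgeA_F hd)
    · -- an Eulerian orientation gives a balanced ω
      intro o ho
      rw [mem_coe, mem_filter] at ho
      obtain ⟨_, h1, h2, h3⟩ := ho
      have hFG := BridgeA_FG h h1 h2
      rw [mem_coe, mem_Om]
      intro v _
      rw [bal_iff hs.1, BridgeA_deg hs.1 (BridgeA_G hd o) v, ← BridgeA_outdeg hs,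
        ← BridgeA_indeg hs, hFG]
      have h4 := h3 v
      omega
    · intro ω hω
      rw [mem_coe, mem_Om] at hω
      rw [mem_coe, mem_filter]
      refine ⟨mem_univ _, ?_, ?_, ?_⟩
      · intro u w huw
        rw [BridgeA_F_iff] at huw
        obtain ⟨e, h1, h2⟩ := huw
        refine (h u w).1 ⟨e, !ω e, h2, ?_⟩
        rw [Bool.not_not]
        exact h1
      · intro u w huw
        obtain ⟨e, b, h1, h2⟩ := (h u w).2 huw
        have h3 : ∀ e', (hd e' (ω e') = w ∧ hd e' (!ω e') = u) → e' = e ∧ ω e' = !b := by
          intro e' he'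
          apply BridgeA_uniq hs (he'.1.trans h2.symm)
          rw [Bool.not_not]
          exact he'.2.trans h1.symm
        have h4 : ∀ e', (hd e' (ω e') = u ∧ hd e' (!ω e') = w) → e' = e ∧ ω e' = b := by
          intro e' he'
          exact BridgeA_uniq hs (he'.1.trans h1.symm) (he'.2.trans h2.symm)
        constructor
        · intro h5
          rw [← Bool.not_eq_true]
          intro h6
          rw [BridgeA_F_iff] at h5 h6
          obtain ⟨e1, h5⟩ := h5
          obtain ⟨e2, h6⟩ := h6
          obtain ⟨a1, a2⟩ := h3 e1 h5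
          obtain ⟨a3, a4⟩ := h4 e2 h6
          rw [a1] at a2
          rw [a3] at a4
          rw [a4] at a2
          cases b <;> simp at a2
        · intro h5
          rw [← Bool.not_eq_true] at h5
          rw [BridgeA_F_iff]
          by_cases h6 : ω e = b
          · exfalso
            apply h5
            rw [BridgeA_F_iff]
            exact ⟨e, by rw [h6]; exact h1, by rw [h6]; exact h2⟩
          · have h7 : ω e = !b := by
              cases b <;> cases hω : ω e <;> simp_all
            refine ⟨e, by rw [h7]; exact h2, by rw [h7, Bool.not_not]; exact h1⟩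
      · intro x
        have h1 := hω x (mem_univ x)
        rw [bal_iff hs.1, BridgeA_deg hs.1 ω x] at h1
        rw [BridgeA_outdeg hs, BridgeA_indeg hs]
        omega
    · intro o ho
      rw [mem_coe, mem_filter] at ho
      obtain ⟨_, h1, h2, _⟩ := ho
      exact BridgeA_FG h h1 h2
    · intro ω _
      exact BridgeA_GF hs ω
  · intro v
    rw [← SimpleGraph.card_neighborFinset_eq_degree]
    unfold deg
    apply Finset.card_bij (fun e _ => if hd e true = v then hd e false else hd e true)
    · intro e he
      rw [mem_filter] at he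
      obtain ⟨_, b, hb⟩ := he
      rw [SimpleGraph.mem_neighborFinset, ← h]
      by_cases h1 : hd e true = v
      · rw [if_pos h1]
        exact ⟨e, true, h1, rfl⟩
      · rw [if_neg h1]
        cases b
        · exact ⟨e, false, hb, rfl⟩
        · exact absurd hb h1
    · intro e he e' he' h1
      rw [mem_filter] at he he'
      obtain ⟨_, b, hb⟩ := he
      obtain ⟨_, b', hb'⟩ := he'
      by_cases h2 : hd e true = v
      · by_cases h3 : hd e' true = v
        · rw [if_pos h2, if_pos h3] at h1
          exact (BridgeA_uniq hs (b := true) (b' := true) (h2.trans h3.symm) h1).1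
        · rw [if_pos h2, if_neg h3] at h1
          cases b'
          · exact (BridgeA_uniq hs (b := true) (b' := false) (h2.trans hb'.symm) h1).1
          · exact absurd hb' h3
      · cases b
        · by_cases h3 : hd e' true = v
          · rw [if_neg h2, if_pos h3] at h1
            exact (BridgeA_uniq hs (b := false) (b' := true) (hb.trans h3.symm) h1).1
          · rw [if_neg h2, if_neg h3] at h1
            cases b'
            · exact (BridgeA_uniq hs (b := false) (b' := false) (hb.trans hb'.symm) h1).1
            · exact absurd hb' h3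
        · exact absurd hb h2
    · intro w hw
      rw [SimpleGraph.mem_neighborFinset, ← h] at hw
      obtain ⟨e, b, h1, h2⟩ := hw
      refine ⟨e, by rw [mem_filter]; exact ⟨mem_univ _, b, h1⟩, ?_⟩
      cases b
      · rw [Bool.not_false] at h2
        have h3 : hd e true ≠ v := by
          rw [← h1]
          exact hs.1 e
        rw [if_neg h3]
        exact h2
      · rw [Bool.not_true] at h2
        rw [if_pos h1]
        exact h2

private theorem BridgeA_simple (n : ℕ) : Simple (hdK n) := by
  constructor
  · intro e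
    exact fun h => absurd e.2 (by
      have h1 : e.1.2 = e.1.1 := h
      rw [h1]
      exact lt_irrefl _)
  · intro e e' h
    have h0 : s(e.1.2, e.1.1) = s(e'.1.2, e'.1.1) := h
    rw [Sym2.eq_iff] at h0
    rcases h0 with ⟨h1, h2⟩ | ⟨h1, h2⟩
    · exact Subtype.ext (Prod.ext h2 h1)
    · exfalso
      have h3 := e.2
      have h4 := e'.2
      rw [h1, h2] at h3
      exact lt_asymm h3 h4

private theorem BridgeA_adj (n : ℕ) (u w : Fin n) :
    Adj (hdK n) u w ↔ (⊤ : SimpleGraph (Fin n)).Adj u w := by
  rw [SimpleGraph.top_adj]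
  constructor
  · rintro ⟨e, b, h1, h2⟩ h3
    have h4 := BridgeA_simple n
    have h5 := h4.1 e
    rw [h3, ← h2] at h1
    cases b
    · exact h5 h1.symm
    · exact h5 h1
  · intro h
    rcases lt_or_gt_of_ne h with h1 | h1
    · exact ⟨⟨(u, w), h1⟩, false, rfl, rfl⟩
    · exact ⟨⟨(w, u), h1⟩, true, rfl, rfl⟩

theorem EOc_top (n : ℕ) : EOc (Fin n) (⊤ : SimpleGraph (Fin n)) = RT n :=
  (EOc_eq (⊤ : SimpleGraph (Fin n)) (BridgeA_simple n) (BridgeA_adj n)).1

end MP_a3e05c_co.KL
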