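import Pool.Agent.Lib.MP_a3e05c_co.KL.Defs

/-!
# EULER, key lemma: coefficients of factored polynomials
-/

open Finset Polynomial

namespace MP_a3e05c_co.KL

/-- expansion of the product -/
private theorem Coeff_expand {K : ℕ} (s : Fin K → ℝ) (h : ℝ[X]) :
    ∏ i, (C (1 - s i) * X + C (s i) * h ^ 2) =
      ∑ T : Finset (Fin K), C ((∏ i ∈ T, s i) * (∏ i ∈ Tᶜ, (1 - s i))) *
        (X ^ (K - T.card) * h ^ (2 * T.card)) := by
  have h1 : ∀ i, C (1 - s i) * X + C (s i) * h ^ 2 = C (s i) * h ^ 2 + C (1 - s i) * X :=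
    fun i => add_comm _ _
  rw [Finset.prod_congr rfl fun i _ => h1 i, Finset.prod_add, Finset.powerset_univ]
  refine Finset.sum_congr rfl fun T _ => ?_
  rw [← Finset.compl_eq_univ_sdiff, Finset.prod_mul_distrib, Finset.prod_mul_distrib,
    Finset.prod_const, Finset.prod_const, Finset.card_compl, Fintype.card_fin, C_mul,
    map_prod, map_prod, ← pow_mul]
  ring

private theorem Coeff_hpow (N : ℕ) :
    ((C (1 / 2) * (1 + X) : ℝ[X]) ^ (2 * N)).coeff N = bb N := by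
  rw [mul_pow, ← C_pow, coeff_C_mul, coeff_one_add_X_pow, bb, Nat.centralBinom, pow_mul]
  rw [show ((1 / 2 : ℝ)) ^ 2 = 1 / 4 by norm_num, one_div_pow, mul_comm, mul_one_div]

private theorem Coeff_card {K : ℕ} (T : Finset (Fin K)) : T.card ≤ K := by
  have := Finset.card_le_univ T
  simpa using this

/-- the coefficient of one term -/
private theorem Coeff_term {K n : ℕ} (T : Finset (Fin K)) :
    ((X : ℝ[X]) ^ (K - T.card) * (C (1 / 2) * (1 + X)) ^ (2 * T.card) *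
      (C (1 / 2) * (1 + X)) ^ (2 * n)).coeff (K + n) = bb (n + T.card) := by
  have hT : T.card ≤ K := Coeff_card T
  rw [mul_assoc, ← pow_add, coeff_X_pow_mul', if_pos (by omega), ← Coeff_hpow]
  congr 2
  · ring
  · omega

/-- `[X^(k/2 + M'/2)]`, `M' = M + k % 2`, of `∏ ((1 - s) X + s ((1+X)/2)^2) * ((1+X)/2)^(k%2+M)` -/
theorem coeff_factor {k M : ℕ} (hkM : Even (k + M)) {f : ℝ[X]} {s : Fin (k / 2) → ℝ}
    (hf : Factor k f s) :
    (f * (C (1 / 2) * (1 + X)) ^ M).coeff ((k + M) / 2) =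
      f.eval 1 * PB s ((M + k % 2) / 2) := by
  obtain ⟨n, hn⟩ : ∃ n, M + k % 2 = 2 * n := by
    obtain ⟨c, hc⟩ := hkM
    exact ⟨(M + k % 2) / 2, by omega⟩
  have h1 : (k + M) / 2 = k / 2 + n := by omega
  have h2 : (M + k % 2) / 2 = n := by omega
  have h3 : f * (C (1 / 2) * (1 + X)) ^ M = C (f.eval 1) * ∑ T : Finset (Fin (k / 2)),
      C ((∏ i ∈ T, s i) * (∏ i ∈ Tᶜ, (1 - s i))) *
        (X ^ (k / 2 - T.card) * (C (1 / 2) * (1 + X)) ^ (2 * T.card) *
          (C (1 / 2) * (1 + X)) ^ (2 * n)) := by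
    conv_lhs => rw [hf.2]
    rw [Coeff_expand, ← hn, add_comm M, pow_add, Finset.mul_sum, Finset.mul_sum,
      Finset.sum_mul]
    refine Finset.sum_congr rfl fun T _ => ?_
    ring
  rw [h1, h2, h3, coeff_C_mul, finsetSum_coeff]
  congr 1
  unfold PB
  refine Finset.sum_congr rfl fun T _ => ?_
  rw [coeff_C_mul, Coeff_term]

private theorem Coeff_sq (N : ℕ) :
    ((X : ℝ[X]) ^ 2 * (1 + X) ^ (2 * N)).coeff (N + 1) = ((2 * N).choose (N + 1) : ℝ) := by
  rw [coeff_X_pow_mul']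
  rcases N with _ | N
  · simp
  · rw [if_pos (by omega), coeff_one_add_X_pow]
    congr 1
    exact Nat.choose_symm_of_eq_add (by omega)

private theorem Coeff_two (N : ℕ) :
    ((C (1 / 2) * (X - 1) : ℝ[X]) ^ 2 * (C (1 / 2) * (1 + X)) ^ (2 * N)).coeff (N + 1) =
      - (bb (N + 1) / (2 * N + 1)) := by
  have h1 : (C (1 / 2) * (X - 1) : ℝ[X]) ^ 2 * (C (1 / 2) * (1 + X)) ^ (2 * N) =
      C ((1 / 4) ^ (N + 1)) * (X ^ 2 * (1 + X) ^ (2 * N) - C 2 * (X * (1 + X) ^ (2 * N)) +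
        (1 + X) ^ (2 * N)) := by
    have h2 : (C ((1 / 4 : ℝ) ^ (N + 1)) : ℝ[X]) = C (1 / 2) ^ 2 * C (1 / 2) ^ (2 * N) := by
      rw [← C_pow, ← C_pow, ← C_mul, pow_mul, ← pow_succ']
      norm_num
    have h3 : (C 2 : ℝ[X]) = 2 := by
      rw [show (2 : ℝ) = 1 + 1 by norm_num, C_add, C_1]
      norm_num
    rw [h2, h3, mul_pow, mul_pow]
    ring
  rw [h1, coeff_C_mul, coeff_add, coeff_sub, Coeff_sq, coeff_C_mul, coeff_X_mul,
    coeff_one_add_X_pow, coeff_one_add_X_pow, bb]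
  have h4 : ((2 * N).choose (N + 1) : ℝ) * (N + 1) = ((2 * N).choose N : ℝ) * N := by
    have := Nat.choose_succ_right_eq (2 * N) N
    rw [show 2 * N - N = N by omega] at this
    exact_mod_cast this
  have h5 : ((N : ℝ) + 1) * ((N + 1).centralBinom : ℝ) =
      2 * (2 * N + 1) * ((2 * N).choose N : ℝ) := by
    have := Nat.succ_mul_centralBinom_succ N
    rw [Nat.centralBinom_eq_two_mul_choose N] at this
    exact_mod_cast this
  have h6 : ((N : ℝ) + 1) ≠ 0 := by positivity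
  have h7 : (2 * (N : ℝ) + 1) ≠ 0 := by positivity
  have h8 : (4 : ℝ) ^ (N + 1) ≠ 0 := by positivity
  have h9 : ((2 * N).choose (N + 1) : ℝ) = ((2 * N).choose N : ℝ) * N / (N + 1) := by
    rw [eq_div_iff h6, h4]
  have h10 : ((N + 1).centralBinom : ℝ) = 2 * (2 * N + 1) * ((2 * N).choose N : ℝ) / (N + 1) := by
    rw [eq_div_iff h6, ← h5]
    ring
  rw [h9, h10, one_div_pow]
  field_simp
  ring

/-- the coefficient of one term -/
private theorem Coeff_term_two {K n : ℕ} (T : Finset (Fin K)) :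
    ((X : ℝ[X]) ^ (K - T.card) * (C (1 / 2) * (1 + X)) ^ (2 * T.card) *
      ((C (1 / 2) * (X - 1)) ^ 2 * (C (1 / 2) * (1 + X)) ^ (2 * n))).coeff (K + (n + 1)) =
      - (bb (n + 1 + T.card) / (2 * (n + T.card : ℕ) + 1)) := by
  have hT : T.card ≤ K := Coeff_card T
  have h1 : ((X : ℝ[X]) ^ (K - T.card) * (C (1 / 2) * (1 + X)) ^ (2 * T.card) *
      ((C (1 / 2) * (X - 1)) ^ 2 * (C (1 / 2) * (1 + X)) ^ (2 * n))) =
      X ^ (K - T.card) * ((C (1 / 2) * (X - 1)) ^ 2 *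
        (C (1 / 2) * (1 + X)) ^ (2 * (n + T.card))) := by
    rw [show 2 * (n + T.card) = 2 * T.card + 2 * n by ring, pow_add (C (1 / 2) * (1 + X))]
    ring
  rw [h1, coeff_X_pow_mul', if_pos (by omega),
    show K + (n + 1) - (K - T.card) = n + T.card + 1 by omega, Coeff_two,
    show n + T.card + 1 = n + 1 + T.card by omega]

private theorem Coeff_bb_nonneg (n : ℕ) : 0 ≤ bb n := by
  unfold bb
  positivity

/-- the same with two of the factors `(1 + X)/2` replaced by `(X - 1)/2` (two free edges):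
conditionally on the number `N` of independent signs the correlation is `-1/(N - 1)` -/
theorem coeff_factor_two {k M : ℕ} (hkM : Even (k + M)) (hM : 2 ≤ M) {f : ℝ[X]}
    {s : Fin (k / 2) → ℝ} (hf : Factor k f s) (h1 : 0 ≤ f.eval 1) :
    (f * (C (1 / 2) * (X - 1)) ^ 2 * (C (1 / 2) * (1 + X)) ^ (M - 2)).coeff ((k + M) / 2) ≤
      - (1 / ((k + M : ℕ) - 1 : ℝ)) * (f * (C (1 / 2) * (1 + X)) ^ M).coeff ((k + M) / 2) := by
  obtain ⟨n, hn⟩ : ∃ n, M - 2 + k % 2 = 2 * n := by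
    obtain ⟨c, hc⟩ := hkM
    exact ⟨(M - 2 + k % 2) / 2, by omega⟩
  have h2 : (k + M) / 2 = k / 2 + (n + 1) := by omega
  have h3 : (M + k % 2) / 2 = n + 1 := by omega
  rw [coeff_factor hkM hf, h2, h3]
  have h4 : f * (C (1 / 2) * (X - 1)) ^ 2 * (C (1 / 2) * (1 + X)) ^ (M - 2) =
      C (f.eval 1) * ∑ T : Finset (Fin (k / 2)),
      C ((∏ i ∈ T, s i) * (∏ i ∈ Tᶜ, (1 - s i))) *
        (X ^ (k / 2 - T.card) * (C (1 / 2) * (1 + X)) ^ (2 * T.card) *
          ((C (1 / 2) * (X - 1)) ^ 2 * (C (1 / 2) * (1 + X)) ^ (2 * n))) := by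
    conv_lhs => rw [hf.2]
    rw [Coeff_expand, ← hn, add_comm (M - 2), pow_add (C (1 / 2) * (1 + X)), Finset.mul_sum,
      Finset.mul_sum, Finset.sum_mul, Finset.sum_mul]
    refine Finset.sum_congr rfl fun T _ => ?_
    ring
  rw [h4, coeff_C_mul, finsetSum_coeff]
  unfold PB
  rw [show - (1 / ((k + M : ℕ) - 1 : ℝ)) * (f.eval 1 * ∑ T : Finset (Fin (k / 2)),
      (∏ i ∈ T, s i) * (∏ i ∈ Tᶜ, (1 - s i)) * bb (n + 1 + T.card)) =
      f.eval 1 * ∑ T : Finset (Fin (k / 2)), (∏ i ∈ T, s i) * (∏ i ∈ Tᶜ, (1 - s i)) *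
        (- (1 / ((k + M : ℕ) - 1 : ℝ)) * bb (n + 1 + T.card)) by
    rw [mul_left_comm, Finset.mul_sum]
    congr 1
    refine Finset.sum_congr rfl fun T _ => ?_
    ring]
  refine mul_le_mul_of_nonneg_left (Finset.sum_le_sum fun T _ => ?_) h1
  rw [coeff_C_mul, Coeff_term_two]
  have hw : 0 ≤ (∏ i ∈ T, s i) * (∏ i ∈ Tᶜ, (1 - s i)) :=
    mul_nonneg (Finset.prod_nonneg fun i _ => (hf.1 i).1)
      (Finset.prod_nonneg fun i _ => sub_nonneg.2 (hf.1 i).2)
  refine mul_le_mul_of_nonneg_left ?_ hw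
  have hT : T.card ≤ k / 2 := Coeff_card T
  have h5 : 2 * (n + T.card) + 1 + 1 ≤ k + M := by omega
  have h6 : (2 * ((n + T.card : ℕ) : ℝ) + 1) ≤ ((k + M : ℕ) : ℝ) - 1 := by
    have : ((2 * (n + T.card) + 1 + 1 : ℕ) : ℝ) ≤ ((k + M : ℕ) : ℝ) := by exact_mod_cast h5
    push_cast at this ⊢
    linarith
  have h7 : (0 : ℝ) < 2 * ((n + T.card : ℕ) : ℝ) + 1 := by positivity
  have h8 : 1 / (((k + M : ℕ) : ℝ) - 1) ≤ 1 / (2 * ((n + T.card : ℕ) : ℝ) + 1) :=
    one_div_le_one_div_of_le h7 h6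
  have h9 := mul_le_mul_of_nonneg_right h8 (Coeff_bb_nonneg (n + 1 + T.card))
  rw [div_eq_mul_one_div (bb (n + 1 + T.card)), mul_comm (bb (n + 1 + T.card))]
  linarith

/-- the second moment as a functional -/
private theorem Coeff_S (k : ℕ) (f : ℝ[X]) :
    f.sum (fun j a => a * (2 * (j : ℝ) - k) ^ 2) =
      4 * (derivative (derivative f)).eval 1 + (4 - 4 * k) * (derivative f).eval 1 +
        k ^ 2 * f.eval 1 := by
  induction f using Polynomial.induction_on' with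
  | add p q hp hq =>
    rw [Polynomial.sum_add_index, hp, hq]
    · simp only [derivative_add, eval_add]
      ring
    · intro i
      ring
    · intro i a b
      ring
  | monomial n a =>
    rw [Polynomial.sum_monomial_index]
    · rw [derivative_monomial, derivative_monomial, eval_monomial, eval_monomial, eval_monomial,
        one_pow, one_pow, one_pow]
      rcases n with _ | n
      · push_cast
        ring
      · rw [show n + 1 - 1 = n by omega]
        push_cast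
        ring
    · ring

private theorem Coeff_h_eval (b : ℕ) : ((C (1 / 2) * (1 + X) : ℝ[X]) ^ b).eval 1 = 1 := by
  rw [eval_pow, eval_mul, eval_C, eval_add, eval_one, eval_X]
  norm_num

private theorem Coeff_h_der : derivative (C (1 / 2) * (1 + X) : ℝ[X]) = C (1 / 2) := by
  rw [derivative_C_mul, derivative_add, derivative_one, derivative_X, zero_add, mul_one]

private theorem Coeff_d1 (b : ℕ) :
    (derivative ((C (1 / 2) * (1 + X) : ℝ[X]) ^ b)).eval 1 = b / 2 := by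
  rw [derivative_pow, Coeff_h_der, eval_mul, eval_mul, Coeff_h_eval, eval_C, eval_C]
  ring

private theorem Coeff_pred (b : ℕ) : (b : ℝ) * ((b - 1 : ℕ) : ℝ) = b * (b - 1) := by
  rcases b with _ | b
  · simp
  · simp

private theorem Coeff_d2 (b : ℕ) :
    (derivative (derivative ((C (1 / 2) * (1 + X) : ℝ[X]) ^ b))).eval 1 = b * (b - 1) / 4 := by
  rw [derivative_pow, Coeff_h_der, mul_assoc, mul_comm _ (C (1 / 2 : ℝ)), derivative_C_mul,
    derivative_C_mul, eval_mul, eval_mul, Coeff_d1, eval_C, eval_C, ← Coeff_pred]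
  ring

private theorem Coeff_x0 (a : ℕ) : ((X : ℝ[X]) ^ a).eval 1 = 1 := by
  rw [eval_pow, eval_X, one_pow]

private theorem Coeff_x1 (a : ℕ) : (derivative ((X : ℝ[X]) ^ a)).eval 1 = a := by
  rw [derivative_X_pow, eval_mul, eval_C, eval_pow, eval_X, one_pow, mul_one]

private theorem Coeff_x2 (a : ℕ) :
    (derivative (derivative ((X : ℝ[X]) ^ a))).eval 1 = a * (a - 1) := by
  rw [derivative_X_pow, derivative_C_mul, eval_mul, eval_C, Coeff_x1, Coeff_pred]

private theorem Coeff_S_term (k a b : ℕ) (hk : k = 2 * a + b) :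
    4 * (derivative (derivative ((X : ℝ[X]) ^ a * (C (1 / 2) * (1 + X)) ^ b))).eval 1 +
      (4 - 4 * (k : ℝ)) * (derivative ((X : ℝ[X]) ^ a * (C (1 / 2) * (1 + X)) ^ b)).eval 1 +
        (k : ℝ) ^ 2 * ((X : ℝ[X]) ^ a * (C (1 / 2) * (1 + X)) ^ b).eval 1 = b := by
  rw [derivative_mul, derivative_add, derivative_mul, derivative_mul]
  simp only [eval_add, eval_mul, Coeff_x2, Coeff_x1, Coeff_d2, Coeff_d1, Coeff_h_eval, Coeff_x0]
  rw [hk]
  push_cast
  ring

private theorem Coeff_w_sum {K : ℕ} (s : Fin K → ℝ) :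
    ∑ T : Finset (Fin K), (∏ i ∈ T, s i) * (∏ i ∈ Tᶜ, (1 - s i)) = 1 := by
  have h1 : ∏ i : Fin K, (s i + (1 - s i)) = 1 := by
    refine Finset.prod_eq_one fun i _ => ?_
    ring
  rw [Finset.prod_add, Finset.powerset_univ] at h1
  refine Eq.trans (Finset.sum_congr rfl fun T _ => ?_) h1
  rw [← Finset.compl_eq_univ_sdiff]

private theorem Coeff_w_card {K : ℕ} (s : Fin K → ℝ) :
    ∑ T : Finset (Fin K), (∏ i ∈ T, s i) * (∏ i ∈ Tᶜ, (1 - s i)) * (T.card : ℝ) = ∑ i, s i := by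
  have h1 : ∏ i, (C (s i) * X + C (1 - s i)) =
      ∑ T : Finset (Fin K), C ((∏ i ∈ T, s i) * (∏ i ∈ Tᶜ, (1 - s i))) * X ^ T.card := by
    rw [Finset.prod_add, Finset.powerset_univ]
    refine Finset.sum_congr rfl fun T _ => ?_
    rw [← Finset.compl_eq_univ_sdiff, Finset.prod_mul_distrib, Finset.prod_const, C_mul,
      map_prod, map_prod]
    ring
  have h2 := congrArg (fun p : ℝ[X] => (derivative p).eval 1) h1
  simp only [derivative_sum, eval_finsetSum, derivative_C_mul, eval_mul, eval_C, Coeff_x1] at h2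
  rw [← h2, derivative_prod_finset, eval_finsetSum]
  refine Finset.sum_congr rfl fun i _ => ?_
  rw [eval_mul, eval_prod, Finset.prod_eq_one]
  · simp
  · intro j _
    simp

/-- second moment of `2 j - k` -/
theorem second_moment {k : ℕ} {f : ℝ[X]} {s : Fin (k / 2) → ℝ} (hf : Factor k f s) :
    f.sum (fun j a => a * (2 * (j : ℝ) - k) ^ 2) = f.eval 1 * (2 * ∑ i, s i + (k % 2 : ℕ)) := by
  have h4 : f = C (f.eval 1) * ∑ T : Finset (Fin (k / 2)),
      C ((∏ i ∈ T, s i) * (∏ i ∈ Tᶜ, (1 - s i))) *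
        (X ^ (k / 2 - T.card) * (C (1 / 2) * (1 + X)) ^ (2 * T.card + k % 2)) := by
    conv_lhs => rw [hf.2]
    rw [Coeff_expand, Finset.mul_sum, Finset.mul_sum]
    refine Finset.sum_congr rfl fun T _ => ?_
    rw [pow_add (C (1 / 2) * (1 + X))]
    ring
  have key : ∀ c : ℝ, (C c * ∑ T : Finset (Fin (k / 2)),
      C ((∏ i ∈ T, s i) * (∏ i ∈ Tᶜ, (1 - s i))) *
        (X ^ (k / 2 - T.card) * (C (1 / 2) * (1 + X)) ^ (2 * T.card + k % 2))).sum
        (fun j a => a * (2 * (j : ℝ) - k) ^ 2) = c * (2 * ∑ i, s i + (k % 2 : ℕ)) := by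
    intro c
    rw [Coeff_S]
    simp only [derivative_C_mul, derivative_sum, eval_C_mul, eval_finsetSum]
    have h5 : ∀ T : Finset (Fin (k / 2)), _ := fun T =>
      Coeff_S_term k (k / 2 - T.card) (2 * T.card + k % 2) (by
        have := Coeff_card T
        omega)
    have h6 : c * (2 * ∑ i, s i + (k % 2 : ℕ)) = ∑ T : Finset (Fin (k / 2)),
        c * (((∏ i ∈ T, s i) * (∏ i ∈ Tᶜ, (1 - s i))) * ((2 * T.card + k % 2 : ℕ) : ℝ)) := by
      rw [← Finset.mul_sum]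
      congr 1
      have h7 : ∀ T : Finset (Fin (k / 2)), ((∏ i ∈ T, s i) * (∏ i ∈ Tᶜ, (1 - s i))) *
          ((2 * T.card + k % 2 : ℕ) : ℝ) = 2 * ((∏ i ∈ T, s i) * (∏ i ∈ Tᶜ, (1 - s i)) *
            (T.card : ℝ)) + (k % 2 : ℕ) * ((∏ i ∈ T, s i) * (∏ i ∈ Tᶜ, (1 - s i))) := by
        intro T
        push_cast
        ring
      rw [Finset.sum_congr rfl fun T _ => h7 T, Finset.sum_add_distrib, ← Finset.mul_sum,
        ← Finset.mul_sum, Coeff_w_card, Coeff_w_sum, mul_one]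
    rw [h6]
    simp only [Finset.mul_sum]
    rw [← Finset.sum_add_distrib, ← Finset.sum_add_distrib]
    refine Finset.sum_congr rfl fun T _ => ?_
    rw [← h5 T]
    ring
  refine Eq.trans ?_ (key (f.eval 1))
  rw [← h4]

end MP_a3e05c_co.KL
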