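import Mathlib

/-!
# EULER, key lemma: definitions

A finite multigraph without loops is given by a map `hd : E → Bool → V` (the two ends
`hd e true`, `hd e false` of the edge `e`).  An orientation is a map `ω : E → Bool`; the head of
the edge `e` is `hd e (ω e)`, its tail is `hd e (!ω e)`.
-/

open Finset Polynomial

namespace MP_a3e05c_co.KL

variable {V E : Type} [DecidableEq V] [Fintype E] [DecidableEq E]

/-- sign of the edge `e` at the vertex `v`: `1` at the head, `-1` at the tail, `0` elsewhere -/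
def sg (hd : E → Bool → V) (ω : E → Bool) (v : V) (e : E) : ℤ :=
  if hd e (ω e) = v then 1 else if hd e (!ω e) = v then -1 else 0

/-- the orientation `ω` is balanced at `v` -/
def Bal (hd : E → Bool → V) (ω : E → Bool) (v : V) : Prop := ∑ e, sg hd ω v e = 0

instance (hd : E → Bool → V) (ω : E → Bool) (v : V) : Decidable (Bal hd ω v) :=
  inferInstanceAs (Decidable (∑ e, sg hd ω v e = 0))

/-- orientations balanced at every vertex of `A` -/
def Om (hd : E → Bool → V) (A : Finset V) : Finset (E → Bool) :=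
  univ.filter fun ω => ∀ v ∈ A, Bal hd ω v

/-- the edges between `w` and `A` -/
def btw (hd : E → Bool → V) (A : Finset V) (w : V) : Finset E :=
  univ.filter fun e => ∃ b, hd e b = w ∧ hd e (!b) ∈ A

/-- the edges at `w` whose other end is not in `A` -/
def frees (hd : E → Bool → V) (A : Finset V) (w : V) : Finset E :=
  univ.filter fun e => ∃ b, hd e b = w ∧ hd e (!b) ∉ A

/-- degree -/
def deg (hd : E → Bool → V) (v : V) : ℕ := (univ.filter fun e => ∃ b, hd e b = v).card

/-- no loops -/
def NoLoop (hd : E → Bool → V) : Prop := ∀ e, hd e true ≠ hd e false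

/-- no loops and no parallel edges -/
def Simple (hd : E → Bool → V) : Prop :=
  NoLoop hd ∧ Function.Injective fun e => s(hd e true, hd e false)

/-- number of edges coming from `A` with head `w` -/
def jw (hd : E → Bool → V) (A : Finset V) (w : V) (ω : E → Bool) : ℕ :=
  (univ.filter fun e => hd e (ω e) = w ∧ hd e (!ω e) ∈ A).card

/-- in-degree -/
def indeg (hd : E → Bool → V) (ω : E → Bool) (w : V) : ℕ :=
  (univ.filter fun e => hd e (ω e) = w).card

/-- generating polynomial of `jw` over the orientations balanced on `A` -/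
noncomputable def ff (hd : E → Bool → V) (A : Finset V) (w : V) : ℝ[X] :=
  ∑ ω ∈ Om hd A, X ^ jw hd A w ω

/-- probability that `2 n` fair signs have sum `0` -/
noncomputable def bb (n : ℕ) : ℝ := (Nat.centralBinom n : ℝ) / 4 ^ n

/-- `E bb (n + m)`, `m` a sum of independent Bernoulli variables of parameters `s i` -/
noncomputable def PB {K : ℕ} (s : Fin K → ℝ) (n : ℕ) : ℝ :=
  ∑ T : Finset (Fin K), (∏ i ∈ T, s i) * (∏ i ∈ Tᶜ, (1 - s i)) * bb (n + T.card)

/-- the same for `K` equal parameters `σ` -/
noncomputable def BN (K : ℕ) (σ : ℝ) (n : ℕ) : ℝ :=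
  ∑ m ∈ range (K + 1), (K.choose m : ℝ) * (1 - σ) ^ (K - m) * σ ^ m * bb (n + m)

/-- the bound of the key lemma: `k` neighbours in the balanced set, `M` free edges, variance `v` -/
noncomputable def FF (k M : ℕ) (v : ℝ) : ℝ :=
  BN (k / 2) ((v - (k % 2 : ℕ)) / (2 * (k / 2 : ℕ))) ((M + k % 2) / 2)

/-- the factorisation of a palindromic polynomial with roots in `(-∞, 0]` -/
def Factor (k : ℕ) (f : ℝ[X]) (s : Fin (k / 2) → ℝ) : Prop :=
  (∀ i, 0 ≤ s i ∧ s i ≤ 1) ∧
    f = C (f.eval 1) * (C (1 / 2) * (1 + X)) ^ (k % 2) *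
      ∏ i, (C (1 - s i) * X + C (s i) * (C (1 / 2) * (1 + X)) ^ 2)

theorem mem_Om {hd : E → Bool → V} {A : Finset V} {ω : E → Bool} :
    ω ∈ Om hd A ↔ ∀ v ∈ A, Bal hd ω v := by
  simp [Om]

end MP_a3e05c_co.KL
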