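import Pool.Agent.Lib.MP_a3e05c_co.KL.Defs

/-!
# EULER, key lemma: exchangeability of the free edges at a balanced vertex
-/

open Finset

namespace MP_a3e05c_co.KL

variable {V E : Type} [DecidableEq V] [Fintype E] [DecidableEq E]

omit [Fintype E] [DecidableEq E] in
private lemma Exch_sg_self {hd : E → Bool → V} (hl : NoLoop hd) {u : V} {e : E} {b : Bool}
    (hb : hd e b = u) (ω : E → Bool) : sg hd ω u e = if ω e = b then 1 else -1 := by
  have h1 : hd e (!b) ≠ u := by
    intro h
    apply hl e
    cases b
    · exact h.trans hb.symm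
    · exact hb.trans h.symm
  unfold sg
  by_cases h : ω e = b
  · rw [h, if_pos hb, if_pos rfl]
  · have h2 : ω e = !b := by
      cases b <;> cases hω : ω e <;> simp_all
    rw [h2, if_neg h1, Bool.not_not, if_pos hb, if_neg]
    intro h3
    cases b <;> simp at h3

omit [Fintype E] [DecidableEq E] in
private lemma Exch_sg_other {hd : E → Bool → V} {a : V} {e : E} {b : Bool}
    (hb : hd e b ≠ a) (hb2 : hd e (!b) ≠ a) (ω : E → Bool) : sg hd ω a e = 0 := by
  have h1 : ∀ c, hd e c ≠ a := by
    intro c
    cases b <;> cases c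
    · exact hb
    · exact hb2
    · exact hb2
    · exact hb
  unfold sg
  rw [if_neg (h1 _), if_neg (h1 _)]

/-- exchange of the signs of `e` and `e'` -/
private def Exch_phi (e e' : E) (b b' : Bool) (ω : E → Bool) : E → Bool := fun x =>
  if x = e then (if ω e' = b' then b else !b) else if x = e' then (if ω e = b then b' else !b')
  else ω x

/-- Exchanging the signs (at `u`) of two free edges `e`, `e'` at `u ∈ A` maps `Om hd A` to itself;
the sign of any other edge is unchanged. -/
theorem sum_exch {hd : E → Bool → V} (hl : NoLoop hd) {A : Finset V} {u v : V} (hu : u ∈ A)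
    (hv : v ∈ A) (huv : u ≠ v) {e e' f : E} (he : e ∈ frees hd A u) (he' : e' ∈ frees hd A u)
    (hf : f ∈ frees hd A v) :
    ∑ ω ∈ Om hd A, sg hd ω u e * sg hd ω v f = ∑ ω ∈ Om hd A, sg hd ω u e' * sg hd ω v f := by
  by_cases hee : e = e'
  · rw [hee]
  unfold frees at he he'
  rw [mem_filter] at he he'
  obtain ⟨-, b, hb, hbA⟩ := he
  obtain ⟨-, b', hb', hbA'⟩ := he'
  have hne' : e' ≠ e := fun h => hee h.symm
  have hpe : ∀ ω, Exch_phi e e' b b' ω e = if ω e' = b' then b else !b := by
    intro ω
    unfold Exch_phi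
    rw [if_pos rfl]
  have hpe' : ∀ ω, Exch_phi e e' b b' ω e' = if ω e = b then b' else !b' := by
    intro ω
    unfold Exch_phi
    rw [if_neg hne', if_pos rfl]
  have hpx : ∀ ω x, x ≠ e → x ≠ e' → Exch_phi e e' b b' ω x = ω x := by
    intro ω x h1 h2
    unfold Exch_phi
    rw [if_neg h1, if_neg h2]
  have hinv : ∀ ω, Exch_phi e e' b b' (Exch_phi e e' b b' ω) = ω := by
    intro ω
    funext x
    by_cases h1 : x = e
    · subst h1
      rw [hpe, hpe']
      cases b <;> cases b' <;> cases h : ω x <;> simp
    · by_cases h2 : x = e'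
      · subst h2
        rw [hpe', hpe]
        cases b <;> cases b' <;> cases h : ω x <;> simp
      · rw [hpx _ _ h1 h2, hpx _ _ h1 h2]
  -- signs at `u`
  have hsu : ∀ ω x, sg hd (Exch_phi e e' b b' ω) u x = sg hd ω u (Equiv.swap e e' x) := by
    intro ω x
    by_cases h1 : x = e
    · subst h1
      rw [Equiv.swap_apply_left, Exch_sg_self hl hb, Exch_sg_self hl hb', hpe]
      cases b <;> cases b' <;> cases h : ω e' <;> simp
    · by_cases h2 : x = e'
      · subst h2
        rw [Equiv.swap_apply_right, Exch_sg_self hl hb, Exch_sg_self hl hb', hpe']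
        cases b <;> cases b' <;> cases h : ω e <;> simp
      · rw [Equiv.swap_apply_of_ne_of_ne h1 h2]
        unfold sg
        rw [hpx _ _ h1 h2]
  -- signs at the other vertices
  have hsa : ∀ a ∈ A, a ≠ u → ∀ ω x, sg hd (Exch_phi e e' b b' ω) a x = sg hd ω a x := by
    intro a ha hau ω x
    by_cases h1 : x = e
    · subst h1
      have h3 : hd x b ≠ a := by
        rw [hb]
        exact fun h => hau h.symm
      have h4 : hd x (!b) ≠ a := by
        intro h
        rw [h] at hbA
        exact hbA ha
      rw [Exch_sg_other h3 h4, Exch_sg_other h3 h4]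
    · by_cases h2 : x = e'
      · subst h2
        have h3 : hd x b' ≠ a := by
          rw [hb']
          exact fun h => hau h.symm
        have h4 : hd x (!b') ≠ a := by
          intro h
          rw [h] at hbA'
          exact hbA' ha
        rw [Exch_sg_other h3 h4, Exch_sg_other h3 h4]
      · unfold sg
        rw [hpx _ _ h1 h2]
  have hOm : ∀ ω ∈ Om hd A, Exch_phi e e' b b' ω ∈ Om hd A := by
    intro ω hω
    rw [mem_Om] at hω ⊢
    intro a ha
    have h1 := hω a ha
    unfold Bal at h1 ⊢
    by_cases hau : a = u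
    · subst hau
      rw [sum_congr rfl fun x _ => hsu ω x]
      exact (Equiv.sum_comp (Equiv.swap e e') (fun x => sg hd ω a x)).trans h1
    · rw [sum_congr rfl fun x _ => hsa a ha hau ω x]
      exact h1
  refine sum_nbij' (Exch_phi e e' b b') (Exch_phi e e' b b') hOm hOm (fun ω _ => hinv ω)
    (fun ω _ => hinv ω) (fun ω _ => ?_)
  rw [hsa v hv (fun h => huv h.symm) ω f, hsu ω e', Equiv.swap_apply_right]

end MP_a3e05c_co.KL
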