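import Pool.Agent.Lib.MP_a3e05c_co.KL.VarLow
import Pool.Agent.Lib.MP_a3e05c_co.KL.AmGm

/-!
# EULER: the key lemma
-/

open Finset

namespace MP_a3e05c_co.KL

variable {V E : Type} [Fintype V] [DecidableEq V] [Fintype E] [DecidableEq E]

/-- `ρ(d,j) = (j-1)/((d-1)(d-j+1))` -/
noncomputable def rho (d j : ℕ) : ℝ := ((j : ℝ) - 1) / (((d : ℝ) - 1) * ((d : ℝ) - j + 1))

private theorem Key_sym {hd : E → Bool → V} {e : E} {b : Bool} {u w : V} (h1 : hd e b = u)
    (h2 : hd e (!b) = w) : s(hd e true, hd e false) = s(u, w) := by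
  cases b
  · rw [← h1, ← h2]
    exact Sym2.eq_swap
  · rw [← h1, ← h2]
    rfl

private theorem Key_btw {hd : E → Bool → V} (hs : Simple hd) {A : Finset V} {u w : V} (hw : w ∉ A)
    (h : ∃ e b, hd e b = w ∧ hd e (!b) = u) :
    (btw hd (insert w A) u).card = (btw hd A u).card + 1 := by
  obtain ⟨e₀, b₀, h1, h2⟩ := h
  have he₀ : ∀ e : E, (∃ b, hd e b = u ∧ hd e (!b) = w) ↔ e = e₀ := by
    intro e
    constructor
    · rintro ⟨b, h3, h4⟩
      apply hs.2
      show s(hd e true, hd e false) = s(hd e₀ true, hd e₀ false)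
      rw [Key_sym h3 h4, Key_sym h1 h2]
      exact Sym2.eq_swap
    · rintro rfl
      exact ⟨!b₀, h2, by rw [Bool.not_not]; exact h1⟩
  have hnot : e₀ ∉ btw hd A u := by
    intro h3
    rw [btw, mem_filter] at h3
    obtain ⟨-, b, h4, h5⟩ := h3
    obtain ⟨b', h6, h7⟩ := (he₀ e₀).2 rfl
    have hl := hs.1 e₀
    by_cases hb : b = b'
    · rw [hb, h7] at h5
      exact hw h5
    · have hb' : b' = !b := by
        cases b <;> cases b' <;> simp_all
      rw [hb', ← h4] at h6
      cases b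
      · exact hl h6
      · exact hl h6.symm
  have heq : btw hd (insert w A) u = insert e₀ (btw hd A u) := by
    ext e
    rw [mem_insert, btw, btw, mem_filter, mem_filter, ← he₀ e]
    constructor
    · rintro ⟨-, b, h3, h4⟩
      rcases mem_insert.1 h4 with h5 | h5
      · exact Or.inl ⟨b, h3, h5⟩
      · exact Or.inr ⟨mem_univ _, b, h3, h5⟩
    · rintro (⟨b, h3, h4⟩ | ⟨-, b, h3, h4⟩)
      · exact ⟨mem_univ _, b, h3, mem_insert.2 (Or.inl h4)⟩
      · exact ⟨mem_univ _, b, h3, mem_insert.2 (Or.inr h4)⟩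
  rw [heq, card_insert_of_notMem hnot]

/-- **Key lemma.**  `N(A ∪ {w}) ≤ F_{k,M}(V) N(A)`, `V = k - ∑_{u ~ w, u ∈ A} ρ(d_u, k_u)`, where
`k_u` is the number of neighbours of `u` in `A ∪ {w}`. -/
theorem key {hd : E → Bool → V} (hs : Simple hd) {A : Finset V} {w : V} (hw : w ∉ A)
    (hev : ∀ v, Even (deg hd v)) :
    ((Om hd (insert w A)).card : ℝ) ≤
      FF (btw hd A w).card (frees hd A w).card
        ((btw hd A w).card - ∑ u ∈ A.filter (fun u => ∃ e b, hd e b = w ∧ hd e (!b) = u),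
          rho (deg hd u) (btw hd (insert w A) u).card) * (Om hd A).card := by
  rcases (Om hd A).eq_empty_or_nonempty with hemp | hne
  · have h1 : Om hd (insert w A) = ∅ := by
      rw [eq_empty_iff_forall_notMem]
      intro ω hω
      have h2 : ω ∈ Om hd A := mem_Om.2 fun v hv => mem_Om.1 hω v (mem_insert_of_mem hv)
      rw [hemp] at h2
      exact notMem_empty _ h2
    rw [h1, hemp]
    simp
  · obtain ⟨s, hsf⟩ := ff_factor hs.1 hw hne
    have hN : (0 : ℝ) < (Om hd A).card := by exact_mod_cast card_pos.2 hne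
    have hsum : ∑ u ∈ A.filter (fun u => ∃ e b, hd e b = w ∧ hd e (!b) = u),
        rho (deg hd u) (btw hd (insert w A) u).card =
        ∑ u ∈ A.filter (fun u => ∃ e b, hd e b = w ∧ hd e (!b) = u),
          lossL (deg hd u) (frees hd A u).card := by
      refine sum_congr rfl fun u hu => ?_
      have h1 := Key_btw hs hw (mem_filter.1 hu).2
      have h2 := deg_eq hs.1 A u
      unfold rho lossL
      rw [h1, h2]
      push_cast
      congr 1
      · ring
      · ring
    rw [hsum, card_insert hs.1 hw (hev w) hsf, mul_comm]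
    refine mul_le_mul_of_nonneg_right ?_ hN.le
    unfold FF
    refine pb_le_bn s hsf.1 _ _ ?_
    have hv := var_ge hs hw hev
    rw [var_eq hs.1 hw hsf, mul_comm] at hv
    have hv2 := le_of_mul_le_mul_left hv hN
    by_cases hk : (btw hd A w).card / 2 = 0
    · have hk0 : ((((btw hd A w).card / 2 : ℕ)) : ℝ) = 0 := by rw [hk]; simp
      have hs0 : 0 ≤ ∑ i, s i := sum_nonneg fun i _ => (hsf.1 i).1
      rw [hk0, zero_mul]
      exact hs0
    · have hkp : (0 : ℝ) < (((btw hd A w).card / 2 : ℕ) : ℝ) := by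
        exact_mod_cast Nat.pos_of_ne_zero hk
      rw [← mul_div_assoc, mul_comm (2 : ℝ), mul_div_mul_left _ _ hkp.ne',
        div_le_iff₀ (by norm_num : (0 : ℝ) < 2)]
      linarith

end MP_a3e05c_co.KL
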