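import Pool.Agent.Lib.MP_a3e05c_co.KL.Defs

/-!
# EULER, key lemma: palindromic polynomials with roots in `(-∞, 0]`
-/

open Polynomial

namespace MP_a3e05c_co.KL

/-- the quadratic factor -/
private noncomputable def PalinQ (s : ℝ) : ℝ[X] :=
  C (1 - s) * X + C s * (C (1 / 2) * (1 + X)) ^ 2

private theorem PalinQ_eq (s : ℝ) :
    PalinQ s = C (s / 4) * X ^ 0 + C (1 - s / 2) * X ^ 1 + C (s / 4) * X ^ 2 := by
  refine Polynomial.funext fun x => ?_
  unfold PalinQ
  simp only [eval_add, eval_mul, eval_C, eval_X, eval_pow, eval_one]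
  ring

private theorem PalinQ_reflect (s : ℝ) : reflect 2 (PalinQ s) = PalinQ s := by
  have h0 : revAt 2 0 = 2 := revAt_le (by norm_num)
  have h1 : revAt 2 1 = 1 := revAt_le (by norm_num)
  have h2 : revAt 2 2 = 0 := revAt_le (by norm_num)
  rw [PalinQ_eq, reflect_add, reflect_add, reflect_C_mul_X_pow, reflect_C_mul_X_pow,
    reflect_C_mul_X_pow, h0, h1, h2]
  ring

private theorem PalinQ_natDegree (s : ℝ) : (PalinQ s).natDegree ≤ 2 := by
  rw [PalinQ_eq]
  compute_degree

private theorem PalinQ_eval_one (s : ℝ) : (PalinQ s).eval 1 = 1 := by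
  rw [PalinQ_eq]
  simp only [eval_add, eval_mul, eval_C, eval_X, eval_pow, one_pow, mul_one]
  ring

private theorem Palin_cancel {a b : ℕ} {g h : ℝ[X]} (hg : g ≠ 0) (hga : g.natDegree ≤ a)
    (hgr : reflect a g = g) (hhb : h.natDegree ≤ b) (hf : reflect (a + b) (g * h) = g * h) :
    reflect b h = h := by
  rw [reflect_mul g h hga hhb, hgr] at hf
  exact mul_left_cancel₀ hg hf

private theorem Palin_eval_inv {N : ℕ} {f : ℝ[X]} (hd : f.natDegree ≤ N) (hr : reflect N f = f)
    {x : ℝ} (hx : x ≠ 0) : f.eval x⁻¹ * x ^ N = f.eval x := by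
  have := invertibleOfNonzero hx
  have h := eval₂_reflect_mul_pow (RingHom.id ℝ) x N f hd
  rw [hr, invOf_eq_inv, eval₂_id, eval₂_id] at h
  exact h

private theorem Palin_neg_one {N : ℕ} (hN : Odd N) {f : ℝ[X]} (hd : f.natDegree ≤ N)
    (hr : reflect N f = f) : f.eval (-1) = 0 := by
  have h := Palin_eval_inv hd hr (x := -1) (by norm_num)
  rw [hN.neg_one_pow] at h
  have h2 : ((-1 : ℝ))⁻¹ = -1 := by norm_num
  rw [h2] at h
  linarith

private theorem Palin_onex_reflect : reflect 1 (X - C (-1) : ℝ[X]) = X - C (-1) := by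
  have h0 : revAt 1 0 = 1 := revAt_le (by norm_num)
  have h1 : revAt 1 1 = 0 := revAt_le (by norm_num)
  have h2 : (X - C (-1) : ℝ[X]) = C 1 * X ^ 0 + C 1 * X ^ 1 := by
    refine Polynomial.funext fun x => ?_
    simp only [eval_add, eval_sub, eval_mul, eval_C, eval_X, eval_pow]
    ring
  rw [h2, reflect_add, reflect_C_mul_X_pow, reflect_C_mul_X_pow, h0, h1]
  ring

/-- a real negative root -/
private theorem Palin_root {f : ℝ[X]} (h0 : f.coeff 0 ≠ 0) (hd : f.natDegree ≠ 0)
    (hr : ∀ z : ℂ, aeval z f = 0 → z.im = 0 ∧ z.re ≤ 0) : ∃ x : ℝ, x < 0 ∧ f.eval x = 0 := by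
  have hdeg : f.degree ≠ 0 := by
    intro h
    exact hd (natDegree_eq_of_degree_eq_some h)
  obtain ⟨z, hz⟩ := IsAlgClosed.exists_aeval_eq_zero ℂ f hdeg
  obtain ⟨h1, h2⟩ := hr z hz
  have h3 : z = algebraMap ℝ ℂ z.re := by
    apply Complex.ext
    · simp
    · simp [h1]
  rw [h3, aeval_algebraMap_apply] at hz
  have h4 : f.eval z.re = 0 := by
    have h5 : aeval z.re f = f.eval z.re := by
      rw [aeval_def, eval₂_eq_eval_map, Algebra.algebraMap_self, Polynomial.map_id]
    rw [← h5]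
    exact (map_eq_zero _).1 hz
  refine ⟨z.re, lt_of_le_of_ne h2 ?_, h4⟩
  intro h6
  rw [h6, ← coeff_zero_eq_eval_zero] at h4
  exact h0 h4

/-- splitting off a quadratic factor -/
private theorem Palin_split {m : ℕ} {f : ℝ[X]} (h0 : f ≠ 0) (hd : f.natDegree ≤ 2 * (m + 1))
    (hrf : reflect (2 * (m + 1)) f = f) (hr : ∀ z : ℂ, aeval z f = 0 → z.im = 0 ∧ z.re ≤ 0) :
    ∃ (s : ℝ) (h : ℝ[X]), 0 ≤ s ∧ s ≤ 1 ∧ f = PalinQ s * h ∧ h.natDegree ≤ 2 * m := by
  have hlead : f.coeff (2 * (m + 1)) = f.coeff 0 := by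
    have h1 : (reflect (2 * (m + 1)) f).coeff 0 = f.coeff (2 * (m + 1)) := by
      rw [coeff_reflect, revAt_le (Nat.zero_le _), Nat.sub_zero]
    rw [← h1, hrf]
  by_cases hc : f.coeff 0 = 0
  · obtain ⟨h, rfl⟩ := X_dvd_iff.2 hc
    have hh : h ≠ 0 := right_ne_zero_of_mul h0
    refine ⟨0, h, le_refl 0, zero_le_one, ?_, ?_⟩
    · congr 1
      unfold PalinQ
      rw [sub_zero, C_1, C_0, one_mul, zero_mul, add_zero]
    · rw [natDegree_X_mul hh] at hd
      by_contra hlt
      have h3 : h.natDegree = 2 * m + 1 := by omega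
      have h4 : (X * h).coeff (2 * (m + 1)) = h.coeff (2 * m + 1) := by
        have : 2 * (m + 1) = (2 * m + 1) + 1 := by ring
        rw [this, coeff_X_mul]
      rw [h4, hc, ← h3] at hlead
      exact hh (leadingCoeff_eq_zero.1 hlead)
  · have hnd : f.natDegree = 2 * (m + 1) := by
      refine le_antisymm hd (le_natDegree_of_ne_zero ?_)
      rw [hlead]
      exact hc
    obtain ⟨x, hx, hfx⟩ := Palin_root hc (by omega) hr
    have hx0 : x ≠ 0 := hx.ne
    obtain ⟨g, hg⟩ := dvd_iff_isRoot.2 (show f.IsRoot x from hfx)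
    have hg0 : g ≠ 0 := by
      rintro rfl
      rw [mul_zero] at hg
      exact h0 hg
    have hgd : g.natDegree = 2 * m + 1 := by
      have h1 : f.natDegree = 1 + g.natDegree := by
        rw [hg, natDegree_mul (X_sub_C_ne_zero x) hg0, natDegree_X_sub_C]
      omega
    have hgx : g.eval x⁻¹ = 0 := by
      by_cases h1 : x = -1
      · have h2 : ((-1 : ℝ))⁻¹ = -1 := by norm_num
        rw [h1, h2]
        refine Palin_neg_one (N := 2 * m + 1) ⟨m, rfl⟩ hgd.le ?_
        rw [h1] at hg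
        refine Palin_cancel (a := 1) (X_sub_C_ne_zero (-1)) ?_ Palin_onex_reflect hgd.le ?_
        · rw [natDegree_X_sub_C]
        · rw [← hg]
          have h3 : 1 + (2 * m + 1) = 2 * (m + 1) := by ring
          rw [h3]
          exact hrf
      · have h2 := Palin_eval_inv hd hrf hx0
        rw [hfx] at h2
        have h3 : f.eval x⁻¹ = 0 := by
          rcases mul_eq_zero.1 h2 with h | h
          · exact h
          · exact absurd h (pow_ne_zero _ hx0)
        rw [hg, eval_mul, eval_sub, eval_X, eval_C] at h3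
        rcases mul_eq_zero.1 h3 with h | h
        · exfalso
          have h4 : x⁻¹ = x := by linarith
          have h5 : x * x = 1 := by
            nth_rewrite 1 [← h4]
            exact inv_mul_cancel₀ hx0
          have h6 : (x + 1) * (x - 1) = 0 := by linear_combination h5
          rcases mul_eq_zero.1 h6 with h7 | h7
          · exact h1 (by linarith)
          · linarith
        · exact h
    obtain ⟨h', hh'⟩ := dvd_iff_isRoot.2 (show g.IsRoot x⁻¹ from hgx)
    have hh0 : h' ≠ 0 := by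
      rintro rfl
      rw [mul_zero] at hh'
      exact hg0 hh'
    have hhd : h'.natDegree = 2 * m := by
      have h1 : g.natDegree = 1 + h'.natDegree := by
        rw [hh', natDegree_mul (X_sub_C_ne_zero _) hh0, natDegree_X_sub_C]
      omega
    have hden : 4 ≤ 2 - x - x⁻¹ := by
      have h1 : -x⁻¹ = (-x)⁻¹ := (inv_neg).symm
      have h2 : 0 < -x := by linarith
      have h3 : 2 ≤ -x + (-x)⁻¹ := by
        have h4 : -x + (-x)⁻¹ - 2 = (-x - 1) ^ 2 / (-x) := by
          field_simp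
          ring
        have h5 : 0 ≤ (-x - 1) ^ 2 / (-x) := by positivity
        linarith
      linarith
    have hden0 : (2 - x - x⁻¹) ≠ 0 := by linarith
    refine ⟨4 / (2 - x - x⁻¹), C (2 - x - x⁻¹) * h', by positivity, ?_, ?_, ?_⟩
    · rw [div_le_one (by linarith)]
      exact hden
    · rw [hg, hh']
      refine Polynomial.funext fun y => ?_
      rw [PalinQ_eq]
      simp only [eval_add, eval_sub, eval_mul, eval_C, eval_X, eval_pow]
      have e0 : ∀ d : ℝ, d ≠ 0 → (4 / d / 4) * d = 1 ∧ (1 - 4 / d / 2) * d = d - 2 := by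
        intro d hd'
        constructor
        · field_simp
        · field_simp
          ring
      have e1 : (4 / (2 - x - x⁻¹) / 4) * (2 - x - x⁻¹) = 1 := (e0 _ hden0).1
      have e2 : (1 - 4 / (2 - x - x⁻¹) / 2) * (2 - x - x⁻¹) = -x - x⁻¹ := by
        rw [(e0 _ hden0).2]
        ring
      have e3 : x * x⁻¹ = 1 := mul_inv_cancel₀ hx0
      have e4 : (y - x) * ((y - x⁻¹) * eval y h') =
          (1 + (-x - x⁻¹) * y + y ^ 2) * eval y h' := by
        linear_combination (eval y h') * e3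
      rw [e4, ← e2]
      linear_combination (-(1 + y ^ 2) * eval y h') * e1
    · exact (natDegree_C_mul_le _ _).trans hhd.le

private theorem Palin_even (m : ℕ) : ∀ f : ℝ[X], f ≠ 0 → f.natDegree ≤ 2 * m →
    reflect (2 * m) f = f → (∀ z : ℂ, aeval z f = 0 → z.im = 0 ∧ z.re ≤ 0) →
    ∃ s : Fin m → ℝ, (∀ i, 0 ≤ s i ∧ s i ≤ 1) ∧ f = C (f.eval 1) * ∏ i, PalinQ (s i) := by
  induction m with
  | zero =>
    intro f h0 hd hrf hr
    refine ⟨Fin.elim0, fun i => i.elim0, ?_⟩
    rw [Finset.univ_eq_empty, Finset.prod_empty, mul_one]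
    obtain ⟨a, rfl⟩ : ∃ a, f = C a := ⟨_, eq_C_of_natDegree_le_zero (by simpa using hd)⟩
    rw [eval_C]
  | succ m ih =>
    intro f h0 hd hrf hr
    obtain ⟨s, h, hs0, hs1, hf, hhd⟩ := Palin_split h0 hd hrf hr
    have hq0 : PalinQ s ≠ 0 := by
      intro h1
      rw [h1, zero_mul] at hf
      exact h0 hf
    have hh0 : h ≠ 0 := by
      intro h1
      rw [h1, mul_zero] at hf
      exact h0 hf
    have hhr : reflect (2 * m) h = h := by
      refine Palin_cancel hq0 (PalinQ_natDegree s) (PalinQ_reflect s) hhd ?_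
      rw [← hf]
      have h3 : 2 + 2 * m = 2 * (m + 1) := by ring
      rw [h3]
      exact hrf
    obtain ⟨t, ht1, ht2⟩ := ih h hh0 hhd hhr fun z hz => hr z (by rw [hf, map_mul, hz, mul_zero])
    refine ⟨Fin.cons s t, ?_, ?_⟩
    · intro i
      refine Fin.cases ?_ (fun j => ?_) i
      · rw [Fin.cons_zero]
        exact ⟨hs0, hs1⟩
      · rw [Fin.cons_succ]
        exact ht1 j
    · rw [Fin.prod_univ_succ]
      simp only [Fin.cons_zero, Fin.cons_succ]
      have h1 : f.eval 1 = h.eval 1 := by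
        rw [hf, eval_mul, PalinQ_eval_one, one_mul]
      rw [h1]
      calc f = PalinQ s * h := hf
        _ = PalinQ s * (C (h.eval 1) * ∏ i, PalinQ (t i)) := by rw [← ht2]
        _ = _ := by ring

/-- Strong induction on `k`: `X * X-reversal` if `f.coeff 0 = 0` (`s = 0`), a factor `1 + X` if `k`
is odd, otherwise a root `-r` comes with `-1/r` and
`(X + r)(X + 1/r) = c * ((1 - s) X + s ((1 + X)/2)^2)`, `s = 4/(2 + r + 1/r)`. -/
theorem palin_factor (k : ℕ) (f : ℝ[X]) (h0 : f ≠ 0) (hdeg : f.natDegree ≤ k)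
    (hp : ∀ j ≤ k, f.coeff j = f.coeff (k - j))
    (hr : ∀ z : ℂ, aeval z f = 0 → z.im = 0 ∧ z.re ≤ 0) :
    ∃ s : Fin (k / 2) → ℝ, Factor k f s := by
  have hrf : reflect k f = f := by
    ext j
    rw [coeff_reflect]
    by_cases hj : j ≤ k
    · rw [revAt_le hj]
      exact (hp j hj).symm
    · rw [revAt_eq_self_of_lt (not_le.1 hj)]
  unfold Factor
  obtain ⟨m, hm | hm⟩ := k.even_or_odd'
  · have h1 : k / 2 = m := by omega
    have h2 : k % 2 = 0 := by omega
    rw [hm] at hdeg hrf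
    obtain ⟨s, hs1, hs2⟩ := Palin_even m f h0 hdeg hrf hr
    rw [h1, h2]
    refine ⟨s, hs1, ?_⟩
    rw [pow_zero, mul_one]
    exact hs2
  · have h1 : k / 2 = m := by omega
    have h2 : k % 2 = 1 := by omega
    rw [hm] at hdeg hrf
    have h3 := Palin_neg_one ⟨m, rfl⟩ hdeg hrf
    obtain ⟨g, hg⟩ := dvd_iff_isRoot.2 (show f.IsRoot (-1) from h3)
    have hg0 : g ≠ 0 := by
      rintro rfl
      rw [mul_zero] at hg
      exact h0 hg
    have hgd : g.natDegree ≤ 2 * m := by
      have h4 : f.natDegree = 1 + g.natDegree := by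
        rw [hg, natDegree_mul (X_sub_C_ne_zero _) hg0, natDegree_X_sub_C]
      omega
    have hgr : reflect (2 * m) g = g := by
      refine Palin_cancel (a := 1) (X_sub_C_ne_zero (-1)) ?_ Palin_onex_reflect hgd ?_
      · rw [natDegree_X_sub_C]
      · rw [← hg]
        have h4 : 1 + 2 * m = 2 * m + 1 := by ring
        rw [h4]
        exact hrf
    obtain ⟨s, hs1, hs2⟩ := Palin_even m g hg0 hgd hgr fun z hz =>
      hr z (by rw [hg, map_mul, hz, mul_zero])
    rw [h1, h2]
    refine ⟨s, hs1, ?_⟩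
    have h5 : f.eval 1 = 2 * g.eval 1 := by
      rw [hg, eval_mul, eval_sub, eval_X, eval_C]
      ring
    have h6 : (C (2 * g.eval 1) * (C (1 / 2) * (1 + X)) ^ 1 : ℝ[X]) =
        (X - C (-1)) * C (g.eval 1) := by
      refine Polynomial.funext fun x => ?_
      simp only [eval_add, eval_sub, eval_mul, eval_C, eval_X, eval_pow, eval_one]
      ring
    rw [h5, h6]
    calc f = (X - C (-1)) * g := hg
      _ = (X - C (-1)) * (C (g.eval 1) * ∏ i, PalinQ (s i)) := by rw [← hs2]
      _ = _ := by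
        rw [← mul_assoc]
        rfl

end MP_a3e05c_co.KL
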