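import Mathlib

/-!
# EULER, key lemma: quantitative stability (basic facts)
-/

open MvPolynomial

namespace MP_a3e05c_co.KL

variable {σ : Type}

/-- all coefficients are non-negative -/
def NN (Q : MvPolynomial σ ℝ) : Prop := ∀ d, 0 ≤ Q.coeff d

/-- quantitative stability -/
def QS (Q : MvPolynomial σ ℝ) : Prop :=
  ∀ z : σ → ℂ, (∀ i, 0 ≤ (z i).im) → eval (fun i => (z i).im) Q ≤ ‖aeval z Q‖

theorem NN.eval_nonneg {Q : MvPolynomial σ ℝ} (h : NN Q) {y : σ → ℝ} (hy : ∀ i, 0 ≤ y i) :
    0 ≤ eval y Q := by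
  rw [MvPolynomial.eval_eq]
  exact Finset.sum_nonneg fun d _ => mul_nonneg (h d)
    (Finset.prod_nonneg fun i _ => pow_nonneg (hy i) _)

theorem NN.eval_pos {Q : MvPolynomial σ ℝ} (h : NN Q) (h0 : Q ≠ 0) {y : σ → ℝ}
    (hy : ∀ i, 0 < y i) : 0 < eval y Q := by
  rw [MvPolynomial.eval_eq]
  obtain ⟨d, hd⟩ := MvPolynomial.ne_zero_iff.1 h0
  refine Finset.sum_pos' (fun d _ => mul_nonneg (h d)
    (Finset.prod_nonneg fun i _ => pow_nonneg (hy i).le _)) ⟨d, ?_, ?_⟩
  · exact MvPolynomial.mem_support_iff.2 hd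
  · exact mul_pos (lt_of_le_of_ne (h d) (Ne.symm hd))
      (Finset.prod_pos fun i _ => pow_pos (hy i) _)

theorem NN.one : NN (1 : MvPolynomial σ ℝ) := by
  classical
  intro d
  rw [MvPolynomial.coeff_one]
  split_ifs
  · exact zero_le_one
  · exact le_rfl

theorem NN.mul {P Q : MvPolynomial σ ℝ} (hP : NN P) (hQ : NN Q) : NN (P * Q) := by
  classical
  intro d
  rw [MvPolynomial.coeff_mul]
  exact Finset.sum_nonneg fun x _ => mul_nonneg (hP _) (hQ _)

theorem NN.X_add_X (a b : σ) : NN (X a + X b : MvPolynomial σ ℝ) := by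
  classical
  intro d
  rw [MvPolynomial.coeff_add, MvPolynomial.coeff_X, MvPolynomial.coeff_X]
  split_ifs <;> norm_num

theorem NN.prod {ι : Type} (s : Finset ι) (P : ι → MvPolynomial σ ℝ) (h : ∀ i ∈ s, NN (P i)) :
    NN (∏ i ∈ s, P i) := by
  classical
  induction s using Finset.induction_on with
  | empty => rw [Finset.prod_empty]; exact NN.one
  | insert a s ha ih =>
    rw [Finset.prod_insert ha]
    exact NN.mul (h a (Finset.mem_insert_self a s))
      (ih fun i hi => h i (Finset.mem_insert_of_mem hi))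

theorem NN.pderiv {Q : MvPolynomial σ ℝ} (hQ : NN Q) (i : σ) : NN (pderiv i Q) := by
  classical
  intro d
  rw [MvPolynomial.coeff_pderiv]
  exact mul_nonneg (hQ _) (by positivity)

theorem QS.one : QS (1 : MvPolynomial σ ℝ) := by
  intro z _
  rw [map_one, map_one, norm_one]

theorem QS.X_add_X (a b : σ) : QS (X a + X b : MvPolynomial σ ℝ) := by
  intro z hz
  rw [map_add, map_add, MvPolynomial.eval_X, MvPolynomial.eval_X, MvPolynomial.aeval_X,
    MvPolynomial.aeval_X, ← Complex.add_im]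
  exact (le_abs_self _).trans (Complex.abs_im_le_norm _)

theorem QS.mul {P Q : MvPolynomial σ ℝ} (hP : QS P) (hQ : QS Q) (nP : NN P) (nQ : NN Q) :
    QS (P * Q) := by
  intro z hz
  rw [map_mul, map_mul, norm_mul]
  exact mul_le_mul (hP z hz) (hQ z hz) (nQ.eval_nonneg hz) (norm_nonneg _)

theorem QS.prod {ι : Type} (s : Finset ι) (P : ι → MvPolynomial σ ℝ) (h : ∀ i ∈ s, QS (P i))
    (h' : ∀ i ∈ s, NN (P i)) : QS (∏ i ∈ s, P i) := by
  classical
  induction s using Finset.induction_on with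
  | empty => rw [Finset.prod_empty]; exact QS.one
  | insert a s ha ih =>
    rw [Finset.prod_insert ha]
    exact QS.mul (h a (Finset.mem_insert_self a s))
      (ih (fun i hi => h i (Finset.mem_insert_of_mem hi))
        fun i hi => h' i (Finset.mem_insert_of_mem hi))
      (h' a (Finset.mem_insert_self a s))
      (NN.prod s P fun i hi => h' i (Finset.mem_insert_of_mem hi))

end MP_a3e05c_co.KL
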