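import Pool.Agent.Lib.MP_a3e05c_co.KL.QSa

/-!
# EULER, key lemma: partial derivatives of stable polynomials (Gauss-Lucas)
-/

open MvPolynomial

namespace MP_a3e05c_co.KL

variable {σ : Type} [Fintype σ] [DecidableEq σ]

/-- substitution of `z j` for `X j`, `j ≠ i` -/
private noncomputable def QSb_sub {A : Type} [CommRing A] [Algebra ℝ A] (z : σ → A) (i : σ) :
    MvPolynomial σ ℝ →ₐ[ℝ] Polynomial A :=
  aeval fun j => if j = i then Polynomial.X else Polynomial.C (z j)

omit [Fintype σ] in
private theorem QSb_eval {A : Type} [CommRing A] [Algebra ℝ A] (z : σ → A) (i : σ) (x : A)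
    (Q : MvPolynomial σ ℝ) :
    (QSb_sub z i Q).eval x = aeval (Function.update z i x) Q := by
  induction Q using MvPolynomial.induction_on with
  | C a =>
    unfold QSb_sub
    rw [aeval_C, aeval_C, Polynomial.algebraMap_apply, Polynomial.eval_C]
  | add p q hp hq => rw [map_add, map_add, Polynomial.eval_add, hp, hq]
  | mul_X p n hp =>
    rw [map_mul, map_mul, Polynomial.eval_mul, hp]
    congr 1
    unfold QSb_sub
    rw [aeval_X, aeval_X]
    by_cases h : n = i
    · rw [if_pos h, h, Function.update_self, Polynomial.eval_X]
    · rw [if_neg h, Function.update_of_ne h, Polynomial.eval_C]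

omit [Fintype σ] in
private theorem QSb_derivative {A : Type} [CommRing A] [Algebra ℝ A] (z : σ → A) (i : σ)
    (Q : MvPolynomial σ ℝ) :
    Polynomial.derivative (QSb_sub z i Q) = QSb_sub z i (pderiv i Q) := by
  induction Q using MvPolynomial.induction_on with
  | C a =>
    rw [pderiv_C, map_zero]
    unfold QSb_sub
    rw [aeval_C, Polynomial.algebraMap_apply, Polynomial.derivative_C]
  | add p q hp hq => rw [map_add, map_add, map_add, map_add, hp, hq]
  | mul_X p n hp =>
    rw [map_mul, Polynomial.derivative_mul, hp, Derivation.leibniz, map_add, smul_eq_mul,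
      smul_eq_mul, map_mul, map_mul]
    have h1 : QSb_sub z i (X n) = if n = i then Polynomial.X else Polynomial.C (z n) := by
      unfold QSb_sub
      rw [aeval_X]
    have h2 : Polynomial.derivative (QSb_sub z i (X n)) = QSb_sub z i (pderiv i (X n)) := by
      rw [h1]
      by_cases h : n = i
      · rw [if_pos h, h, pderiv_X_self, map_one, Polynomial.derivative_X]
      · rw [if_neg h, pderiv_X_of_ne h, map_zero, Polynomial.derivative_C]
    rw [h2]
    ring

/-- If `Q` is quantitatively stable with coefficients `≥ 0`, then its partial derivative does not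
vanish on the open upper half space (unless it is the zero polynomial).  Proof: fix the other
coordinates, `q(x) = Q(z with x)`; `q` has no root with `Im > 0` and is not constant
(`|q(i s)| ≥ Q(Im z, s) → ∞`), so by Gauss-Lucas (`Polynomial.eq_centerMass_of_eval_derivative_eq_zero`)
the roots of `q'` have `Im ≤ 0`. -/
theorem pderiv_ne_zero_of_qs {Q : MvPolynomial σ ℝ} (hn : NN Q) (hq : QS Q) (i : σ)
    (h0 : pderiv i Q ≠ 0) (z : σ → ℂ) (hz : ∀ j, 0 < (z j).im) : aeval z (pderiv i Q) ≠ 0 := by
  intro hzero
  have hQ0 : Q ≠ 0 := by
    rintro rfl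
    exact h0 (map_zero _)
  -- values of the polynomial in one variable
  have him : ∀ x : ℂ, (fun j => (Function.update z i x j).im) =
      Function.update (fun j => (z j).im) i x.im := by
    intro x
    funext j
    by_cases h : j = i
    · rw [h, Function.update_self, Function.update_self]
    · rw [Function.update_of_ne h, Function.update_of_ne h]
  have hroot : ∀ x : ℂ, 0 ≤ x.im →
      eval (Function.update (fun j => (z j).im) i x.im) Q ≤ ‖(QSb_sub z i Q).eval x‖ := by
    intro x hx
    have h1 := hq (Function.update z i x) (fun j => ?_)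
    · rw [him, ← QSb_eval] at h1
      exact h1
    · by_cases h : j = i
      · rw [h, Function.update_self]
        exact hx
      · rw [Function.update_of_ne h]
        exact (hz j).le
  have hupd : ∀ s : ℝ, 0 < s → ∀ j, 0 < Function.update (fun j => (z j).im) i s j := by
    intro s hs j
    by_cases h : j = i
    · rw [h, Function.update_self]
      exact hs
    · rw [Function.update_of_ne h]
      exact hz j
  -- the polynomial is not constant
  have hdeg : 0 < (QSb_sub z i Q).degree := by
    by_contra hcon
    have hc := Polynomial.eq_C_of_degree_le_zero (not_lt.1 hcon)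
    have hb : ∀ s : ℝ, 0 < s → eval (Function.update (fun j => (z j).im) i s) Q ≤
        ‖(QSb_sub z i Q).coeff 0‖ := by
      intro s hs
      have h1 := hroot (s * Complex.I) (by simpa using hs.le)
      rw [hc, Polynomial.eval_C] at h1
      simpa using h1
    have hre : ∀ s : ℝ, (QSb_sub (fun j => (z j).im) i Q).eval s =
        eval (Function.update (fun j => (z j).im) i s) Q := by
      intro s
      rw [QSb_eval, MvPolynomial.aeval_eq_eval]
    have hd : (QSb_sub (fun j => (z j).im) i Q).degree ≤ 0 := by
      rw [← Polynomial.isBoundedUnder_abs_atTop_iff]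
      refine Filter.isBoundedUnder_of_eventually_le (a := ‖(QSb_sub z i Q).coeff 0‖) ?_
      filter_upwards [Filter.eventually_gt_atTop (0 : ℝ)] with s hs
      rw [hre, abs_of_nonneg (hn.eval_nonneg fun j => (hupd s hs j).le)]
      exact hb s hs
    have h3 := QSb_derivative (fun j => (z j).im) i Q
    rw [Polynomial.eq_C_of_degree_le_zero hd, Polynomial.derivative_C] at h3
    have h4 : (QSb_sub (fun j => (z j).im) i (pderiv i Q)).eval 1 = 0 := by
      rw [← h3, Polynomial.eval_zero]
    rw [QSb_eval, MvPolynomial.aeval_eq_eval] at h4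
    have h5 := (hn.pderiv i).eval_pos h0 (hupd 1 one_pos)
    exact h5.ne' h4
  have hder : (Polynomial.derivative (QSb_sub z i Q)).eval (z i) = 0 := by
    rw [QSb_derivative, QSb_eval, Function.update_eq_self]
    exact hzero
  have hdne : Polynomial.derivative (QSb_sub z i Q) ≠ 0 := by
    intro h
    have h1 := Polynomial.derivative_eq_zero.1 h
    rw [Polynomial.natDegree_eq_zero_iff_degree_le_zero] at h1
    exact absurd hdeg (not_lt.2 h1)
  have hmem : z i ∈ (Polynomial.derivative (QSb_sub z i Q)).rootSet ℂ := by
    rw [Polynomial.mem_rootSet]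
    refine ⟨hdne, ?_⟩
    rw [Polynomial.coe_aeval_eq_eval]
    exact hder
  have hhull := Polynomial.rootSet_derivative_subset_convexHull_rootSet hdeg hmem
  have hsub : (QSb_sub z i Q).rootSet ℂ ⊆ {c : ℂ | c.im ≤ 0} := by
    intro x hx
    rw [Polynomial.mem_rootSet, Polynomial.coe_aeval_eq_eval] at hx
    by_contra hpos
    have hpos' : 0 < x.im := not_le.1 hpos
    have h1 := hroot x hpos'.le
    rw [hx.2, norm_zero] at h1
    exact absurd (hn.eval_pos hQ0 (hupd x.im hpos')) (not_lt.2 h1)
  have := convexHull_min hsub (convex_halfSpace_im_le 0) hhull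
  exact absurd (hz i) (not_lt.2 this)

end MP_a3e05c_co.KL
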