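import Pool.Agent.Lib.MP_a3e05c_co.KL.Step

/-!
# EULER, regular graphs: the structure lemma
-/

open Finset

namespace MP_a3e05c_co.KL

variable {V E : Type} [Fintype V] [DecidableEq V] [Fintype E] [DecidableEq E]

theorem rs_closed {hd : E → Bool → V} (hs : Simple hd) {A C : Finset V} (hA : Closed hd A)
    (hCA : C ⊆ A) (h : ∀ v ∈ C, nb hd A v ⊆ C) : Closed hd C := by
  intro v hv
  have h1 : nb hd C v = nb hd A v := by
    ext u
    constructor
    · intro hu
      exact mem_filter.mpr ⟨hCA (mem_filter.mp hu).1, (mem_filter.mp hu).2⟩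
    · intro hu
      exact mem_filter.mpr ⟨h v hv hu, (mem_filter.mp hu).2⟩
  rw [← card_nb hs, h1, card_nb hs]
  exact hA v (hCA hv)

theorem rs_sdiff {V : Type} [DecidableEq V] (N : V → Finset V) {d : ℕ} {v w : V}
    (hv : (N v).card = d) (hw : (N w).card = d) (hvw : v ∈ N w) (hwv : w ∈ N v) (hvv : v ∉ N v)
    (hww : w ∉ N w) : (N w \ insert v (N v)).card = (N v \ insert w (N w)).card := by
  have e1 : N w ∩ insert v (N v) = insert v (N w ∩ N v) := by
    ext z
    simp only [mem_inter, mem_insert]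
    constructor
    · rintro ⟨h1, h2 | h2⟩
      · exact Or.inl h2
      · exact Or.inr ⟨h1, h2⟩
    · rintro (rfl | ⟨h1, h2⟩)
      · exact ⟨hvw, Or.inl rfl⟩
      · exact ⟨h1, Or.inr h2⟩
  have e2 : N v ∩ insert w (N w) = insert w (N w ∩ N v) := by
    ext z
    simp only [mem_inter, mem_insert]
    constructor
    · rintro ⟨h1, h2 | h2⟩
      · exact Or.inl h2
      · exact Or.inr ⟨h2, h1⟩
    · rintro (rfl | ⟨h1, h2⟩)
      · exact ⟨hwv, Or.inl rfl⟩
      · exact ⟨h2, Or.inr h1⟩
  have c1 := card_sdiff_add_card_inter (N w) (insert v (N v))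
  have c2 := card_sdiff_add_card_inter (N v) (insert w (N w))
  have n1 : v ∉ N w ∩ N v := fun h => hvv (mem_inter.mp h).2
  have n2 : w ∉ N w ∩ N v := fun h => hww (mem_inter.mp h).1
  rw [e1, card_insert_of_notMem n1, hw] at c1
  rw [e2, card_insert_of_notMem n2, hv] at c2
  omega

/-- If every two adjacent vertices `w`, `w₂` of the closed set `A` satisfy
`|N(w₂) \ N[w]| ≤ 1`, then `A` contains a closed set with `d + 1` or `d + 2` elements
(the component of a vertex is `K_(d+1)` or `K_(d+2)` minus a perfect matching).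
Proof: take `w` with a vertex `x` at distance two, `u ∈ N(w)` adjacent to `x`; every vertex of `N(w)`
misses at most one other vertex of `N(w)`; `u` misses `u₁`; the pair `(u, x)` shows that `x` is
adjacent to all of `N(w) \ u₁` and to one more vertex `y ∉ N[u]`; if `y ≠ u₁` take
`v ∈ N(w) \ {u, u₁}`: `v` is adjacent to `x`, so it misses its partner `v₁` in `N(w)` and `x` is its
only neighbour outside `N[w]`; then `y` and `v₁` are both in `N(x) \ N[v]`, contradiction; so
`y = u₁` and `N[w] ∪ {x}` is closed. -/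
theorem structure_reg {hd : E → Bool → V} (hs : Simple hd) {d : ℕ} (hd4 : 4 ≤ d) (hde : Even d)
    {A : Finset V} (hA : Closed hd A) (hreg : ∀ v ∈ A, deg hd v = d) (hne : A.Nonempty)
    (h : ∀ w ∈ A, ∀ w₂ ∈ nb hd A w, (nb hd A w₂ \ insert w (nb hd A w)).card ≤ 1) :
    ∃ C ⊆ A, C.Nonempty ∧ Closed hd C ∧ (C.card = d + 1 ∨ C.card = d + 2) := by
  obtain ⟨w, hw⟩ := hne
  have hNA : ∀ v u, u ∈ nb hd A v → u ∈ A := fun v u hu => (mem_filter.mp hu).1
  have hN : ∀ v ∈ A, (nb hd A v).card = d := by
    intro v hv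
    rw [card_nb hs, hA v hv, hreg v hv]
  have hirr : ∀ v, v ∉ nb hd A v := fun v hv => Adj.ne hs (mem_filter.mp hv).2 rfl
  have hsym : ∀ u v, u ∈ A → v ∈ nb hd A u → u ∈ nb hd A v := fun u v hu hv =>
    mem_filter.mpr ⟨hu, (mem_filter.mp hv).2.symm⟩
  have hone : ∀ {S : Finset V} {p q : V}, S.card ≤ 1 → p ∈ S → q ∈ S → p = q :=
    fun hS hp hq => card_le_one.mp hS _ hp _ hq
  set N : V → Finset V := nb hd A with hNdef
  have hwc : (insert w (N w)).card = d + 1 := by
    rw [card_insert_of_notMem (hirr w), hN w hw]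
  have hsubA : insert w (N w) ⊆ A := by
    intro z hz
    rcases mem_insert.mp hz with rfl | hz
    · exact hw
    · exact hNA _ _ hz
  by_cases hcl : ∀ u ∈ N w, N u ⊆ insert w (N w)
  · refine ⟨insert w (N w), hsubA, ⟨w, mem_insert_self _ _⟩, rs_closed hs hA hsubA ?_, Or.inl hwc⟩
    intro v hv
    rcases mem_insert.mp hv with rfl | hv
    · exact subset_insert _ _
    · exact hcl v hv
  · push Not at hcl
    obtain ⟨u, hu, hux⟩ := hcl
    obtain ⟨x, hxu, hxw⟩ := not_subset.mp hux
    have huA := hNA _ _ hu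
    have hxA := hNA _ _ hxu
    have hwu : w ∈ N u := hsym w u hw hu
    have hux' : u ∈ N x := hsym u x huA hxu
    have hxw1 : x ≠ w := fun h1 => hxw (h1 ▸ mem_insert_self _ _)
    have hxw2 : x ∉ N w := fun h1 => hxw (mem_insert_of_mem h1)
    have hwx : w ∉ N x := fun h1 => hxw2 (hsym x w hxA h1)
    -- the vertex missed by `u`
    have hc1 : 0 < (N w \ insert u (N u)).card := by
      rw [rs_sdiff N (hN u huA) (hN w hw) hu hwu (hirr u) (hirr w)]
      exact card_pos.mpr ⟨x, mem_sdiff.mpr ⟨hxu, hxw⟩⟩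
    obtain ⟨u1, hu1⟩ := card_pos.mp hc1
    obtain ⟨hu1w, hu1u⟩ := mem_sdiff.mp hu1
    have hu1A := hNA _ _ hu1w
    have hu1ne : u1 ≠ u := fun h1 => hu1u (h1 ▸ mem_insert_self _ _)
    have hu1nu : u1 ∉ N u := fun h1 => hu1u (mem_insert_of_mem h1)
    have hcu : (N w \ insert u (N u)).card ≤ 1 := h u huA w hwu
    -- `x` is adjacent to all of `N w` except perhaps `u1`
    have hcx : (N u \ insert x (N x)).card ≤ 1 := by
      rw [rs_sdiff N (hN x hxA) (hN u huA) hxu hux' (hirr x) (hirr u)]
      exact h u huA x hxu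
    have hadj : ∀ v ∈ N w, v ≠ u1 → v ∈ N x := by
      intro v hv hvu1
      by_cases hvu : v = u
      · rw [hvu]; exact hux'
      · have h1 : v ∈ N u := by
          by_contra h2
          apply hvu1
          refine hone hcu (mem_sdiff.mpr ⟨hv, fun h3 => ?_⟩) hu1
          rcases mem_insert.mp h3 with h3 | h3
          · exact hvu h3
          · exact h2 h3
        by_contra h2
        have h3 : v = w := by
          refine hone hcx (mem_sdiff.mpr ⟨h1, fun h4 => ?_⟩) (mem_sdiff.mpr ⟨hwu, fun h4 => ?_⟩)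
          · rcases mem_insert.mp h4 with h4 | h4
            · exact hxw2 (h4 ▸ hv)
            · exact h2 h4
          · rcases mem_insert.mp h4 with h4 | h4
            · exact hxw1 h4.symm
            · exact hwx h4
        exact hirr w (h3 ▸ hv)
    have hu1x : u1 ∈ N x := by
      by_contra hcon
      -- one more neighbour `y` of `x`
      have hy : ∃ y ∈ N x, y ∉ N w := by
        by_contra h1
        push Not at h1
        have h2 : N x ⊆ (N w).erase u1 := fun z hz =>
          mem_erase.mpr ⟨fun h3 => hcon (h3 ▸ hz), h1 z hz⟩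
        have h3 := card_le_card h2
        rw [hN x hxA, card_erase_of_mem hu1w, hN w hw] at h3
        omega
      obtain ⟨y, hyx, hyw⟩ := hy
      have hyw' : y ≠ w := fun h1 => hwx (h1 ▸ hyx)
      have hyx' : y ≠ x := fun h1 => hirr x (h1 ▸ hyx)
      -- a third neighbour `v` of `w`
      have hv : ∃ v ∈ N w, v ≠ u ∧ v ≠ u1 := by
        by_contra h1
        push Not at h1
        have h2 : N w ⊆ {u, u1} := by
          intro z hz
          by_cases h3 : z = u
          · rw [h3]; simp
          · rw [h1 z hz h3]; simp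
        have h3 := (card_le_card h2).trans card_le_two
        rw [hN w hw] at h3
        omega
      obtain ⟨v, hvw, hvu, hvu1⟩ := hv
      have hvA := hNA _ _ hvw
      have hwv : w ∈ N v := hsym w v hw hvw
      have hvx : v ∈ N x := hadj v hvw hvu1
      have hxv : x ∈ N v := hsym x v hxA hvx
      have hcv : (N v \ insert w (N w)).card ≤ 1 := h w hw v hvw
      have hyv : y ∉ N v := by
        intro h1
        apply hyx'
        refine hone hcv (mem_sdiff.mpr ⟨h1, fun h2 => ?_⟩) (mem_sdiff.mpr ⟨hxv, hxw⟩)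
        rcases mem_insert.mp h2 with h2 | h2
        · exact hyw' h2
        · exact hyw h2
      have hyv' : y ≠ v := fun h1 => hyw (h1 ▸ hvw)
      have hcxv : (N x \ insert v (N v)).card ≤ 1 := h v hvA x hxv
      have hy2 : y ∈ N x \ insert v (N v) := by
        refine mem_sdiff.mpr ⟨hyx, fun h2 => ?_⟩
        rcases mem_insert.mp h2 with h2 | h2
        · exact hyv' h2
        · exact hyv h2
      have hc2 : 0 < (N w \ insert v (N v)).card := by
        rw [rs_sdiff N (hN v hvA) (hN w hw) hvw hwv (hirr v) (hirr w)]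
        exact card_pos.mpr ⟨x, mem_sdiff.mpr ⟨hxv, hxw⟩⟩
      obtain ⟨v1, hv1⟩ := card_pos.mp hc2
      obtain ⟨hv1w, hv1v⟩ := mem_sdiff.mp hv1
      have hv1ne : v1 ≠ v := fun h1 => hv1v (h1 ▸ mem_insert_self _ _)
      have hv1nv : v1 ∉ N v := fun h1 => hv1v (mem_insert_of_mem h1)
      by_cases h5 : v1 = u1
      · rw [h5] at hv1nv
        have hwu1 : w ∈ N u1 := hsym w u1 hw hu1w
        have hcu1 : (N w \ insert u1 (N u1)).card ≤ 1 := h u1 hu1A w hwu1
        apply hvu
        refine hone hcu1 (mem_sdiff.mpr ⟨hvw, fun h2 => ?_⟩) (mem_sdiff.mpr ⟨hu, fun h2 => ?_⟩)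
        · rcases mem_insert.mp h2 with h2 | h2
          · exact hvu1 h2
          · exact hv1nv (hsym u1 v hu1A h2)
        · rcases mem_insert.mp h2 with h2 | h2
          · exact hu1ne h2.symm
          · exact hu1nu (hsym u1 u hu1A h2)
      · have h6 : v1 ∈ N x := hadj v1 hv1w h5
        have h7 : v1 = y := hone hcxv (mem_sdiff.mpr ⟨h6, hv1v⟩) hy2
        exact hyw (h7 ▸ hv1w)
    -- `N x = N w`
    have hsub : N w ⊆ N x := by
      intro v hv
      by_cases h1 : v = u1
      · rw [h1]; exact hu1x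
      · exact hadj v hv h1
    have hNx : N w = N x := eq_of_subset_of_card_le hsub (by rw [hN x hxA, hN w hw])
    have hCA : insert x (insert w (N w)) ⊆ A := by
      intro z hz
      rcases mem_insert.mp hz with rfl | hz
      · exact hxA
      · exact hsubA hz
    refine ⟨insert x (insert w (N w)), hCA, ⟨x, mem_insert_self _ _⟩, rs_closed hs hA hCA ?_,
      Or.inr ?_⟩
    · intro v hv
      rcases mem_insert.mp hv with rfl | hv
      · rw [← hNdef, ← hNx]
        exact (subset_insert _ _).trans (subset_insert _ _)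
      rcases mem_insert.mp hv with rfl | hv
      · exact (subset_insert _ _).trans (subset_insert _ _)
      · intro z hz
        by_cases h1 : z ∈ insert w (N w)
        · exact mem_insert_of_mem h1
        · have hcv : (N v \ insert w (N w)).card ≤ 1 := h w hw v hv
          have hxv : x ∈ N v := hsym x v hxA (hsub hv)
          have h2 : z = x := hone hcv (mem_sdiff.mpr ⟨hz, h1⟩) (mem_sdiff.mpr ⟨hxv, hxw⟩)
          rw [h2]
          exact mem_insert_self _ _
    · rw [card_insert_of_notMem hxw, hwc]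

end MP_a3e05c_co.KL
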