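import Pool.Agent.Lib.MP_a3e05c_co.KL.KeyM
import Pool.Agent.Lib.MP_a3e05c_co.KL.Step

/-!
# EULER: deletion of one vertex, with the variance bounded below by the parity
-/

open Finset Polynomial

namespace MP_a3e05c_co.KL

variable {V E : Type} [Fintype V] [DecidableEq V] [Fintype E] [DecidableEq E]

omit [Fintype V] [DecidableEq V] [Fintype E] [DecidableEq E] in
private theorem StepM_loop {hd : E → Bool → V} (hl : NoLoop hd) {e : E} {b : Bool} {u : V}
    (h1 : hd e b = u) (h2 : hd e (!b) = u) : False := by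
  have h := hl e
  cases b
  · exact h (h2.trans h1.symm)
  · exact h (h1.trans h2.symm)

/-- **One step.** -/
theorem PA_stepM {hd : E → Bool → V} (hs : Simple hd) (hev : ∀ v, Even (deg hd v)) {A : Finset V}
    {w : V} (hw : w ∈ A) :
    PA hd A ≤ FM (kk hd A w) (deg hd w - kk hd A w)
      ((kk hd A w : ℝ) - ∑ u ∈ nb hd A w, rh (deg hd u) (kk hd A u)) * PA hd (A.erase w) := by
  have hnadj : ¬ Adj hd w w := fun h => Adj.ne hs h rfl
  have hb : btw hd (A.erase w) w = btw hd A w := by
    ext e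
    rw [btw, btw, mem_filter, mem_filter]
    constructor
    · rintro ⟨-, b, h3, h4⟩
      exact ⟨mem_univ _, b, h3, mem_of_mem_erase h4⟩
    · rintro ⟨-, b, h3, h4⟩
      refine ⟨mem_univ _, b, h3, mem_erase.2 ⟨fun h5 => StepM_loop hs.1 h3 h5, h4⟩⟩
  have hkk : (btw hd (A.erase w) w).card = kk hd A w := by
    rw [hb]
    rfl
  have hfr : (frees hd (A.erase w) w).card = deg hd w - kk hd A w := by
    have h := deg_eq hs.1 (A.erase w) w
    rw [hkk] at h
    omega
  have hset : (A.erase w).filter (fun u => ∃ e b, hd e b = w ∧ hd e (!b) = u) = nb hd A w := by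
    ext u
    rw [nb, mem_filter, mem_filter, mem_erase]
    constructor
    · rintro ⟨⟨h1, h2⟩, h3⟩
      exact ⟨h2, h3⟩
    · rintro ⟨h1, h2⟩
      exact ⟨⟨Adj.ne hs h2, h1⟩, h2⟩
  have hkey := keyM hs (notMem_erase w A) hev
  rw [insert_erase hw, hkk, hfr, hset] at hkey
  have hsum : ∑ u ∈ nb hd A w, rho (deg hd u) (btw hd A u).card =
      ∑ u ∈ nb hd A w, rh (deg hd u) (kk hd A u) := rfl
  rw [hsum] at hkey
  unfold PA
  rw [← mul_div_assoc]
  exact div_le_div_of_nonneg_right hkey (by positivity)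

end MP_a3e05c_co.KL
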