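import Pool.Agent.Lib.MP_a3e05c_co.KL.RegDefs
import Pool.Agent.Lib.MP_a3e05c_co.KL.StepM
import Pool.Agent.Lib.MP_a3e05c_co.KL.RegStruct
import Pool.Agent.Lib.MP_a3e05c_co.KL.ClosedA
import Pool.Agent.Lib.MP_a3e05c_co.KL.ClosedB

/-!
# EULER, regular graphs: the induction
-/

open Finset

namespace MP_a3e05c_co.KL

variable {V E : Type} [Fintype V] [DecidableEq V] [Fintype E] [DecidableEq E]

omit [Fintype V] [DecidableEq E] in
private theorem RegMain_mem_nb {hd : E → Bool → V} {A : Finset V} {w u : V} :
    u ∈ nb hd A w ↔ u ∈ A ∧ Adj hd w u := by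
  unfold nb
  rw [mem_filter]

/-- the potential after the deletion of a vertex -/
private theorem RegMain_pot {hd : E → Bool → V} (hs : Simple hd) (φ : ℕ → ℝ) {A : Finset V} {w : V}
    (hw : w ∈ A) :
    ∑ v ∈ A, φ (kk hd A v) = φ (kk hd A w) + ∑ v ∈ A.erase w, φ (kk hd (A.erase w) v) +
      ∑ u ∈ nb hd A w, (φ (kk hd A u) - φ (kk hd A u - 1)) := by
  have h1 : ∑ v ∈ A, φ (kk hd A v) = φ (kk hd A w) + ∑ v ∈ A.erase w, φ (kk hd A v) :=
    (Finset.add_sum_erase A (fun v => φ (kk hd A v)) hw).symm
  have h2 : ∀ v ∈ A.erase w, φ (kk hd A v) = φ (kk hd (A.erase w) v) +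
      (if Adj hd w v then (φ (kk hd A v) - φ (kk hd A v - 1)) else 0) := by
    intro v _
    have h3 := kk_erase hs hw v
    by_cases ha : Adj hd w v
    · rw [if_pos ha] at h3 ⊢
      have h4 : kk hd A v - 1 = kk hd (A.erase w) v := by omega
      rw [h4]
      ring
    · rw [if_neg ha] at h3 ⊢
      rw [h3, add_zero, add_zero]
  have h5 : (A.erase w).filter (fun v => Adj hd w v) = nb hd A w := by
    ext u
    rw [mem_filter, mem_erase, RegMain_mem_nb]
    constructor
    · rintro ⟨⟨_, h⟩, h'⟩
      exact ⟨h, h'⟩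
    · rintro ⟨h, h'⟩
      exact ⟨⟨Adj.ne hs h', h⟩, h'⟩
  rw [h1, Finset.sum_congr rfl h2, Finset.sum_add_distrib, ← Finset.sum_filter, h5]
  ring

private theorem RegMain_closed_adj {hd : E → Bool → V} (hs : Simple hd) {C : Finset V}
    (hC : Closed hd C) {u v : V} (hu : u ∈ C) (h : Adj hd u v) : v ∈ C := by
  have h1 : (nb hd (univ : Finset V) u).card ≤ (nb hd C u).card := by
    rw [card_nb hs, card_nb hs, hC u hu]
    exact kk_le_deg hs _ _
  have h2 : nb hd C u ⊆ nb hd (univ : Finset V) u := by
    intro x hx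
    rw [RegMain_mem_nb] at hx ⊢
    exact ⟨mem_univ _, hx.2⟩
  have h3 := Finset.eq_of_subset_of_card_le h2 h1
  have h4 : v ∈ nb hd (univ : Finset V) u := by
    rw [RegMain_mem_nb]
    exact ⟨mem_univ _, h⟩
  rw [← h3, RegMain_mem_nb] at h4
  exact h4.1

private theorem RegMain_kk_sdiff {hd : E → Bool → V} (hs : Simple hd) {A C : Finset V}
    (hC : Closed hd C) {v : V} (hv : v ∉ C) : kk hd (A \ C) v = kk hd A v := by
  rw [← card_nb hs, ← card_nb hs]
  congr 1
  ext u
  rw [RegMain_mem_nb, RegMain_mem_nb, mem_sdiff]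
  constructor
  · rintro ⟨⟨h, _⟩, h'⟩
    exact ⟨h, h'⟩
  · rintro ⟨h, h'⟩
    exact ⟨⟨h, fun hu => hv (RegMain_closed_adj hs hC hu h'.symm)⟩, h'⟩

/-- deletion of a vertex, with the potential inequality in the form of a sum over the
neighbours -/
private theorem RegMain_step {hd : E → Bool → V} (hs : Simple hd) {d : ℕ} (hde : Even d)
    (hreg : ∀ v, deg hd v = d) {φ : ℕ → ℝ} {A : Finset V} {w : V} (hw : w ∈ A) {x : ℝ}
    (hx : FM (kk hd A w) (d - kk hd A w)
      ((kk hd A w : ℝ) - ∑ u ∈ nb hd A w, rh d (kk hd A u)) ≤ Real.exp x)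
    (hI : PA hd (A.erase w) ≤ Real.exp (∑ v ∈ A.erase w, φ (kk hd (A.erase w) v))) :
    PA hd A ≤ Real.exp (x + ∑ v ∈ A.erase w, φ (kk hd (A.erase w) v)) := by
  have h1 := PA_stepM hs (fun v => by rw [hreg v]; exact hde) hw
  simp only [hreg] at h1
  rw [Real.exp_add]
  calc PA hd A ≤ _ := h1
    _ ≤ Real.exp x * PA hd (A.erase w) := mul_le_mul_of_nonneg_right hx (PA_nonneg hd _)
    _ ≤ _ := mul_le_mul_of_nonneg_left hI (Real.exp_pos x).le

/-- Induction on `A`.  If some vertex of `A` is not full, delete a non-full vertex with the largest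
number of alive neighbours (`Pot.step`).  Otherwise `A` is closed: if some adjacent pair has
`|N(w₂) \ N[w]| ≥ 2` delete `w` (cost 0: `PA_mono`) and `w₂` (`Pot.second`); otherwise split off the
closed set of `structure_reg` (`PA_split`, `PA_clique` or `Cocktail` through `PA_restrict`). -/
theorem PA_le_of_pot {hd : E → Bool → V} (hs : Simple hd) {d : ℕ} (hd4 : 4 ≤ d) (hde : Even d)
    (hreg : ∀ v, deg hd v = d) {φ : ℕ → ℝ} (hφ : Pot d φ) (hc : Cocktail d) (A : Finset V) :
    PA hd A ≤ Real.exp (∑ v ∈ A, φ (kk hd A v)) := by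
  induction hn : A.card using Nat.strong_induction_on generalizing A with
  | _ n ih =>
    have IH : ∀ B : Finset V, B.card < A.card →
        PA hd B ≤ Real.exp (∑ v ∈ B, φ (kk hd B v)) := fun B hB =>
      ih B.card (by omega) B rfl
    rcases A.eq_empty_or_nonempty with rfl | hne
    · rw [PA_empty]
      simp
    have hkd : ∀ (B : Finset V) (v : V), kk hd B v ≤ d := fun B v => by
      have := kk_le_deg hs B v
      rwa [hreg v] at this
    by_cases hex : ∃ v ∈ A, kk hd A v < d
    · -- a vertex which is not full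
      have hSne : (A.filter fun v => kk hd A v < d).Nonempty := by
        obtain ⟨v, hv, hv'⟩ := hex
        exact ⟨v, mem_filter.2 ⟨hv, hv'⟩⟩
      obtain ⟨w, hwS, hwmax⟩ := Finset.exists_max_image _ (fun v => kk hd A v) hSne
      obtain ⟨hw, hwd⟩ := mem_filter.1 hwS
      have hI := IH (A.erase w) (Finset.card_erase_lt_of_mem hw)
      have hcard : Fintype.card {u // u ∈ nb hd A w} = kk hd A w := by
        rw [Fintype.card_coe, card_nb hs]
      let e : Fin (kk hd A w) ≃ {u // u ∈ nb hd A w} := (Fintype.equivFinOfCardEq hcard).symm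
      have hsum : ∀ g : V → ℝ, ∑ i, g (e i).1 = ∑ u ∈ nb hd A w, g u := by
        intro g
        rw [e.sum_comp (fun u : {u // u ∈ nb hd A w} => g u.1)]
        exact Finset.sum_coe_sort (nb hd A w) g
      have hst := hφ.step (kk hd A w) hwd (fun i => kk hd A (e i).1) (by
        intro i
        obtain ⟨hu, hadj⟩ := RegMain_mem_nb.1 (e i).2
        constructor
        · have h3 := kk_erase hs hw (e i).1
          rw [if_pos hadj] at h3
          omega
        · rcases Nat.lt_or_ge (kk hd A (e i).1) d with h4 | h4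
          · exact Or.inl (hwmax _ (mem_filter.2 ⟨hu, h4⟩))
          · exact Or.inr (le_antisymm (hkd _ _) h4))
      rw [hsum (fun u => rh d (kk hd A u)),
        hsum (fun u => φ (kk hd A u) - φ (kk hd A u - 1))] at hst
      have h5 := RegMain_step hs hde hreg hw hst hI
      rw [RegMain_pot hs φ hw]
      refine h5.trans (Real.exp_le_exp.2 (le_of_eq ?_))
      ring
    · -- all vertices are full
      push Not at hex
      have hfull : ∀ v ∈ A, kk hd A v = d := fun v hv => le_antisymm (hkd _ _) (hex v hv)
      have hcl : Closed hd A := fun v hv => by rw [hfull v hv, hreg v]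
      by_cases hex2 : ∃ w ∈ A, ∃ w₂ ∈ nb hd A w,
          2 ≤ (nb hd A w₂ \ insert w (nb hd A w)).card
      · obtain ⟨w, hw, w₂, hw₂, hm⟩ := hex2
        obtain ⟨hw₂A, hadj⟩ := RegMain_mem_nb.1 hw₂
        have hne2 : w₂ ≠ w := Adj.ne hs hadj
        have hw₂B : w₂ ∈ A.erase w := mem_erase.2 ⟨hne2, hw₂A⟩
        have hwn : w ∈ nb hd A w₂ := RegMain_mem_nb.2 ⟨hw, hadj.symm⟩
        set M := nb hd A w₂ \ insert w (nb hd A w) with hM
        set P := nb hd A w₂ ∩ nb hd A w with hP
        have hcn : (nb hd A w₂).card = d := by rw [card_nb hs, hfull w₂ hw₂A]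
        -- neighbours of `w₂` after the deletion of `w`
        have hnbB : nb hd (A.erase w) w₂ = P ∪ M := by
          ext u
          rw [RegMain_mem_nb, mem_erase, mem_union, hP, hM, mem_inter, mem_sdiff, mem_insert,
            RegMain_mem_nb, RegMain_mem_nb]
          constructor
          · rintro ⟨⟨h1, h2⟩, h3⟩
            by_cases h4 : Adj hd w u
            · exact Or.inl ⟨⟨h2, h3⟩, ⟨h2, h4⟩⟩
            · refine Or.inr ⟨⟨h2, h3⟩, ?_⟩
              rintro (h5 | h5)
              · exact h1 h5
              · exact h4 h5.2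
          · rintro (⟨⟨h2, h3⟩, ⟨_, h4⟩⟩ | ⟨⟨h2, h3⟩, h4⟩)
            · exact ⟨⟨Adj.ne hs h4, h2⟩, h3⟩
            · exact ⟨⟨fun h5 => h4 (Or.inl h5), h2⟩, h3⟩
        have hdisj : Disjoint P M := by
          rw [Finset.disjoint_left]
          intro u hu hu'
          rw [hP, mem_inter] at hu
          rw [hM, mem_sdiff] at hu'
          exact hu'.2 (mem_insert_of_mem hu.2)
        have hkB : ∀ u, kk hd A u = kk hd (A.erase w) u + if Adj hd w u then 1 else 0 :=
          kk_erase hs hw
        have hkw₂ : kk hd (A.erase w) w₂ = d - 1 := by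
          have h1 := hkB w₂
          rw [if_pos hadj, hfull w₂ hw₂A] at h1
          omega
        have hkP : ∀ u ∈ P, kk hd (A.erase w) u = d - 1 := by
          intro u hu
          rw [hP, mem_inter, RegMain_mem_nb, RegMain_mem_nb] at hu
          have h1 := hkB u
          rw [if_pos hu.2.2, hfull u hu.1.1] at h1
          omega
        have hkM : ∀ u ∈ M, kk hd (A.erase w) u = d := by
          intro u hu
          rw [hM, mem_sdiff, mem_insert, RegMain_mem_nb, RegMain_mem_nb] at hu
          have h1 := hkB u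
          have h2 : ¬ Adj hd w u := fun h => hu.2 (Or.inr ⟨hu.1.1, h⟩)
          rw [if_neg h2, hfull u hu.1.1] at h1
          omega
        have hcPM : P.card + M.card = d - 1 := by
          rw [← Finset.card_union_of_disjoint hdisj, ← hnbB, card_nb hs, hkw₂]
        have hcP : (P.card : ℝ) = (d : ℝ) - 1 - M.card := by
          have h1 : P.card + M.card + 1 = d := by omega
          have h2 : (P.card : ℝ) + M.card + 1 = d := by exact_mod_cast h1
          linarith
        have hm1 : M.card + 1 ≤ d := by omega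
        have hsec := hφ.second M.card hm hm1
        have hd1 : (1 : ℝ) < d := by
          have : 1 < d := by omega
          exact_mod_cast this
        have hrd : rh d d = 1 := by
          unfold rh
          rw [sub_self, zero_add, mul_one]
          exact div_self (by linarith)
        have hsumB : ∀ g : ℕ → ℝ, ∑ u ∈ nb hd (A.erase w) w₂, g (kk hd (A.erase w) u) =
            ((d : ℝ) - 1 - M.card) * g (d - 1) + M.card * g d := by
          intro g
          rw [hnbB, Finset.sum_union hdisj, Finset.sum_congr rfl (fun u hu => by rw [hkP u hu]),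
            Finset.sum_congr (s₁ := M) rfl (fun u hu => by rw [hkM u hu]), Finset.sum_const,
            Finset.sum_const, nsmul_eq_mul, nsmul_eq_mul, hcP]
        have hI := IH ((A.erase w).erase w₂) (by
          have h1 := Finset.card_erase_lt_of_mem hw₂B
          have h2 := Finset.card_erase_lt_of_mem hw
          omega)
        have hFF : FM (kk hd (A.erase w) w₂) (d - kk hd (A.erase w) w₂)
            ((kk hd (A.erase w) w₂ : ℝ) -
              ∑ u ∈ nb hd (A.erase w) w₂, rh d (kk hd (A.erase w) u)) ≤
            Real.exp (2 * φ d + ((d : ℝ) - 1 - M.card) * (φ d - φ (d - 2)) +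
              2 * M.card * (φ d - φ (d - 1))) := by
          rw [hsumB (fun j => rh d j), hkw₂, hrd, mul_one,
            show d - (d - 1) = 1 by omega, Nat.cast_sub (by omega : 1 ≤ d), Nat.cast_one]
          exact hsec
        have h5 := RegMain_step hs hde hreg hw₂B hFF hI
        have h6 : PA hd A ≤ PA hd (A.erase w) := PA_mono (Finset.erase_subset _ _)
        refine (h6.trans h5).trans (Real.exp_le_exp.2 (le_of_eq ?_))
        rw [RegMain_pot hs φ hw, RegMain_pot hs φ hw₂B,
          hsumB (fun j => φ j - φ (j - 1)), hkw₂, hfull w hw,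
          Finset.sum_congr (s₁ := nb hd A w) rfl (fun u hu => by
            rw [hfull u (RegMain_mem_nb.1 hu).1]), Finset.sum_const, nsmul_eq_mul, card_nb hs,
          hfull w hw, show d - 1 - 1 = d - 2 by omega]
        ring
      · push Not at hex2
        obtain ⟨C, hCA, hCne, hC, hCc⟩ := structure_reg hs hd4 hde hcl (fun v _ => hreg v) hne
          (fun w hw w₂ hw₂ => Nat.le_of_lt_succ (hex2 w hw w₂ hw₂))
        have hlt : (A \ C).card < A.card := by
          have h1 := Finset.card_sdiff_add_card_eq_card hCA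
          have h2 := hCne.card_pos
          omega
        have hI := IH (A \ C) hlt
        have hs1 : ∑ v ∈ A \ C, φ (kk hd (A \ C) v) = ((A \ C).card : ℝ) * AA d := by
          rw [Finset.sum_congr rfl (fun v hv => by
            rw [RegMain_kk_sdiff hs hC (mem_sdiff.1 hv).2, hfull v (mem_sdiff.1 hv).1]),
            Finset.sum_const, nsmul_eq_mul, hφ.sharp]
        have hs2 : ∑ v ∈ A, φ (kk hd A v) = (A.card : ℝ) * AA d := by
          rw [Finset.sum_congr rfl (fun v hv => by rw [hfull v hv]),
            Finset.sum_const, nsmul_eq_mul, hφ.sharp]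
        have hPC : PA hd C ≤ Real.exp ((C.card : ℝ) * AA d) := by
          rcases hCc with h | h
          · rw [PA_clique hs hC (fun v _ => by rw [hreg v, h]), h]
            have h1 : (((d + 1 : ℕ) : ℝ)) * AA d = Real.log (PK (d + 1)) := by
              unfold AA
              have h2 : ((d : ℝ) + 1) ≠ 0 := by positivity
              push_cast
              field_simp
            rw [h1]
            exact Real.le_exp_log _
          · rw [PA_restrict hs hC, h]
            have h1 := hc {v // v ∈ C} {e : E // ∀ b, hd e b ∈ C} (hdR hd C) (simple_hdR hs C)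
              (fun v => by rw [deg_hdR hs hC v, hreg]) (by rw [Fintype.card_coe, h])
            push_cast
            exact h1
        rw [PA_split hs hCA hC, hs2]
        rw [hs1] at hI
        have h3 : (A.card : ℝ) * AA d = ((A \ C).card : ℝ) * AA d + (C.card : ℝ) * AA d := by
          rw [← add_mul]
          congr 1
          have h1 := Finset.card_sdiff_add_card_eq_card hCA
          exact_mod_cast h1.symm
        rw [h3, Real.exp_add]
        exact mul_le_mul hI hPC (PA_nonneg hd _) (Real.exp_pos _).le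

theorem regular_of_pot {hd : E → Bool → V} (hs : Simple hd) {d : ℕ} (hd4 : 4 ≤ d) (hde : Even d)
    (hreg : ∀ v, deg hd v = d) {φ : ℕ → ℝ} (hφ : Pot d φ) (hc : Cocktail d) :
    PA hd univ ≤ Real.exp (∑ v, AA (deg hd v)) := by
  have h1 := PA_le_of_pot hs hd4 hde hreg hφ hc univ
  have h2 : ∀ v, kk hd univ v = deg hd v := by
    intro v
    unfold kk btw deg
    congr 1
    ext e
    simp
  have h3 : ∑ v, φ (kk hd univ v) = ∑ v, AA (deg hd v) := by
    refine Finset.sum_congr rfl fun v _ => ?_
    rw [h2 v, hreg v, hφ.sharp]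
  rw [h3] at h1
  exact h1

end MP_a3e05c_co.KL
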