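import Pool.Agent.Lib.MP_a3e05c_co.KL.Defs
import Pool.Agent.Lib.MP_a3e05c_co.KL.QSd

/-!
# EULER, key lemma: the roots of the generating polynomial `ff`
-/

open Finset Polynomial

namespace MP_a3e05c_co.KL

variable {V E : Type} [Fintype V] [DecidableEq V] [Fintype E] [DecidableEq E]

/-- the sum of the signs at `w` -/
private theorem Root_sum_sg (hd : E → Bool → V) (ω : E → Bool) (w : V) :
    ∑ e, sg hd ω w e = 2 * (indeg hd ω w : ℤ) - (deg hd w : ℤ) := by
  have h1 : ∀ e, sg hd ω w e =
      2 * (if hd e (ω e) = w then (1 : ℤ) else 0) - (if ∃ b, hd e b = w then (1 : ℤ) else 0) := by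
    intro e
    unfold sg
    by_cases h : hd e (ω e) = w
    · rw [if_pos h, if_pos h, if_pos ⟨_, h⟩]
      norm_num
    · rw [if_neg h, if_neg h]
      by_cases h' : hd e (!ω e) = w
      · rw [if_pos h', if_pos ⟨_, h'⟩]
        norm_num
      · rw [if_neg h', if_neg]
        · norm_num
        · rintro ⟨b, hb⟩
          by_cases hbo : b = ω e
          · exact h (hbo ▸ hb)
          · have hbn : b = !ω e := by
              cases b <;> cases hω : ω e <;> simp_all
            exact h' (hbn ▸ hb)
  rw [Finset.sum_congr rfl (fun e _ => h1 e), Finset.sum_sub_distrib, ← Finset.mul_sum]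
  unfold indeg deg
  rw [Finset.sum_boole, Finset.sum_boole]

/-- `2 * indeg = deg` -/
theorem bal_iff {hd : E → Bool → V} (hl : NoLoop hd) (ω : E → Bool) (w : V) :
    Bal hd ω w ↔ 2 * indeg hd ω w = deg hd w := by
  unfold Bal
  rw [Root_sum_sg]
  omega

/-- the edge `e` touches `A` -/
private def Root_T (hd : E → Bool → V) (A : Finset V) (e : E) : Prop := ∃ b, hd e b ∈ A

private instance (hd : E → Bool → V) (A : Finset V) (e : E) : Decidable (Root_T hd A e) :=
  inferInstanceAs (Decidable (∃ b, hd e b ∈ A))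

/-- number of the edges touching `A` with head `v` -/
private def Root_c (hd : E → Bool → V) (A : Finset V) (ω : E → Bool) (v : V) : ℕ :=
  (univ.filter fun e => Root_T hd A e ∧ hd e (ω e) = v).card

private theorem Root_prod {R : Type} [CommRing R] (hd : E → Bool → V) (A : Finset V)
    (ω : E → Bool) (z : V → R) :
    ∏ v, z v ^ Root_c hd A ω v = ∏ e, if Root_T hd A e then z (hd e (ω e)) else 1 := by
  have h1 : ∀ v, z v ^ Root_c hd A ω v =
      ∏ e ∈ univ.filter (fun e => hd e (ω e) = v), if Root_T hd A e then z (hd e (ω e)) else 1 := by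
    intro v
    rw [Finset.prod_congr rfl (g := fun e => if Root_T hd A e then z v else 1)
      (fun e he => by rw [(Finset.mem_filter.1 he).2])]
    rw [Finset.prod_ite, Finset.prod_const_one, mul_one, Finset.prod_const, Finset.filter_filter]
    unfold Root_c
    congr 2
    ext e
    simp only [Finset.mem_filter, Finset.mem_univ, true_and]
    exact and_comm
  rw [Finset.prod_congr rfl (fun v _ => h1 v)]
  exact Finset.prod_fiberwise univ (fun e => hd e (ω e))
    (fun e => if Root_T hd A e then z (hd e (ω e)) else 1)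

private theorem Root_sum {R : Type} [CommRing R] (hd : E → Bool → V) (A : Finset V)
    (z : V → R) :
    ∑ ω : E → Bool, ∏ v, z v ^ Root_c hd A ω v =
      ∏ e, if Root_T hd A e then z (hd e true) + z (hd e false) else 2 := by
  rw [Finset.sum_congr rfl (fun ω _ => Root_prod hd A ω z)]
  have h := Finset.prod_univ_sum (fun _ : E => (univ : Finset Bool))
    (fun e b => if Root_T hd A e then z (hd e b) else (1 : R))
  rw [Fintype.piFinset_univ] at h
  rw [← h]
  refine Finset.prod_congr rfl (fun e _ => ?_)
  rw [Fintype.sum_bool]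
  split_ifs
  · rfl
  · norm_num

private theorem Root_D (hd : E → Bool → V) (A : Finset V) (ω : E → Bool) :
    ∑ v, Root_c hd A ω v = (univ.filter fun e => Root_T hd A e).card := by
  rw [Finset.card_eq_sum_card_fiberwise (f := fun e => hd e (ω e)) (t := univ)
    (fun e _ => Finset.mem_univ _)]
  refine Finset.sum_congr rfl (fun v _ => ?_)
  unfold Root_c
  rw [Finset.filter_filter]

private theorem Root_c_mem {hd : E → Bool → V} {A : Finset V} {v : V} (hv : v ∈ A)
    (ω : E → Bool) : Root_c hd A ω v = indeg hd ω v := by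
  unfold Root_c indeg
  congr 1
  ext e
  simp only [Finset.mem_filter, Finset.mem_univ, true_and]
  constructor
  · exact fun h => h.2
  · intro h
    exact ⟨⟨ω e, h ▸ hv⟩, h⟩

private theorem Root_c_w {hd : E → Bool → V} {A : Finset V} {w : V} (hw : w ∉ A)
    (ω : E → Bool) : Root_c hd A ω w = jw hd A w ω := by
  unfold Root_c jw
  congr 1
  ext e
  simp only [Finset.mem_filter, Finset.mem_univ, true_and]
  constructor
  · rintro ⟨⟨b, hb⟩, h⟩
    refine ⟨h, ?_⟩
    by_cases hbo : b = ω e
    · exact absurd (h ▸ hbo ▸ hb) hw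
    · have hbn : b = !ω e := by
        cases b <;> cases hω : ω e <;> simp_all
      exact hbn ▸ hb
  · rintro ⟨h, h'⟩
    exact ⟨⟨_, h'⟩, h⟩

/-- Proof: `qs_family` for `c ω v = #{e touching A : head v}`, `z_w = z`, `z_v = t` elsewhere: the
sum over `Om hd A` of `z ^ jw * t ^ (D' - jw)` does not vanish if `Im z, Im t > 0`; a root `z₀` that
is not in `(-∞, 0]` is a quotient `z / t` of two such numbers. -/
theorem ff_root {hd : E → Bool → V} (hl : NoLoop hd) {A : Finset V} {w : V} (hw : w ∉ A)
    (hne : (Om hd A).Nonempty) {z : ℂ} (hz : aeval z (ff hd A w) = 0) : z.im = 0 ∧ z.re ≤ 0 := by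
  by_contra hcon
  have hpos : 0 < ‖z‖ + z.re := by
    by_contra hle
    apply hcon
    have h1 : ‖z‖ ≤ -z.re := by linarith
    have h2 : |z.re| ≤ ‖z‖ := Complex.abs_re_le_norm z
    have h3 : z.re ≤ 0 := by
      have := norm_nonneg z
      linarith
    have h4 : ‖z‖ = |z.re| := by
      rw [abs_of_nonpos h3] at h2 ⊢
      linarith
    refine ⟨?_, h3⟩
    have h5 := Complex.sq_norm z
    rw [h4, sq_abs, Complex.normSq_apply] at h5
    nlinarith
  have hz0 : 0 < ‖z‖ := by
    rcases (norm_nonneg z).lt_or_eq with h | h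
    · exact h
    · exfalso
      have h0 : z = 0 := norm_eq_zero.1 h.symm
      rw [h0] at hpos
      simp at hpos
  set t : ℂ := Complex.I * ((‖z‖ : ℂ) + (starRingEnd ℂ) z) with ht
  have htim : t.im = ‖z‖ + z.re := by
    rw [ht]
    simp
  have hzt : z * t = Complex.I * ((‖z‖ : ℂ) * (z + (‖z‖ : ℂ))) := by
    have h5 : z * (starRingEnd ℂ) z = (‖z‖ : ℂ) ^ 2 := by
      rw [Complex.mul_conj, Complex.normSq_eq_norm_sq]
      push_cast
      rfl
    rw [ht]
    linear_combination Complex.I * h5
  have hztim : (z * t).im = ‖z‖ * (z.re + ‖z‖) := by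
    rw [hzt]
    simp
  have ht0 : 0 < t.im := by rw [htim]; exact hpos
  have hzt0 : 0 < (z * t).im := by
    rw [hztim]
    exact mul_pos hz0 (by linarith)
  -- the hypothesis of `qs_family`
  have hq : ∀ z : V → ℂ, (∀ v, 0 ≤ (z v).im) →
      ∑ ω : E → Bool, ∏ v, (z v).im ^ Root_c hd A ω v ≤
        ‖∑ ω : E → Bool, ∏ v, z v ^ Root_c hd A ω v‖ := by
    intro z hz
    rw [Root_sum hd A (fun v => (z v).im), Root_sum hd A z, norm_prod]
    refine Finset.prod_le_prod (fun e _ => ?_) (fun e _ => ?_)
    · split_ifs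
      · exact add_nonneg (hz _) (hz _)
      · norm_num
    · split_ifs
      · rw [← Complex.add_im]
        exact (Complex.im_le_norm _)
      · norm_num
  have hfam := qs_family (fun ω v => Root_c hd A ω v) _ (fun ω => Root_D hd A ω) hq A
    (fun v => deg hd v / 2) (fun v => (if v = w then z else 1) * t) (by
      intro v
      split_ifs
      · exact hzt0.le
      · rw [one_mul]
        exact ht0.le)
  have heven : ∀ v ∈ A, 2 * (deg hd v / 2) = deg hd v := by
    intro v hv
    obtain ⟨ω, hω⟩ := hne
    have h1 := (bal_iff hl ω v).1 (mem_Om.1 hω v hv)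
    omega
  have hfil : (univ.filter fun ω : E → Bool => ∀ v ∈ A, Root_c hd A ω v = deg hd v / 2) =
      Om hd A := by
    ext ω
    rw [Finset.mem_filter, mem_Om]
    constructor
    · rintro ⟨_, h⟩ v hv
      rw [bal_iff hl]
      have h1 := h v hv
      rw [Root_c_mem hv] at h1
      have h2 := heven v hv
      omega
    · intro h
      refine ⟨Finset.mem_univ _, fun v hv => ?_⟩
      rw [Root_c_mem hv]
      have h1 := (bal_iff hl ω v).1 (h v hv)
      omega
  rw [hfil] at hfam
  -- the right side vanishes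
  have hsum : ∀ ω ∈ Om hd A, ∏ v ∈ Aᶜ, ((if v = w then z else 1) * t) ^ Root_c hd A ω v =
      z ^ jw hd A w ω * t ^ ((univ.filter fun e => Root_T hd A e).card - ∑ v ∈ A, deg hd v / 2) := by
    intro ω hω
    have hwA : w ∈ Aᶜ := Finset.mem_compl.2 hw
    have h1 : ∏ v ∈ Aᶜ, ((if v = w then z else 1) * t) ^ Root_c hd A ω v =
        (∏ v ∈ Aᶜ, (if v = w then z ^ Root_c hd A ω v else 1)) *
          ∏ v ∈ Aᶜ, t ^ Root_c hd A ω v := by
      rw [← Finset.prod_mul_distrib]
      refine Finset.prod_congr rfl (fun v _ => ?_)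
      rw [mul_pow]
      split_ifs
      · rfl
      · rw [one_pow]
    rw [h1, Finset.prod_ite_eq' Aᶜ w (fun v => z ^ Root_c hd A ω v), if_pos hwA, Root_c_w hw,
      Finset.prod_pow_eq_pow_sum]
    congr 2
    have h2 := Root_D hd A ω
    rw [← Finset.sum_add_sum_compl A] at h2
    have h3 : ∑ v ∈ A, Root_c hd A ω v = ∑ v ∈ A, deg hd v / 2 := by
      refine Finset.sum_congr rfl (fun v hv => ?_)
      rw [Root_c_mem hv]
      have h1 := (bal_iff hl ω v).1 (mem_Om.1 hω v hv)
      omega
    omega
  have hzero : ∑ ω ∈ Om hd A, ∏ v ∈ Aᶜ, ((if v = w then z else 1) * t) ^ Root_c hd A ω v = 0 := by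
    rw [Finset.sum_congr rfl hsum, ← Finset.sum_mul]
    unfold ff at hz
    rw [map_sum] at hz
    simp only [map_pow, aeval_X] at hz
    rw [hz, zero_mul]
  rw [hzero, norm_zero] at hfam
  have hposs : 0 < ∑ ω ∈ Om hd A,
      ∏ v ∈ Aᶜ, (((if v = w then z else 1) * t).im) ^ Root_c hd A ω v := by
    refine Finset.sum_pos (fun ω _ => Finset.prod_pos (fun v _ => pow_pos ?_ _)) hne
    split_ifs
    · exact hzt0
    · rw [one_mul]
      exact ht0
  linarith

private theorem Root_bool {a b : Bool} (h : b ≠ a) : b = !a := by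
  cases a <;> cases b <;> simp_all

private theorem Root_bal_rev {hd : E → Bool → V} (hl : NoLoop hd) {ω : E → Bool} {v : V}
    (h : Bal hd ω v) : Bal hd (fun e => !ω e) v := by
  unfold Bal at h ⊢
  have h1 : ∀ e, sg hd (fun e => !ω e) v e = -sg hd ω v e := by
    intro e
    unfold sg
    simp only [Bool.not_not]
    by_cases ha : hd e (ω e) = v
    · have hb : hd e (!ω e) ≠ v := by
        intro hb
        have hne := hl e
        cases hω : ω e
        · rw [hω] at ha hb
          exact hne (hb.trans ha.symm)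
        · rw [hω] at ha hb
          exact hne (ha.trans hb.symm)
      rw [if_neg hb, if_pos ha, if_pos ha]
    · rw [if_neg ha, if_neg ha]
      split_ifs <;> norm_num
  rw [Finset.sum_congr rfl (fun e _ => h1 e), Finset.sum_neg_distrib, h, neg_zero]

private theorem Root_jw_rev {hd : E → Bool → V} {A : Finset V} {w : V} (hw : w ∉ A)
    (ω : E → Bool) : jw hd A w ω + jw hd A w (fun e => !ω e) = (btw hd A w).card := by
  unfold jw btw
  rw [← Finset.card_union_of_disjoint]
  · congr 1
    ext e
    simp only [Finset.mem_union, Finset.mem_filter, Finset.mem_univ, true_and, Bool.not_not]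
    constructor
    · rintro (h | h)
      · exact ⟨ω e, h⟩
      · exact ⟨!ω e, by rw [Bool.not_not]; exact h⟩
    · rintro ⟨b, h⟩
      by_cases hb : b = ω e
      · rw [hb] at h
        exact Or.inl h
      · rw [Root_bool hb, Bool.not_not] at h
        exact Or.inr h
  · rw [Finset.disjoint_left]
    intro e he he'
    simp only [Finset.mem_filter, Finset.mem_univ, true_and, Bool.not_not] at he he'
    exact hw (he.1 ▸ he'.2)

/-- reversing all edges -/
theorem ff_palin {hd : E → Bool → V} (hl : NoLoop hd) {A : Finset V} {w : V} (hw : w ∉ A) :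
    (ff hd A w).natDegree ≤ (btw hd A w).card ∧
      ∀ j ≤ (btw hd A w).card, (ff hd A w).coeff j = (ff hd A w).coeff ((btw hd A w).card - j) := by
  constructor
  · unfold ff
    refine Polynomial.natDegree_sum_le_of_forall_le _ _ (fun ω _ => ?_)
    rw [Polynomial.natDegree_X_pow]
    have := Root_jw_rev hw ω (hd := hd)
    omega
  · intro j hj
    unfold ff
    rw [Polynomial.finsetSum_coeff, Polynomial.finsetSum_coeff]
    have hrev : ∀ ω ∈ Om hd A, (fun e => !ω e) ∈ Om hd A := by
      intro ω hω
      rw [mem_Om] at hω ⊢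
      exact fun v hv => Root_bal_rev hl (hω v hv)
    refine Finset.sum_nbij' (fun ω e => !ω e) (fun ω e => !ω e) hrev hrev
      (fun ω _ => by funext e; exact Bool.not_not _) (fun ω _ => by funext e; exact Bool.not_not _)
      (fun ω _ => ?_)
    rw [Polynomial.coeff_X_pow, Polynomial.coeff_X_pow]
    have := Root_jw_rev hw ω (hd := hd)
    by_cases h : j = jw hd A w ω
    · rw [if_pos h, if_pos]
      omega
    · rw [if_neg h, if_neg]
      omega

theorem ff_eval_one (hd : E → Bool → V) (A : Finset V) (w : V) :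
    (ff hd A w).eval 1 = ((Om hd A).card : ℝ) := by
  unfold ff
  rw [Polynomial.eval_finsetSum]
  simp

end MP_a3e05c_co.KL
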