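import Pool.Agent.Lib.MP_a3e05c_co.KL.Free
import Pool.Agent.Lib.MP_a3e05c_co.KL.Palin
import Pool.Agent.Lib.MP_a3e05c_co.KL.Coeff

/-!
# EULER, key lemma: two free edges at a balanced vertex
-/

open Finset Polynomial

namespace MP_a3e05c_co.KL

variable {V E : Type} [Fintype V] [DecidableEq V] [Fintype E] [DecidableEq E]

/-- The factorisation of `ff hd A w`. -/
theorem ff_factor {hd : E → Bool → V} (hl : NoLoop hd) {A : Finset V} {w : V} (hw : w ∉ A)
    (hne : (Om hd A).Nonempty) :
    ∃ s : Fin ((btw hd A w).card / 2) → ℝ, Factor (btw hd A w).card (ff hd A w) s := by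
  refine palin_factor (btw hd A w).card (ff hd A w) ?_ (ff_palin hl hw).1 (ff_palin hl hw).2
    (fun z hz => ff_root hl hw hne hz)
  intro h0
  have h1 := ff_eval_one hd A w
  rw [h0, eval_zero] at h1
  have h2 : (0 : ℝ) < ((Om hd A).card : ℝ) := by exact_mod_cast hne.card_pos
  linarith

/-- `N(A ∪ {w}) = N(A) * PB s ..` -/
theorem card_insert {hd : E → Bool → V} (hl : NoLoop hd) {A : Finset V} {w : V} (hw : w ∉ A)
    (hev : Even (deg hd w)) {s : Fin ((btw hd A w).card / 2) → ℝ}
    (hs : Factor (btw hd A w).card (ff hd A w) s) :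
    ((Om hd (insert w A)).card : ℝ) =
      (Om hd A).card * PB s (((frees hd A w).card + (btw hd A w).card % 2) / 2) := by
  have h1 : ((Om hd (insert w A)).card : ℝ) = ∑ ω ∈ Om hd (insert w A), (1 : ℝ) := by
    rw [sum_const, nsmul_eq_mul, mul_one]
  have hd' := deg_eq hl A w
  have hev' : Even ((btw hd A w).card + (frees hd A w).card) := by
    rw [← hd']
    exact hev
  rw [h1, sum_insert hl hev (fun _ => (1 : ℝ))]
  simp only [C_1, one_mul]
  rw [sum_indeg hl hw, hd', coeff_factor hev' hs, ff_eval_one]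

private lemma twoPt_frees_erase {hd : E → Bool → V} (A : Finset V) {u : V}
    {e : E} (he : e ∈ frees hd A u) : e ∈ frees hd (A.erase u) u := by
  unfold frees at he ⊢
  rw [mem_filter] at he ⊢
  obtain ⟨h1, b, h2, h3⟩ := he
  exact ⟨h1, b, h2, fun h4 => h3 (mem_of_mem_erase h4)⟩

/-- **Two point bound.**  `u` is balanced, `e`, `e'` are two edges from `u` to the outside. -/
theorem two_point {hd : E → Bool → V} (hl : NoLoop hd) {A : Finset V} {u : V} (hu : u ∈ A)
    (hev : Even (deg hd u)) {e e' : E} (he : e ∈ frees hd A u) (he' : e' ∈ frees hd A u)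
    (hne : e ≠ e') :
    ∑ ω ∈ Om hd A, ((sg hd ω u e * sg hd ω u e' : ℤ) : ℝ) ≤
      - (1 / ((deg hd u : ℝ) - 1)) * (Om hd A).card := by
  have hA : insert u (A.erase u) = A := insert_erase hu
  have hu0 : u ∉ A.erase u := notMem_erase u A
  have he0 := twoPt_frees_erase A he
  have he0' := twoPt_frees_erase A he'
  rcases (Om hd (A.erase u)).eq_empty_or_nonempty with h0 | hn
  · have h1 : Om hd A = ∅ := by
      rw [eq_empty_iff_forall_notMem]
      intro ω hω
      have h2 : ω ∈ Om hd (A.erase u) := by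
        rw [mem_Om] at hω ⊢
        exact fun v hv => hω v (mem_of_mem_erase hv)
      rw [h0] at h2
      exact notMem_empty _ h2
    rw [h1, sum_empty, card_empty, Nat.cast_zero, mul_zero]
  · obtain ⟨s, hs⟩ := ff_factor hl hu0 hn
    have hdg := deg_eq hl (A.erase u) u
    have hM : 2 ≤ (frees hd (A.erase u) u).card := by
      have h3 : ({e, e'} : Finset E) ⊆ frees hd (A.erase u) u := by
        intro x hx
        rw [mem_insert, mem_singleton] at hx
        rcases hx with rfl | rfl
        · exact he0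
        · exact he0'
      have h4 := card_le_card h3
      rwa [card_pair hne] at h4
    have hev' : Even ((btw hd (A.erase u) u).card + (frees hd (A.erase u) u).card) := by
      rw [← hdg]
      exact hev
    have h1 : 0 ≤ (ff hd (A.erase u) u).eval 1 := by
      rw [ff_eval_one]
      exact Nat.cast_nonneg _
    have key := coeff_factor_two hev' hM hs h1
    have hcard : ((Om hd A).card : ℝ) =
        (ff hd (A.erase u) u * (C (1 / 2) * (1 + X)) ^ (frees hd (A.erase u) u).card).coeff
          (((btw hd (A.erase u) u).card + (frees hd (A.erase u) u).card) / 2) := by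
      rw [coeff_factor hev' hs, ff_eval_one]
      have h5 := card_insert hl hu0 hev hs
      rw [hA] at h5
      exact h5
    have hsum : ∑ ω ∈ Om hd A, ((sg hd ω u e * sg hd ω u e' : ℤ) : ℝ) =
        (ff hd (A.erase u) u * (C (1 / 2) * (X - 1)) ^ 2 *
          (C (1 / 2) * (1 + X)) ^ ((frees hd (A.erase u) u).card - 2)).coeff
          (((btw hd (A.erase u) u).card + (frees hd (A.erase u) u).card) / 2) := by
      have h6 := sum_insert (A := A.erase u) hl hev
        (fun ω => ((sg hd ω u e * sg hd ω u e' : ℤ) : ℝ))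
      rw [hA, sum_indeg_two hl hu0 he0 he0' hne, hdg] at h6
      exact h6
    rw [hsum, hcard, hdg]
    exact key

private lemma twoPt_sg {hd : E → Bool → V} {A : Finset V} {w : V} (ω : E → Bool) {e : E}
    (he : e ∈ btw hd A w) : sg hd ω w e = if hd e (ω e) = w then 1 else -1 := by
  unfold btw at he
  rw [mem_filter] at he
  obtain ⟨-, b, h2, h3⟩ := he
  unfold sg
  by_cases h : hd e (ω e) = w
  · rw [if_pos h, if_pos h]
  · rw [if_neg h, if_neg h]
    have h4 : (!ω e) = b := by
      cases hb : ω e <;> cases b <;> simp_all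
    rw [h4, if_pos h2]

private lemma twoPt_jw {hd : E → Bool → V} {A : Finset V} {w : V} (hw : w ∉ A) (ω : E → Bool) :
    jw hd A w ω = ((btw hd A w).filter fun e => hd e (ω e) = w).card := by
  unfold jw btw
  rw [filter_filter]
  congr 1
  apply filter_congr
  intro e _
  constructor
  · rintro ⟨h1, h2⟩
    exact ⟨⟨ω e, h1, h2⟩, h1⟩
  · rintro ⟨⟨b, h1, h2⟩, h3⟩
    refine ⟨h3, ?_⟩
    by_cases hb : ω e = b
    · rw [hb]
      exact h2
    · have h4 : ω e = !b := by
        cases hb' : ω e <;> cases b <;> simp_all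
      rw [h4] at h3
      rw [h3] at h2
      exact absurd h2 hw

private lemma twoPt_sum_sg {hd : E → Bool → V} {A : Finset V} {w : V} (hw : w ∉ A)
    (ω : E → Bool) :
    (∑ e ∈ btw hd A w, sg hd ω w e : ℤ) = 2 * (jw hd A w ω : ℤ) - (btw hd A w).card := by
  rw [sum_congr rfl fun e he => twoPt_sg ω he, sum_ite, sum_const, sum_const, twoPt_jw hw ω]
  have h := card_filter_add_card_filter_not (s := btw hd A w) (fun e => hd e (ω e) = w)
  simp only [nsmul_eq_mul, mul_one, mul_neg]
  have h' : (((btw hd A w).filter fun e => hd e (ω e) = w).card : ℤ) +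
      (((btw hd A w).filter fun e => ¬ hd e (ω e) = w).card : ℤ) = (btw hd A w).card := by
    exact_mod_cast h
  linarith

/-- second moment of the sum of the signs at `w` of the edges between `w` and `A` -/
theorem var_eq {hd : E → Bool → V} (hl : NoLoop hd) {A : Finset V} {w : V} (hw : w ∉ A)
    {s : Fin ((btw hd A w).card / 2) → ℝ} (hs : Factor (btw hd A w).card (ff hd A w) s) :
    ∑ ω ∈ Om hd A, ((∑ e ∈ btw hd A w, sg hd ω w e : ℤ) : ℝ) ^ 2 =
      (Om hd A).card * (2 * ∑ i, s i + ((btw hd A w).card % 2 : ℕ)) := by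
  have h2 := second_moment hs
  rw [ff_eval_one] at h2
  rw [← h2]
  have h3 : ∀ p : ℝ[X], p.sum (fun j a => a * (2 * (j : ℝ) - (btw hd A w).card) ^ 2) =
      Polynomial.lsum (fun j : ℕ =>
        LinearMap.mulRight ℝ ((2 * (j : ℝ) - (btw hd A w).card) ^ 2)) p := fun p => rfl
  rw [h3]
  unfold ff
  rw [map_sum]
  refine sum_congr rfl fun ω _ => ?_
  rw [← h3, twoPt_sum_sg hw ω, ← monomial_one_right_eq_X_pow]
  have h4 := sum_monomial_index (n := jw hd A w ω) (1 : ℝ)
    (fun (j : ℕ) (a : ℝ) => a * (2 * (j : ℝ) - (btw hd A w).card) ^ 2) (zero_mul _)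
  rw [h4]
  push_cast
  ring

end MP_a3e05c_co.KL
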