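import Pool.Agent.Lib.MP_a3e05c_co.KL.TwoPt
import Pool.Agent.Lib.MP_a3e05c_co.KL.Exch

/-!
# EULER, key lemma: lower bound for the variance
-/

open Finset

namespace MP_a3e05c_co.KL

variable {V E : Type} [Fintype V] [DecidableEq V] [Fintype E] [DecidableEq E]

/-- the loss of variance caused by a balanced vertex of degree `d` with `L` free edges -/
noncomputable def lossL (d L : ℕ) : ℝ := ((d : ℝ) - L) / (((d : ℝ) - 1) * L)

/-- expansion of a sum of squares -/
private lemma sum_sq_expand {Ω B : Type*} (O : Finset Ω) (S : Finset B) (y : B → Ω → ℝ) :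
    ∑ ω ∈ O, (∑ e ∈ S, y e ω) ^ 2 = ∑ e ∈ S, ∑ f ∈ S, ∑ ω ∈ O, y e ω * y f ω := by
  simp_rw [sq, sum_mul_sum]
  rw [sum_comm]
  refine sum_congr rfl fun e _ => ?_
  rw [sum_comm]

private lemma abstract_var {Ω B : Type*} [DecidableEq B] (O : Finset Ω) (S : Finset B)
    (x y : B → Ω → ℝ) (hx : ∀ e ∈ S, ∀ ω ∈ O, x e ω * x e ω = 1)
    (hoff : ∀ e ∈ S, ∀ f ∈ S, e ≠ f → ∑ ω ∈ O, x e ω * x f ω = ∑ ω ∈ O, y e ω * y f ω) :
    (S.card : ℝ) * O.card - ∑ e ∈ S, ∑ ω ∈ O, y e ω ^ 2 ≤ ∑ ω ∈ O, (∑ e ∈ S, x e ω) ^ 2 := by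
  have h2 : ∑ ω ∈ O, (∑ e ∈ S, x e ω) ^ 2 - ∑ ω ∈ O, (∑ e ∈ S, y e ω) ^ 2 =
      ∑ e ∈ S, ((O.card : ℝ) - ∑ ω ∈ O, y e ω ^ 2) := by
    rw [sum_sq_expand, sum_sq_expand, ← sum_sub_distrib]
    refine sum_congr rfl fun e he => ?_
    rw [← sum_sub_distrib, sum_eq_single e]
    · rw [sum_congr rfl (hx e he)]
      simp [sq]
    · intro f hf hfe
      rw [hoff e he f hf (Ne.symm hfe), sub_self]
    · intro h
      exact absurd he h
  have h3 : 0 ≤ ∑ ω ∈ O, (∑ e ∈ S, y e ω) ^ 2 := sum_nonneg fun _ _ => sq_nonneg _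
  rw [sum_sub_distrib, sum_const, nsmul_eq_mul] at h2
  linarith

omit [Fintype V] [Fintype E] [DecidableEq E] in
private lemma sg_sq {hd : E → Bool → V} {u : V} {e : E} {b : Bool} (h : hd e b = u)
    (ω : E → Bool) : (sg hd ω u e : ℝ) * sg hd ω u e = 1 := by
  unfold sg
  by_cases hb : ω e = b
  · rw [hb, if_pos h]
    norm_num
  · have hb' : (!ω e) = b := by
      cases hω : ω e <;> cases b <;> simp_all
    by_cases h1 : hd e (ω e) = u
    · rw [if_pos h1]
      norm_num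
    · rw [if_neg h1, hb', if_pos h]
      norm_num

omit [Fintype V] [Fintype E] [DecidableEq E] in
private lemma sg_neg {hd : E → Bool → V} {u w : V} (huw : u ≠ w) {e : E} {b : Bool}
    (h : hd e b = w) (h' : hd e (!b) = u) (ω : E → Bool) : sg hd ω w e = - sg hd ω u e := by
  unfold sg
  by_cases hb : ω e = b
  · rw [hb, if_pos h, h', if_neg, if_pos rfl]
    · norm_num
    · rw [h]
      exact Ne.symm huw
  · have hb' : ω e = !b := by
      cases hω : ω e <;> cases b <;> simp_all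
    rw [hb', Bool.not_not, h', h, if_neg huw, if_pos rfl, if_pos rfl]

private lemma lam_sq_le {hd : E → Bool → V} (hl : NoLoop hd) {A : Finset V} {u : V} (hu : u ∈ A)
    (hev : Even (deg hd u)) (hpos : (frees hd A u).Nonempty) :
    ∑ ω ∈ Om hd A, ((∑ f ∈ frees hd A u, (sg hd ω u f : ℝ)) / (frees hd A u).card) ^ 2 ≤
      lossL (deg hd u) (frees hd A u).card * (Om hd A).card := by
  classical
  set F := frees hd A u with hF
  set N : ℝ := ((Om hd A).card : ℝ) with hN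
  set d : ℝ := (deg hd u : ℝ) with hd0
  have hL : (0 : ℝ) < F.card := by
    exact_mod_cast hpos.card_pos
  have hd2 : (2 : ℝ) ≤ d := by
    have h1 : 0 < deg hd u := by
      obtain ⟨f, hf⟩ := hpos
      refine card_pos.mpr ⟨f, ?_⟩
      rw [hF, frees, mem_filter] at hf
      obtain ⟨-, b, hb, -⟩ := hf
      rw [mem_filter]
      exact ⟨mem_univ _, b, hb⟩
    obtain ⟨m, hm⟩ := hev
    have h2 : 2 ≤ deg hd u := by omega
    rw [hd0]
    exact_mod_cast h2
  have h1 : ∑ ω ∈ Om hd A, (∑ f ∈ F, (sg hd ω u f : ℝ)) ^ 2 ≤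
      F.card * (N - ((F.card : ℝ) - 1) * (1 / (d - 1) * N)) := by
    rw [sum_sq_expand (Om hd A) F (fun f ω => (sg hd ω u f : ℝ)), ← nsmul_eq_mul]
    refine sum_le_card_nsmul _ _ _ fun f hf => ?_
    rw [← add_sum_erase F _ hf]
    have hb : ∃ b, hd f b = u := by
      rw [hF, frees, mem_filter] at hf
      obtain ⟨-, b, hb, -⟩ := hf
      exact ⟨b, hb⟩
    obtain ⟨b, hb⟩ := hb
    have e1 : ∑ ω ∈ Om hd A, (sg hd ω u f : ℝ) * sg hd ω u f = N := by
      rw [sum_congr rfl fun ω _ => sg_sq hb ω]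
      simp [hN]
    have e2 : ∑ f' ∈ F.erase f, ∑ ω ∈ Om hd A, (sg hd ω u f : ℝ) * sg hd ω u f' ≤
        (F.erase f).card • (-(1 / (d - 1)) * N) := by
      refine sum_le_card_nsmul _ _ _ fun f' hf' => ?_
      rw [mem_erase] at hf'
      have h := two_point hl hu hev hf hf'.2 (Ne.symm hf'.1)
      push_cast at h
      exact h
    rw [card_erase_of_mem hf, nsmul_eq_mul, Nat.cast_sub (Nat.one_le_iff_ne_zero.mpr
      (card_ne_zero_of_mem hf)), Nat.cast_one] at e2
    rw [e1]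
    linarith
  have h2 : ∑ ω ∈ Om hd A, ((∑ f ∈ F, (sg hd ω u f : ℝ)) / F.card) ^ 2 =
      (∑ ω ∈ Om hd A, (∑ f ∈ F, (sg hd ω u f : ℝ)) ^ 2) / (F.card : ℝ) ^ 2 := by
    rw [sum_div]
    exact sum_congr rfl fun ω _ => div_pow _ _ _
  rw [h2, div_le_iff₀ (by positivity)]
  refine h1.trans (le_of_eq ?_)
  unfold lossL
  have hd1 : d - 1 ≠ 0 := by linarith
  rw [← hd0]
  field_simp
  ring

omit [Fintype V] in
private lemma off_diag {hd : E → Bool → V} (hl : NoLoop hd) {A : Finset V} {u v : V} (hu : u ∈ A)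
    (hv : v ∈ A) (huv : u ≠ v) {e f : E} (he : e ∈ frees hd A u) (hf : f ∈ frees hd A v) :
    ∑ ω ∈ Om hd A, (sg hd ω u e : ℝ) * sg hd ω v f =
      ∑ ω ∈ Om hd A, ((∑ e' ∈ frees hd A u, (sg hd ω u e' : ℝ)) / (frees hd A u).card) *
        ((∑ f' ∈ frees hd A v, (sg hd ω v f' : ℝ)) / (frees hd A v).card) := by
  classical
  have hL : ((frees hd A u).card : ℝ) ≠ 0 := by
    exact_mod_cast card_ne_zero_of_mem he
  have hM : ((frees hd A v).card : ℝ) ≠ 0 := by
    exact_mod_cast card_ne_zero_of_mem hf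
  have hc : ∀ e' ∈ frees hd A u, ∀ f' ∈ frees hd A v,
      ∑ ω ∈ Om hd A, (sg hd ω u e' : ℝ) * sg hd ω v f' =
        ∑ ω ∈ Om hd A, (sg hd ω u e : ℝ) * sg hd ω v f := by
    intro e' he' f' hf'
    have h1 := sum_exch hl hu hv huv he' he hf'
    have h2 := sum_exch hl hv hu (Ne.symm huv) hf' hf he
    have h3 : ∑ ω ∈ Om hd A, sg hd ω u e' * sg hd ω v f' =
        ∑ ω ∈ Om hd A, sg hd ω u e * sg hd ω v f := by
      rw [h1]
      simp_rw [mul_comm (sg hd _ u e)]
      exact h2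
    exact_mod_cast h3
  have h1 : ∑ ω ∈ Om hd A, ((∑ e' ∈ frees hd A u, (sg hd ω u e' : ℝ)) / (frees hd A u).card) *
        ((∑ f' ∈ frees hd A v, (sg hd ω v f' : ℝ)) / (frees hd A v).card) =
      (∑ e' ∈ frees hd A u, ∑ f' ∈ frees hd A v,
        ∑ ω ∈ Om hd A, (sg hd ω u e' : ℝ) * sg hd ω v f') /
        ((frees hd A u).card * (frees hd A v).card) := by
    have h2 : ∑ e' ∈ frees hd A u, ∑ f' ∈ frees hd A v,
        ∑ ω ∈ Om hd A, (sg hd ω u e' : ℝ) * sg hd ω v f' =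
        ∑ ω ∈ Om hd A, (∑ e' ∈ frees hd A u, (sg hd ω u e' : ℝ)) *
          (∑ f' ∈ frees hd A v, (sg hd ω v f' : ℝ)) := by
      simp_rw [sum_mul_sum]
      rw [sum_comm]
      rw [sum_congr rfl fun e' _ => sum_comm]
      rw [sum_comm]
      refine sum_congr rfl fun ω _ => ?_
      rw [sum_comm]
    rw [h2, sum_div]
    refine sum_congr rfl fun ω _ => ?_
    rw [div_mul_div_comm]
  rw [h1, sum_congr rfl fun e' he' => sum_congr rfl fun f' hf' => hc e' he' f' hf']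
  simp only [sum_const, nsmul_eq_mul]
  field_simp

/-- the other end -/
private def ot (hd : E → Bool → V) (w : V) (e : E) : V :=
  if hd e true = w then hd e false else hd e true

omit [Fintype V] [Fintype E] [DecidableEq E] in
private lemma ot_eq {hd : E → Bool → V} {w u : V} (huw : u ≠ w) {e : E} {b : Bool}
    (h : hd e b = w) (h' : hd e (!b) = u) : ot hd w e = u := by
  unfold ot
  cases b
  · rw [Bool.not_false] at h'
    rw [h', if_neg huw]
  · rw [Bool.not_true] at h'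
    rw [if_pos h, h']

omit [Fintype V] [DecidableEq E] in
private lemma ot_spec {hd : E → Bool → V} {A : Finset V} {w : V} (hw : w ∉ A)
    {e : E} (he : e ∈ btw hd A w) :
    ot hd w e ∈ A ∧ ot hd w e ≠ w ∧ ∃ b, hd e b = w ∧ hd e (!b) = ot hd w e := by
  rw [btw, mem_filter] at he
  obtain ⟨-, b, h1, h2⟩ := he
  have h3 : hd e (!b) ≠ w := fun h => hw (h ▸ h2)
  have h4 := ot_eq h3 h1 rfl
  rw [h4]
  exact ⟨h2, h3, b, h1, rfl⟩

/-- Let `e₁, …, e_k` be the edges between `w` and `A`, `u_i ∈ A` the other ends (distinct, the graph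
is simple), `L_u = #frees hd A u`, `λ_u` the sum of the signs at `u` of the free edges.  Then
`E S² = k + E (∑ λ_u / L_u)² - ∑ E λ_u² / L_u² ≥ k - ∑ lossL (deg u) L_u`. -/
theorem var_ge {hd : E → Bool → V} (hs : Simple hd) {A : Finset V} {w : V} (hw : w ∉ A)
    (hev : ∀ v, Even (deg hd v)) :
    (((btw hd A w).card : ℝ) -
        ∑ u ∈ A.filter (fun u => ∃ e b, hd e b = w ∧ hd e (!b) = u),
          lossL (deg hd u) (frees hd A u).card) * (Om hd A).card ≤
      ∑ ω ∈ Om hd A, ((∑ e ∈ btw hd A w, sg hd ω w e : ℤ) : ℝ) ^ 2 := by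
  classical
  obtain ⟨hl, hinj⟩ := hs
  have hfree : ∀ e ∈ btw hd A w, e ∈ frees hd A (ot hd w e) := by
    intro e he
    obtain ⟨h1, h2, b, h3, h4⟩ := ot_spec hw he
    rw [frees, mem_filter]
    refine ⟨mem_univ _, !b, h4, ?_⟩
    rw [Bool.not_not, h3]
    exact hw
  have hinj' : Set.InjOn (ot hd w) (btw hd A w) := by
    intro e he f hf hef
    obtain ⟨-, -, b, h3, h4⟩ := ot_spec hw (mem_coe.mp he)
    obtain ⟨-, -, c, k3, k4⟩ := ot_spec hw (mem_coe.mp hf)
    apply hinj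
    have e1 : ∀ (g : E) (b : Bool), hd g b = w → hd g (!b) = ot hd w g →
        s(hd g true, hd g false) = s(w, ot hd w g) := by
      intro g b h h'
      cases b
      · rw [Bool.not_false] at h'
        rw [h, h', Sym2.eq_swap]
      · rw [Bool.not_true] at h'
        rw [h, h']
    change s(hd e true, hd e false) = s(hd f true, hd f false)
    rw [e1 e b h3 h4, e1 f c k3 k4, hef]
  have hU : A.filter (fun u => ∃ e b, hd e b = w ∧ hd e (!b) = u) =
      (btw hd A w).image (ot hd w) := by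
    ext u
    rw [mem_filter, mem_image]
    constructor
    · rintro ⟨hu, e, b, h1, h2⟩
      have h3 : u ≠ w := fun h => hw (h ▸ hu)
      refine ⟨e, ?_, ot_eq h3 h1 h2⟩
      rw [btw, mem_filter]
      exact ⟨mem_univ _, b, h1, by rw [h2]; exact hu⟩
    · rintro ⟨e, he, rfl⟩
      obtain ⟨h1, h2, b, h3, h4⟩ := ot_spec hw he
      exact ⟨h1, e, b, h3, h4⟩
  rw [hU, sum_image hinj']
  have key := abstract_var (Om hd A) (btw hd A w) (fun e ω => (sg hd ω w e : ℝ))
    (fun e ω => (∑ f ∈ frees hd A (ot hd w e), (sg hd ω (ot hd w e) f : ℝ)) /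
      (frees hd A (ot hd w e)).card) ?_ ?_
  · have h1 : ∑ e ∈ btw hd A w, ∑ ω ∈ Om hd A,
        ((∑ f ∈ frees hd A (ot hd w e), (sg hd ω (ot hd w e) f : ℝ)) /
          (frees hd A (ot hd w e)).card) ^ 2 ≤
        ∑ e ∈ btw hd A w, lossL (deg hd (ot hd w e)) (frees hd A (ot hd w e)).card *
          (Om hd A).card :=
      sum_le_sum fun e he => lam_sq_le hl (ot_spec hw he).1 (hev _) ⟨e, hfree e he⟩
    rw [← sum_mul] at h1
    have h2 : ∀ ω, ((∑ e ∈ btw hd A w, sg hd ω w e : ℤ) : ℝ) =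
        ∑ e ∈ btw hd A w, (sg hd ω w e : ℝ) := fun ω => by push_cast; rfl
    simp_rw [h2]
    refine le_trans ?_ key
    rw [sub_mul]
    linarith
  · intro e he ω _
    obtain ⟨-, -, b, h3, -⟩ := ot_spec hw he
    exact sg_sq h3 ω
  · intro e he f hf hef
    obtain ⟨h1, h2, b, h3, h4⟩ := ot_spec hw he
    obtain ⟨k1, k2, c, k3, k4⟩ := ot_spec hw hf
    have hne : ot hd w e ≠ ot hd w f := fun h => hef (hinj' he hf h)
    rw [← off_diag hl h1 k1 hne (hfree e he) (hfree f hf)]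
    refine sum_congr rfl fun ω _ => ?_
    rw [sg_neg h2 h3 h4 ω, sg_neg k2 k3 k4 ω]
    push_cast
    ring

end MP_a3e05c_co.KL
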